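import Pool.Agent.H40.SP.Lp

/-!
# Row Lq: the lower bound for all large `n`

PROOF. `exists_inj`: `x t q i = ⟨t * (k * b) + q * b + i, _⟩`; injective by division with remainder
(`Nat.div_add_mod`; or compose the equivalences `finProdFinEquiv : Fin B × (Fin k × Fin b) ≃ Fin (B * (k * b))` and
`Fin.castLE`).
`lower`: let `y = 1 / (32 w k^2 ε) ≥ 32 ≥ 1`, `b = ⌊y⌋₊`, so `1 ≤ b ≤ y` and `y ≤ 2 b` (`Nat.floor_le`,
`Nat.lt_floor_add_one`). `n₀ = k * b`. For `n ≥ n₀` let `B = n / (k * b) ≥ 1`; then `B * (k * b) ≤ n < (B + 1) (k * b)`,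
so `n ≤ 2 B k b`. `F = hard x` with `x` from `exists_inj`. `not_sparse_hard` with `m = 2^(ε n)` and
`L = (1/(1024 w k^2 ε))^(k-1) n`:
* `ε n ≤ 2 ε B k b ≤ B / (16 w k)` because `32 w k^2 ε b ≤ 1` (`b ≤ y`); `Real.rpow_le_rpow_of_exponent_le`.
* `1/(1024 w k^2 ε) = y / 32 ≤ b / 16`, so `L ≤ (b/16)^(k-1) n ≤ b^(k-1) * 2 B k b / 16^(k-1) = b^k B (2 k / 16^(k-1))
  < b^k B / 2`, because `4 k < 16^(k-1)` for `k ≥ 2` (induction) and `b^k B > 0`.
-/

set_option autoImplicit false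

namespace H40.SP

theorem exists_inj {n B k b : ℕ} (h : B * (k * b) ≤ n) :
    ∃ x : Fin B → Fin k → Fin b → Fin n, Inj x := by
  refine ⟨fun t q i => Fin.castLE h (finProdFinEquiv (t, finProdFinEquiv (q, i))), ?_⟩
  intro t q i t' q' i' he
  have h1 := Fin.castLE_injective h he
  have h2 := finProdFinEquiv.injective h1
  have h3 := (Prod.mk.injEq _ _ _ _).mp h2
  have h4 := finProdFinEquiv.injective h3.2
  have h5 := (Prod.mk.injEq _ _ _ _).mp h4
  exact ⟨h3.1, h5.1, h5.2⟩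

theorem Lq_width {V : Type} [DecidableEq V] {B k b : ℕ} (x : Fin B → Fin k → Fin b → V) :
    Width k (hard x) := by
  intro C hC
  obtain ⟨p, _, rfl⟩ := Finset.mem_image.1 hC
  unfold hcl
  refine Finset.card_image_le.trans ?_
  rw [Finset.card_univ, Fintype.card_fin]

theorem Lq_four {k : ℕ} (hk : 2 ≤ k) : 4 * k < 16 ^ (k - 1) := by
  obtain ⟨m, rfl⟩ := Nat.exists_eq_add_of_le hk
  have e : 2 + m - 1 = m + 1 := by omega
  rw [e]
  induction m with
  | zero => norm_num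
  | succ m ih =>
    have h := ih (by omega) (by omega)
    rw [pow_succ]
    omega

theorem lower {k w : ℕ} {ε : ℝ} (hk : 2 ≤ k) (hkw : k ≤ w) (hε : 0 < ε)
    (h : 1024 * w * k ^ 2 * ε ≤ 1) : ∃ n₀ : ℕ, ∀ n ≥ n₀, ∃ F : Fml (Fin n), Width k F ∧
      ¬ Sparse F w ((2 : ℝ) ^ (ε * n)) ((1 / (1024 * w * k ^ 2 * ε)) ^ (k - 1) * n) := by
  have hk0 : (0 : ℝ) < k := by
    have : 0 < k := by omega
    exact_mod_cast this
  have hw0 : (0 : ℝ) < w := by
    have : 0 < w := by omega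
    exact_mod_cast this
  set y : ℝ := 1 / (32 * w * k ^ 2 * ε) with hy
  have hden : 0 < 32 * (w : ℝ) * k ^ 2 * ε := by positivity
  have hy1 : 1 ≤ y := by
    rw [hy, le_div_iff₀ hden]
    nlinarith
  set b : ℕ := ⌊y⌋₊ with hb
  have hb1 : 1 ≤ b := by
    rw [hb, Nat.one_le_floor_iff]
    exact hy1
  have hby : (b : ℝ) ≤ y := Nat.floor_le (by linarith)
  have hyb : y ≤ 2 * b := by
    have h1 := Nat.lt_floor_add_one y
    have h2 : (1 : ℝ) ≤ b := by exact_mod_cast hb1
    linarith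
  have hb0 : (0 : ℝ) < b := by
    have : 0 < b := by omega
    exact_mod_cast this
  have hkb : 0 < k * b := Nat.mul_pos (by omega) (by omega)
  refine ⟨k * b, fun n hn => ?_⟩
  set B : ℕ := n / (k * b) with hB
  have hB1 : 1 ≤ B := by
    rw [hB]
    exact (Nat.one_le_div_iff hkb).2 hn
  have hBn : B * (k * b) ≤ n := Nat.div_mul_le_self n (k * b)
  have hnB : n < (B + 1) * (k * b) := by
    rw [hB]
    have := Nat.lt_div_mul_add (a := n) hkb
    calc n < n / (k * b) * (k * b) + k * b := this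
      _ = (n / (k * b) + 1) * (k * b) := by ring
  have hn2 : (n : ℝ) ≤ 2 * B * k * b := by
    have h1 : n ≤ 2 * B * k * b := by
      have h2 : (B + 1) * (k * b) ≤ (2 * B) * (k * b) := Nat.mul_le_mul_right _ (by omega)
      calc n ≤ (2 * B) * (k * b) := by omega
        _ = 2 * B * k * b := by ring
    exact_mod_cast h1
  have hB0 : (0 : ℝ) < B := by
    have : 0 < B := by omega
    exact_mod_cast this
  obtain ⟨x, hx⟩ := exists_inj hBn
  refine ⟨hard x, Lq_width x, not_sparse_hard hx hk hb1 hkw ?_ ?_⟩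
  · apply Real.rpow_le_rpow_of_exponent_le (by norm_num)
    have h1 : 32 * (w : ℝ) * k ^ 2 * ε * b ≤ 1 := by
      have h2 : (b : ℝ) ≤ 1 / (32 * w * k ^ 2 * ε) := hby
      rw [le_div_iff₀ hden] at h2
      linarith
    rw [le_div_iff₀ (by positivity)]
    have h3 : ε * n ≤ ε * (2 * B * k * b) := mul_le_mul_of_nonneg_left hn2 hε.le
    calc ε * n * (16 * (w * k)) ≤ ε * (2 * B * k * b) * (16 * (w * k)) :=
          mul_le_mul_of_nonneg_right h3 (by positivity)
      _ = (32 * w * k ^ 2 * ε * b) * B := by ring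
      _ ≤ 1 * B := mul_le_mul_of_nonneg_right h1 hB0.le
      _ = B := one_mul _
  · have h1 : 1 / (1024 * (w : ℝ) * k ^ 2 * ε) = y / 32 := by
      rw [hy]
      field_simp
      norm_num
    have h2 : 1 / (1024 * (w : ℝ) * k ^ 2 * ε) ≤ b / 16 := by
      rw [h1]
      linarith
    have h3 : (0 : ℝ) ≤ 1 / (1024 * (w : ℝ) * k ^ 2 * ε) := by positivity
    have h4 : (4 * k : ℝ) < 16 ^ (k - 1) := by
      have := Lq_four hk
      exact_mod_cast this
    have h16 : (0 : ℝ) < 16 ^ (k - 1) := by positivity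
    have e1 : (b : ℝ) ^ k = b ^ (k - 1) * b := by
      rw [← pow_succ]
      congr 1
      omega
    calc (1 / (1024 * (w : ℝ) * k ^ 2 * ε)) ^ (k - 1) * n
        ≤ (b / 16) ^ (k - 1) * (2 * B * k * b) := by
          apply mul_le_mul (pow_le_pow_left₀ h3 h2 _) hn2 (by positivity) (by positivity)
      _ = (b : ℝ) ^ k * B / 2 * ((4 * k) / 16 ^ (k - 1)) := by
          rw [div_pow, e1]
          field_simp
          ring
      _ < (b : ℝ) ^ k * B / 2 * 1 := by
          apply mul_lt_mul_of_pos_left _ (by positivity)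
          rw [div_lt_one h16]
          exact h4
      _ = (b : ℝ) ^ k * B / 2 := mul_one _

end H40.SP
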