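import Pool.Agent.H14.IpzK

/-!
# Row Uh: the weight system with small thresholds

PROOF. `geom_le`: `∑ i ∈ range (K + 1), (if i ≤ 1 then 1 else Λ * Z ^ (i - 1 - 1)) ≤ Z ^ (K - 1)` for `K ≥ 2`, `1 ≤ Λ`,
`8 Λ ≤ Z`: induction on `K ≥ 2` (`Nat.le_induction`). `K = 2`: the sum is `1 + 1 + Λ ≤ 3 Λ ≤ Z`. Step: the new term is
`Λ * Z ^ (K - 1)`, and `Z ^ (K - 1) + Λ Z ^ (K - 1) = (1 + Λ) Z ^ (K - 1) ≤ Z ^ K`.
`exists_spK2`: copy the proof of `exists_spK` in `Pool/Agent/H14/OneK.lean`. The only changes: `z` is given with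
`hz`; `Λ = 2 * m * (z * (K - 2) + 2 + l)` instead of `2 * m * (z * (K - 2) + 2 + m)`; so `h1 : 4 * K * Λ ≤ Z` with `Z = 2 ^ z`
is `hz` rearranged (`4 * K * (2 * m * X) = 8 * K * m * X`), in `hpow` one has `e : Λ / (2 m) = z (K - 2) + 2 + l` and
`h2 : (m : ℝ) ≤ 2 ^ l` is `hl`, in `charge2` the same `e`. For the number of clauses: with `P` the constructed
structure, `P.Kc = ∑ i ∈ range (K + 1), (if i ≤ 1 then 1 else Λ * Z ^ (i - 1 - 1))` by definition (`SpK.Kc`), and
`geom_le` (`8 Λ ≤ 4 K Λ ≤ Z`) gives `P.Kc ≤ Z ^ (K - 1) = 2 ^ (z * (K - 1))`. Use `refine ⟨{ W := .., .. }, ?_⟩`.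
-/

set_option autoImplicit false

namespace H40.SP

open Pool.Agent.H14.ETH

theorem geom_le {K Λ Z : ℕ} (hK : 2 ≤ K) (hΛ : 1 ≤ Λ) (hZ : 8 * Λ ≤ Z) :
    ∑ i ∈ Finset.range (K + 1), (if i ≤ 1 then 1 else Λ * Z ^ (i - 1 - 1)) ≤ Z ^ (K - 1) := by
  induction K, hK using Nat.le_induction with
  | base =>
    rw [Finset.sum_range_succ, Finset.sum_range_succ, Finset.sum_range_succ, Finset.sum_range_zero]
    simp only [show (0 : ℕ) ≤ 1 by omega, le_refl, if_true, show ¬ (2 : ℕ) ≤ 1 by omega, if_false,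
      Nat.sub_self, pow_zero, mul_one, show (2 - 1 : ℕ) = 1 by rfl, pow_one]
    omega
  | succ K hK ih =>
    rw [Finset.sum_range_succ, if_neg (show ¬ K + 1 ≤ 1 by omega)]
    have e : K + 1 - 1 - 1 = K - 1 := by omega
    have e2 : K + 1 - 1 = (K - 1) + 1 := by omega
    rw [e, e2, pow_succ]
    have h1 : 1 + Λ ≤ Z := by omega
    have h2 : Z ^ (K - 1) * (1 + Λ) ≤ Z ^ (K - 1) * Z := Nat.mul_le_mul_left _ h1
    calc _ ≤ Z ^ (K - 1) + Λ * Z ^ (K - 1) := Nat.add_le_add_right ih _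
      _ = Z ^ (K - 1) * (1 + Λ) := by ring
      _ ≤ _ := h2

theorem exists_spK2 {K m z l : ℕ} (hK : 2 ≤ K) (hm : 1 ≤ m) (hl : m ≤ 2 ^ l)
    (hz : 8 * K * m * (z * (K - 2) + 2 + l) ≤ 2 ^ z) :
    ∃ P : SpK K (2 / (m : ℝ)), P.Kc ≤ 2 ^ (z * (K - 1)) := by
  obtain ⟨Λ, hΛ⟩ : ∃ Λ : ℕ, Λ = 2 * m * (z * (K - 2) + 2 + l) := ⟨_, rfl⟩
  obtain ⟨Z, hZ⟩ : ∃ Z : ℕ, Z = 2 ^ z := ⟨_, rfl⟩
  have h1 : 4 * K * Λ ≤ Z := by
    rw [hΛ, hZ]
    refine le_trans (le_of_eq ?_) hz
    ring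
  have hΛ1 : 1 ≤ Λ := by
    rw [hΛ]
    exact Nat.mul_pos (Nat.mul_pos (by norm_num) hm) (by omega)
  have hZ1 : 1 ≤ Z := by rw [hZ]; exact Nat.one_le_two_pow
  have hmR : (1 : ℝ) ≤ m := by exact_mod_cast hm
  have rm : (0 : ℝ) < m := by linarith
  have hZR : (1 : ℝ) ≤ Z := by exact_mod_cast hZ1
  have rZ : (0 : ℝ) < Z := by linarith
  have hKR : (2 : ℝ) ≤ K := by exact_mod_cast hK
  have rK : (0 : ℝ) < K := by linarith
  have h1R : 4 * (K : ℝ) * Λ ≤ Z := by exact_mod_cast h1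
  have hΛR : (1 : ℝ) ≤ Λ := by exact_mod_cast hΛ1
  have rΛ : (0 : ℝ) < Λ := by linarith
  have ha : ∀ i : ℕ, (0 : ℝ) < 1 / (m * (Z : ℝ) ^ i) := fun i => by positivity
  -- ratio
  have hanti : ∀ i j : ℕ, i ≤ j → 1 / (m * (Z : ℝ) ^ j) ≤ 1 / (m * (Z : ℝ) ^ i) := by
    intro i j hij
    refine one_div_le_one_div_of_le (by positivity) ?_
    exact mul_le_mul_of_nonneg_left (pow_le_pow_right₀ hZR hij) rm.le
  have hle1 : ∀ i : ℕ, 1 / (m * (Z : ℝ) ^ i) ≤ 1 := by
    intro i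
    refine (hanti 0 i (Nat.zero_le _)).trans ?_
    rw [pow_zero, mul_one, div_le_one rm]
    exact hmR
  have hthnet : ∀ p : ℕ, ((Λ * Z ^ (p - 1) : ℕ) : ℝ) * (1 / (m * (Z : ℝ) ^ (p - 1)) / 2) =
      Λ / (2 * m) := by
    intro p
    push_cast
    field_simp
  have hpow : (2 : ℝ) ^ (-((Λ : ℝ) / (2 * m))) ≤ 1 / (m * (Z : ℝ) ^ (K - 2)) / 4 := by
    have e : (Λ : ℝ) / (2 * m) = ((z * (K - 2) + 2 + l : ℕ) : ℝ) := by
      rw [hΛ]
      push_cast
      field_simp
    rw [e, Real.rpow_neg (by norm_num), Real.rpow_natCast, pow_add, pow_add, pow_mul]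
    have e2 : ((2 : ℝ) ^ z) = Z := by rw [hZ]; push_cast; rfl
    rw [e2, div_div, one_div]
    refine inv_anti₀ (by positivity) ?_
    have h2 : (m : ℝ) ≤ 2 ^ l := by exact_mod_cast hl
    have h3 : (0 : ℝ) ≤ (Z : ℝ) ^ (K - 2) := by positivity
    nlinarith
  have hsum : ∀ (p : ℕ), 1 ≤ p → ∑ i ∈ Finset.range K,
      (if p < i then 1 / (m * (Z : ℝ) ^ (i - 1)) * ((2 * (Λ * Z ^ (i - p - 1)) : ℕ) : ℝ) else 0) ≤
        1 / (m * (Z : ℝ) ^ (p - 1)) / 2 := by
    intro p hp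
    have h2 : ∀ i ∈ Finset.range K, (if p < i then 1 / (m * (Z : ℝ) ^ (i - 1)) *
        ((2 * (Λ * Z ^ (i - p - 1)) : ℕ) : ℝ) else 0) ≤ 2 * Λ / (m * (Z : ℝ) ^ p) := by
      intro i _
      split_ifs with hi
      · have e : (Z : ℝ) ^ (i - 1) = Z ^ p * Z ^ (i - p - 1) := by
          rw [← pow_add]
          congr 1
          omega
        rw [e]
        push_cast
        apply le_of_eq
        field_simp
      · positivity
    refine (Finset.sum_le_card_nsmul _ _ _ h2).trans ?_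
    rw [Finset.card_range, nsmul_eq_mul]
    have e : (Z : ℝ) ^ p = Z ^ (p - 1) * Z := by
      rw [← pow_succ]
      congr 1
      omega
    rw [e]
    have h3 : (K : ℝ) * (2 * Λ / (m * (Z ^ (p - 1) * Z))) = (4 * K * Λ) / (2 * m * Z ^ (p - 1) * Z) := by
      field_simp
      norm_num
    rw [h3, div_div, div_le_div_iff₀ (by positivity) (by positivity)]
    have h4 : (0 : ℝ) ≤ m * (Z : ℝ) ^ (p - 1) * 2 := by positivity
    nlinarith [mul_le_mul_of_nonneg_right h1R h4]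
  obtain ⟨P, hP⟩ : ∃ P : SpK K (2 / (m : ℝ)), ∀ p, P.W.th p = Λ * Z ^ (p - 1) := by
    refine ⟨{
      W := {
        th := fun p => Λ * Z ^ (p - 1)
        a := fun i => if i = K then 0 else 1 / (m * (Z : ℝ) ^ (i - 1))
        D := fun _ => 0
        net := fun i => 1 / (m * (Z : ℝ) ^ (i - 1)) / 2
        one_le_th := ?_
        a_nonneg := ?_
        net_pos := ?_
        net_le := ?_
        kraft := ?_ }
      top := by simp
      hγ := by positivity
      η := 1 / (m * (Z : ℝ) ^ (K - 2)) / 2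
      κ := max 1 (Λ / (2 * m))
      η_pos := by positivity
      η_le_κ := ?_
      charge1 := ?_
      charge2 := ?_
      small := ?_ }, fun _ => rfl⟩
    · intro p
      exact Nat.mul_pos hΛ1 (Nat.pow_pos hZ1)
    · intro i
      split_ifs
      · exact le_rfl
      · exact (ha _).le
    · intro p _ _
      have := ha (p - 1)
      positivity
    · intro p hp hpK
      rw [if_neg (by omega), Finset.sum_range_succ]
      have e : ∀ i ∈ Finset.range K, (if p < i then (if i = K then 0 else 1 / (m * (Z : ℝ) ^ (i - 1))) *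
          (if i < K then ((2 * (Λ * Z ^ (i - p - 1)) : ℕ) : ℝ) else (((fun _ => 0 : ℕ → ℕ) p : ℕ) : ℝ))
            else 0) =
          (if p < i then 1 / (m * (Z : ℝ) ^ (i - 1)) * ((2 * (Λ * Z ^ (i - p - 1)) : ℕ) : ℝ) else 0) := by
        intro i hi
        rw [Finset.mem_range] at hi
        rw [if_neg (show ¬ i = K by omega), if_pos hi]
      rw [Finset.sum_congr rfl e]
      have := hsum p hp
      simp only [if_true, zero_mul, ite_self, add_zero]
      linarith
    · intro c p hp hpc hc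
      rw [hthnet p]
      have h2 : (2 : ℝ) ^ (-(1 / (m * (Z : ℝ) ^ (c - p - 1)) / 2)) ≤
          1 - 1 / (m * (Z : ℝ) ^ (c - p - 1)) / 2 / 2 := two_rpow_neg_le (by
          have := ha (c - p - 1); positivity) (by
          have := hle1 (c - p - 1); linarith)
      have h3 := hanti (c - p - 1) (K - 2) (by omega)
      linarith
    · refine le_trans ?_ (le_max_left _ _)
      have := hle1 (K - 2)
      linarith
    · intro p hp hpK
      constructor
      · have := hanti (p - 1) (K - 2) (by omega)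
        linarith
      · refine le_trans ?_ (le_max_left _ _)
        have := hle1 (p - 1)
        have := ha (p - 1)
        linarith
    · intro p hp hpK
      simp only
      rw [hthnet p]
      refine ⟨?_, le_max_right _ _⟩
      have h2 : (1 : ℝ) / 2 ≤ Λ / (2 * m) := by
        have e : (Λ : ℝ) / (2 * m) = ((z * (K - 2) + 2 + l : ℕ) : ℝ) := by
          rw [hΛ]
          push_cast
          field_simp
        rw [e]
        have : (1 : ℝ) ≤ ((z * (K - 2) + 2 + l : ℕ) : ℝ) := by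
          exact_mod_cast (by omega : 1 ≤ z * (K - 2) + 2 + l)
        linarith
      have := hle1 (K - 2)
      linarith
    · have h2 : ∀ i ∈ Finset.range K, (if i = K then 0 else 1 / (m * (Z : ℝ) ^ (i - 1))) *
          (if i = 0 then 0 else if i = 1 then (1 : ℝ) else ((2 * (Λ * Z ^ (i - 1 - 1)) : ℕ) : ℝ)) =
          (if i = 1 then 1 / (m : ℝ) else 0) +
          (if 1 < i then 1 / (m * (Z : ℝ) ^ (i - 1)) * ((2 * (Λ * Z ^ (i - 1 - 1)) : ℕ) : ℝ)
            else 0) := by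
        intro i hi
        rw [Finset.mem_range] at hi
        rw [if_neg (show ¬ i = K by omega)]
        rcases Nat.lt_or_ge 1 i with h | h
        · rw [if_neg (show ¬ i = 0 by omega), if_neg (show ¬ i = 1 by omega),
            if_neg (show ¬ i = 1 by omega), if_pos h]
          linarith
        · rw [if_neg (show ¬ 1 < i by omega)]
          have : i = 0 ∨ i = 1 := by omega
          rcases this with rfl | rfl
          · simp
          · simp
      refine (le_of_eq (Finset.sum_congr rfl h2)).trans ?_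
      rw [Finset.sum_add_distrib]
      have h3 := hsum 1 le_rfl
      have h4 : ∑ i ∈ Finset.range K, (if i = 1 then 1 / (m : ℝ) else 0) ≤ 1 / m := by
        rw [Finset.sum_ite_eq']
        split_ifs
        · exact le_rfl
        · positivity
      simp only [Nat.sub_self, pow_zero, mul_one] at h3
      have h5 : (0 : ℝ) < 1 / m := by positivity
      have h6 : (2 : ℝ) / m = 2 * (1 / m) := by ring
      rw [h6]
      linarith
  refine ⟨P, ?_⟩
  have e : P.Kc = ∑ i ∈ Finset.range (K + 1), (if i ≤ 1 then 1 else Λ * Z ^ (i - 1 - 1)) := by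
    unfold SpK.Kc
    refine Finset.sum_congr rfl fun i _ => ?_
    rw [hP]
  rw [e]
  have h8 : 8 * Λ ≤ Z := by nlinarith
  refine (geom_le hK hΛ1 h8).trans (le_of_eq ?_)
  rw [hZ, pow_mul]

end H40.SP
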