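import Pool.Agent.H40.SP.Ug
import Pool.Agent.H40.SP.Uh

/-!
# Row Ui: the number of clauses, as a function of `ε`

PROOF. `exists_spK3`: `exists_z`, `exists_spK2` give `P` with `P.Kc ≤ (2 ^ z) ^ (K - 1)` and
`2 ^ z ≤ 64 K^2 m (clog 2 (K m) + 2) ≤ K^2 m * 200 log (2 K m)` (`clog_le` with `N = K * m ≥ 2`, casts). Monotonicity of
the power.
`ceil_bounds`: `m = ⌈4/ε⌉₊`, `4/ε ≤ m < 4/ε + 1 ≤ 5/ε` (`Nat.le_ceil`, `Nat.ceil_lt_add_one`, `1 ≤ 1/ε`).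
`log_bound`: `x ≥ 4`: `log (5 x) = log 5 + log x ≤ (1 + 7/6) log x`, since `6 log 5 ≤ 7 log 4` (`5^6 = 15625 ≤ 16384 = 4^7`).
`exists_spK_eps`: `P` from `exists_spK3` with `m`; the real number `2 / m ≤ ε / 2`. Let `x = 2 K / ε ≥ 4`.
`2 K m ≤ 10 K / ε = 5 x`, so `log (2 K m) ≤ (13/6) log x`, and
`200 K^2 m log (2 K m) ≤ 200 K^2 (5/ε) (13/6) log x ≤ 2200 K^2 log x / ε`. (`m` is the natural number in the statement.)
-/

set_option autoImplicit false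

namespace H40.SP

open Pool.Agent.H14.ETH

theorem exists_spK3 (K m : ℕ) (hK : 2 ≤ K) (hm : 1 ≤ m) :
    ∃ P : SpK K (2 / (m : ℝ)), (P.Kc : ℝ) ≤ (200 * K ^ 2 * m * Real.log (2 * K * m)) ^ (K - 1) := by
  obtain ⟨z, l, hl, hz, hz2⟩ := exists_z K m hK hm
  obtain ⟨P, hP⟩ := exists_spK2 hK hm hl hz
  refine ⟨P, ?_⟩
  have hN : 2 ≤ K * m := by
    calc 2 = 2 * 1 := rfl
      _ ≤ K * m := Nat.mul_le_mul hK hm
  have h1 := clog_le hN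
  have h2 : ((2 : ℝ) ^ z) ≤ 64 * K ^ 2 * m * ((Nat.clog 2 (K * m) : ℝ) + 2) := by
    exact_mod_cast hz2
  have h3 : (2 : ℝ) * ((K * m : ℕ) : ℝ) = 2 * K * m := by
    push_cast
    ring
  rw [h3] at h1
  have h4 : ((2 : ℝ) ^ z) ≤ 200 * K ^ 2 * m * Real.log (2 * K * m) := by
    refine h2.trans ?_
    have h5 : (0 : ℝ) ≤ (K : ℝ) ^ 2 * m := by positivity
    have h6 := mul_le_mul_of_nonneg_left h1 h5
    linarith
  have h7 : (P.Kc : ℝ) ≤ ((2 : ℝ) ^ z) ^ (K - 1) := by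
    rw [← pow_mul]
    exact_mod_cast hP
  exact h7.trans (pow_le_pow_left₀ (by positivity) h4 _)

theorem ceil_bounds {ε : ℝ} (hε : 0 < ε) (hε1 : ε ≤ 1) :
    1 ≤ ⌈4 / ε⌉₊ ∧ 4 / ε ≤ (⌈4 / ε⌉₊ : ℝ) ∧ (⌈4 / ε⌉₊ : ℝ) ≤ 5 / ε := by
  have h1 : (1 : ℝ) ≤ 1 / ε := by
    rw [le_div_iff₀ hε]
    linarith
  have h4 : (4 : ℝ) / ε = 4 * (1 / ε) := by ring
  have h5 : (5 : ℝ) / ε = 5 * (1 / ε) := by ring
  have hle := Nat.le_ceil (4 / ε)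
  refine ⟨?_, hle, ?_⟩
  · have : (0 : ℝ) < (⌈4 / ε⌉₊ : ℝ) := by linarith
    have h6 : 0 < ⌈4 / ε⌉₊ := by exact_mod_cast this
    exact h6
  · have h7 := Nat.ceil_lt_add_one (a := 4 / ε) (by linarith)
    linarith

theorem log_bound {x : ℝ} (hx : 4 ≤ x) : Real.log (5 * x) ≤ 13 / 6 * Real.log x := by
  rw [Real.log_mul (by norm_num) (by linarith)]
  have h1 : 6 * Real.log 5 ≤ 7 * Real.log 4 := by
    have e1 : 6 * Real.log 5 = Real.log (5 ^ 6) := by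
      rw [Real.log_pow]
      norm_num
    have e2 : 7 * Real.log 4 = Real.log (4 ^ 7) := by
      rw [Real.log_pow]
      norm_num
    rw [e1, e2]
    exact Real.log_le_log (by norm_num) (by norm_num)
  have h2 : Real.log 4 ≤ Real.log x := Real.log_le_log (by norm_num) hx
  linarith

theorem exists_spK_eps {K : ℕ} {ε : ℝ} (hK : 2 ≤ K) (hε : 0 < ε) (hε1 : ε ≤ 1) :
    ∃ m : ℕ, 2 / (m : ℝ) ≤ ε / 2 ∧ ∃ P : SpK K (2 / (m : ℝ)),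
      (P.Kc : ℝ) ≤ (2200 * K ^ 2 * Real.log (2 * K / ε) / ε) ^ (K - 1) := by
  obtain ⟨hm1, hm4, hm5⟩ := ceil_bounds hε hε1
  refine ⟨⌈4 / ε⌉₊, ?_, ?_⟩
  · have h4 : (0 : ℝ) < 4 / ε := by positivity
    calc 2 / (⌈4 / ε⌉₊ : ℝ) ≤ 2 / (4 / ε) := div_le_div_of_nonneg_left (by norm_num) h4 hm4
      _ = ε / 2 := by
        field_simp
        norm_num
  obtain ⟨P, hP⟩ := exists_spK3 K ⌈4 / ε⌉₊ hK hm1
  refine ⟨P, hP.trans ?_⟩
  have hKR : (2 : ℝ) ≤ K := by exact_mod_cast hK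
  have hmR : (1 : ℝ) ≤ (⌈4 / ε⌉₊ : ℝ) := by exact_mod_cast hm1
  have hx : (4 : ℝ) ≤ 2 * K / ε := by
    rw [le_div_iff₀ hε]
    nlinarith
  have hl1 : Real.log (2 * K * (⌈4 / ε⌉₊ : ℝ)) ≤ 13 / 6 * Real.log (2 * K / ε) := by
    refine le_trans (Real.log_le_log (by positivity) ?_) (log_bound hx)
    have h1 := mul_le_mul_of_nonneg_left hm5 (show (0 : ℝ) ≤ 2 * K by positivity)
    refine h1.trans (le_of_eq ?_)
    ring
  have hl0 : 0 ≤ Real.log (2 * K * (⌈4 / ε⌉₊ : ℝ)) := by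
    apply Real.log_nonneg
    nlinarith
  have hl2 : 0 ≤ Real.log (2 * K / ε) := Real.log_nonneg (by linarith)
  apply pow_le_pow_left₀
  · positivity
  · calc 200 * (K : ℝ) ^ 2 * (⌈4 / ε⌉₊ : ℝ) * Real.log (2 * K * (⌈4 / ε⌉₊ : ℝ))
        ≤ 200 * (K : ℝ) ^ 2 * (5 / ε) * (13 / 6 * Real.log (2 * K / ε)) := by
          apply mul_le_mul _ hl1 hl0 (by positivity)
          exact mul_le_mul_of_nonneg_left hm5 (by positivity)
      _ = (6500 / 3) * ((K : ℝ) ^ 2 * Real.log (2 * K / ε) / ε) := by ring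
      _ ≤ 2200 * ((K : ℝ) ^ 2 * Real.log (2 * K / ε) / ε) :=
          mul_le_mul_of_nonneg_right (by norm_num) (by positivity)
      _ = 2200 * (K : ℝ) ^ 2 * Real.log (2 * K / ε) / ε := by ring

end H40.SP
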