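import Pool.Agent.H40.SP.Sd
import Pool.Agent.H40.SP.Ui

/-!
# Row Se: the exponents
-/

set_option autoImplicit false

namespace H40.SP

open Pool.Agent.H14.ETH

theorem satExp_le_of_three {r : ℕ} (hr : 1 ≤ r) {γ : ℝ} (P : SpK (r + 3) γ) :
    satExp (r + 3) ≤ satExp 3 * (1 + 2 ^ r * P.Kc) + γ := by
  have hK : (0 : ℝ) < 1 + 2 ^ r * P.Kc := by positivity
  have key : ∀ ε ∈ expSet 3, (satExp (r + 3) - γ) / (1 + 2 ^ r * P.Kc) ≤ ε := by
    rintro ε ⟨hε0, hε⟩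
    rw [div_le_iff₀ hK, sub_le_iff_le_add]
    refine le_of_forall_gt_imp_ge_of_dense fun ρ hρ => ?_
    have h0 : 0 ≤ ρ := by
      have e1 := P.hγ
      have e2 : 0 ≤ ε * (1 + 2 ^ r * P.Kc) := mul_nonneg hε0 hK.le
      linarith
    exact satExp_le h0 (Pool.Agent.H83.E14.of_three hr P hε0 hε hρ)
  have h1 : (satExp (r + 3) - γ) / (1 + 2 ^ r * P.Kc) ≤ satExp 3 := by
    rw [satExp_eq 3]
    exact le_csInf (Pool.Agent.H83.B13.set_nonempty 3) key
  rw [div_le_iff₀ hK] at h1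
  linarith

theorem exp_bound {k : ℕ} (hk : 3 ≤ k) (hs : 0 < satExp k) :
    (satExp k / (5000 * k ^ 2 * Real.log (2 * k / satExp k))) ^ k ≤ satExp 3 := by
  have hs1 : satExp k ≤ 1 := Pool.Agent.H83.B13.satExp_le_one k
  have hkR : (3 : ℝ) ≤ k := by exact_mod_cast hk
  have hx : 6 ≤ 2 * (k : ℝ) / satExp k := by
    rw [le_div_iff₀ hs]
    nlinarith
  have hlam : 1 ≤ Real.log (2 * (k : ℝ) / satExp k) := by
    rw [Real.le_log_iff_exp_le (by linarith)]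
    have := Real.exp_one_lt_d9
    linarith
  have hk2 : (9 : ℝ) ≤ (k : ℝ) ^ 2 := by nlinarith
  have hden : 1 ≤ 5000 * (k : ℝ) ^ 2 * Real.log (2 * k / satExp k) := by nlinarith
  have hq0 : 0 ≤ satExp k / (5000 * k ^ 2 * Real.log (2 * k / satExp k)) := by positivity
  have hqs : satExp k / (5000 * k ^ 2 * Real.log (2 * k / satExp k)) ≤ satExp k :=
    div_le_self hs.le hden
  rcases Nat.lt_or_ge 3 k with h3 | h3
  · obtain ⟨r, rfl⟩ : ∃ r, k = r + 3 := ⟨k - 3, by omega⟩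
    have hr : 1 ≤ r := by omega
    obtain ⟨m, hm, P, hP⟩ := exists_spK_eps (K := r + 3) (by omega) hs hs1
    have h1 := satExp_le_of_three hr P
    set s := satExp (r + 3) with hsdef
    set lam := Real.log (2 * ((r + 3 : ℕ) : ℝ) / s) with hlamdef
    set A : ℝ := 2200 * ((r + 3 : ℕ) : ℝ) ^ 2 * lam / s with hA
    have hA1 : 1 ≤ A := by
      rw [hA, le_div_iff₀ hs]
      nlinarith
    have e0 : r + 3 - 1 = r + 2 := by omega
    rw [e0] at hP
    have hpow1 : (1 : ℝ) ≤ 2 ^ r * A ^ (r + 2) :=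
      one_le_mul_of_one_le_of_one_le (one_le_pow₀ (by norm_num)) (one_le_pow₀ hA1)
    have h2 : 1 + 2 ^ r * (P.Kc : ℝ) ≤ 2 * (2 ^ r * A ^ (r + 2)) := by
      have : (2 : ℝ) ^ r * (P.Kc : ℝ) ≤ 2 ^ r * A ^ (r + 2) :=
        mul_le_mul_of_nonneg_left hP (by positivity)
      linarith
    have h3' : satExp 3 * (1 + 2 ^ r * (P.Kc : ℝ)) ≤ satExp 3 * (2 * (2 ^ r * A ^ (r + 2))) :=
      mul_le_mul_of_nonneg_left h2 (satExp_nonneg 3)
    have h4 : s ≤ satExp 3 * (2 * A) ^ (r + 2) := by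
      have e1 : satExp 3 * (2 * A) ^ (r + 2) = 2 * (satExp 3 * (2 * (2 ^ r * A ^ (r + 2)))) := by
        rw [mul_pow, pow_add 2 r 2]
        ring
      rw [e1]
      linarith
    have hq : s / (5000 * ((r + 3 : ℕ) : ℝ) ^ 2 * lam) ≤ 1 / (2 * A) := by
      rw [hA, div_le_div_iff₀ (by positivity) (by positivity), one_mul]
      have : s * (2 * (2200 * ((r + 3 : ℕ) : ℝ) ^ 2 * lam / s)) =
          4400 * (((r + 3 : ℕ) : ℝ) ^ 2 * lam) := by
        field_simp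
        ring
      rw [this]
      have : 0 ≤ ((r + 3 : ℕ) : ℝ) ^ 2 * lam := by positivity
      linarith
    calc (s / (5000 * ((r + 3 : ℕ) : ℝ) ^ 2 * lam)) ^ (r + 3)
        = (s / (5000 * ((r + 3 : ℕ) : ℝ) ^ 2 * lam)) ^ (r + 2) *
          (s / (5000 * ((r + 3 : ℕ) : ℝ) ^ 2 * lam)) := by rw [pow_succ]
      _ ≤ (1 / (2 * A)) ^ (r + 2) * s := by gcongr
      _ ≤ (1 / (2 * A)) ^ (r + 2) * (satExp 3 * (2 * A) ^ (r + 2)) :=
          mul_le_mul_of_nonneg_left h4 (by positivity)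
      _ = satExp 3 := by
          rw [one_div, inv_pow]
          have : (2 * A) ^ (r + 2) ≠ 0 := by positivity
          field_simp
  · obtain rfl : k = 3 := by omega
    calc (satExp 3 / (5000 * ((3 : ℕ) : ℝ) ^ 2 * Real.log (2 * ((3 : ℕ) : ℝ) / satExp 3))) ^ 3
        ≤ (satExp 3 / (5000 * ((3 : ℕ) : ℝ) ^ 2 * Real.log (2 * ((3 : ℕ) : ℝ) / satExp 3))) ^ 1 :=
          pow_le_pow_of_le_one hq0 (hqs.trans hs1) (by norm_num)
      _ ≤ satExp 3 := by rw [pow_one]; exact hqs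

end H40.SP
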