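import Pool.Agent.H40.SP.UDefs

/-!
# Row Ud: padding

PROOF. `card_pad`: `lit` is injective, so `(C.image lit).card = C.card`; `(dum n j).card = j` (injective); they
are disjoint, as the first components are `< n` resp. `≥ n`; `C.card ≤ k`.
`pad_subset`: elements of `C.image lit` have first component `< n`, those of `dum n (k - C.card)` have
`n + i < n + k`; `mem_lits`.
`satBy_padF`: dummies are positive literals with first component `≥ n`, where `ext a` is `false`, so they are
not satisfied; and `ext a ((l.1 : ℕ)) = a l.1`. So for a clause, `∃ l ∈ pad k C, ext a l.1 = l.2` iff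
`∃ l ∈ C, a l.1 = l.2`.
`sat_res`: let `G` be given. A clause of `G` with a literal `(i, false)`, `i ≥ n`, is satisfied by `ext a`. For
another clause `C`, all literals with first component `≥ n` are positive, hence not satisfied, so `C` is satisfied
by `ext a` iff some `l ∈ C` with `l.1 < n` is, i.e. iff `res1 n C` is satisfied by `a`.
`width_res`, `card_res_le`: `res1 n C` injects into `C` by `lit`; `Finset.card_image_le`, `Finset.card_filter_le`.
-/

set_option autoImplicit false

namespace H40.SP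

open Pool.Agent.H14.ETH

variable {n k : ℕ}

private theorem Ud_lit_inj : Function.Injective (lit (n := n)) := by
  rintro ⟨i, b⟩ ⟨j, c⟩ h
  unfold lit at h
  simp only [Prod.mk.injEq] at h
  exact Prod.ext (Fin.ext h.1) h.2

private theorem Ud_mem_dum {j : ℕ} {l : Lit} : l ∈ dum n j ↔ ∃ i, i < j ∧ (n + i, true) = l := by
  unfold dum
  rw [Finset.mem_image]
  simp only [Finset.mem_range]

private theorem Ud_mem_pad {C : Finset (Fin n × Bool)} {l : Lit} :
    l ∈ pad k C ↔ (∃ m ∈ C, lit m = l) ∨ ∃ i, i < k - C.card ∧ (n + i, true) = l := by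
  unfold pad
  rw [Finset.mem_union, Finset.mem_image, Ud_mem_dum]

private theorem Ud_ext_lt (a : Fin n → Bool) (i : Fin n) : ext a (i : ℕ) = a i := by
  unfold ext
  rw [dif_pos i.isLt]

private theorem Ud_ext_ge (a : Fin n → Bool) {i : ℕ} (h : ¬ i < n) : ext a i = false := by
  unfold ext
  rw [dif_neg h]

theorem card_pad {C : Finset (Fin n × Bool)} (h : C.card ≤ k) : (pad k C).card = k := by
  unfold pad
  rw [Finset.card_union_of_disjoint, Finset.card_image_of_injective _ Ud_lit_inj]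
  · unfold dum
    rw [Finset.card_image_of_injective, Finset.card_range]
    · omega
    · intro i j hij
      simp only [Prod.mk.injEq] at hij
      omega
  · rw [Finset.disjoint_left]
    intro l h1 h2
    rw [Finset.mem_image] at h1
    rw [Ud_mem_dum] at h2
    obtain ⟨m, -, rfl⟩ := h1
    obtain ⟨i, -, hi⟩ := h2
    have h3 := congrArg Prod.fst hi
    have h4 : n + i = (m.1 : ℕ) := h3
    have h5 := m.1.isLt
    omega

theorem pad_subset (C : Finset (Fin n × Bool)) : pad k C ⊆ lits (n + k) := by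
  intro l hl
  rw [Ud_mem_pad] at hl
  rw [mem_lits]
  rcases hl with ⟨m, -, rfl⟩ | ⟨i, hi, rfl⟩
  · have h5 := m.1.isLt
    have h6 : (lit m).1 = (m.1 : ℕ) := rfl
    omega
  · have h6 : ((n + i, true) : Lit).1 = n + i := rfl
    omega

private theorem Ud_pad_sat (C : Finset (Fin n × Bool)) (a : Fin n → Bool) :
    (∃ l ∈ pad k C, ext a l.1 = l.2) ↔ ∃ l ∈ C, a l.1 = l.2 := by
  constructor
  · rintro ⟨l, hl, h⟩
    rw [Ud_mem_pad] at hl
    rcases hl with ⟨m, hm, rfl⟩ | ⟨i, hi, rfl⟩
    · refine ⟨m, hm, ?_⟩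
      exact (Ud_ext_lt a m.1).symm.trans h
    · have h2 : ext a (n + i) = true := h
      rw [Ud_ext_ge a (by omega)] at h2
      exact absurd h2 (by decide)
  · rintro ⟨m, hm, h⟩
    refine ⟨lit m, Ud_mem_pad.2 (Or.inl ⟨m, hm, rfl⟩), ?_⟩
    have h2 : ext a (lit m).1 = a m.1 := Ud_ext_lt a m.1
    rw [h2]
    exact h

theorem satBy_padF (F : Fml (Fin n)) (a : Fin n → Bool) : satBy (ext a) (padF k F) ↔ Sat F a := by
  unfold satBy padF Sat
  constructor
  · intro h C hC
    exact (Ud_pad_sat (k := k) C a).1 (h (pad k C) (Finset.mem_image_of_mem _ hC))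
  · intro h D hD
    rw [Finset.mem_image] at hD
    obtain ⟨C, hC, rfl⟩ := hD
    exact (Ud_pad_sat (k := k) C a).2 (h C hC)

private theorem Ud_mem_res1 {C : Finset Lit} {l : Fin n × Bool} : l ∈ res1 n C ↔ lit l ∈ C := by
  unfold res1
  rw [Finset.mem_filter]
  exact ⟨fun h => h.2, fun h => ⟨Finset.mem_univ _, h⟩⟩

private theorem Ud_mem_res {G : Fam} {D : Finset (Fin n × Bool)} : D ∈ res n G ↔
    ∃ C, C ∈ G ∧ (∀ l ∈ C, n ≤ l.1 → l.2 = true) ∧ res1 n C = D := by
  unfold res
  rw [Finset.mem_image]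
  constructor
  · rintro ⟨C, hC, h⟩
    rw [Finset.mem_filter] at hC
    exact ⟨C, hC.1, hC.2, h⟩
  · rintro ⟨C, h1, h2, h3⟩
    exact ⟨C, Finset.mem_filter.2 ⟨h1, h2⟩, h3⟩

theorem sat_res (G : Fam) (a : Fin n → Bool) : Sat (res n G) a ↔ satBy (ext a) G := by
  unfold Sat satBy
  constructor
  · intro h C hC
    by_cases hn : ∀ l ∈ C, n ≤ l.1 → l.2 = true
    · obtain ⟨l, hl, h2⟩ := h (res1 n C) (Ud_mem_res.2 ⟨C, hC, hn, rfl⟩)
      refine ⟨lit l, Ud_mem_res1.1 hl, ?_⟩
      have h3 : ext a (lit l).1 = a l.1 := Ud_ext_lt a l.1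
      rw [h3]
      exact h2
    · push Not at hn
      obtain ⟨l, hl, h1, h2⟩ := hn
      refine ⟨l, hl, ?_⟩
      rw [Ud_ext_ge a (by omega)]
      cases h3 : l.2
      · rfl
      · exact absurd h3 h2
  · intro h D hD
    rw [Ud_mem_res] at hD
    obtain ⟨C, hC, hn, rfl⟩ := hD
    obtain ⟨l, hl, h2⟩ := h C hC
    by_cases h3 : l.1 < n
    · refine ⟨(⟨l.1, h3⟩, l.2), Ud_mem_res1.2 hl, ?_⟩
      have h4 := Ud_ext_lt a ⟨l.1, h3⟩
      exact h4.symm.trans h2
    · rw [Ud_ext_ge a h3, hn l hl (by omega)] at h2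
      exact absurd h2 (by decide)

theorem width_res {G : Fam} (h : ∀ C ∈ G, C.card ≤ k) : Width k (res n G) := by
  intro D hD
  rw [Ud_mem_res] at hD
  obtain ⟨C, hC, -, rfl⟩ := hD
  refine le_trans (Finset.card_le_card_of_injOn lit ?_ ?_) (h C hC)
  · intro l hl
    exact Finset.mem_coe.2 (Ud_mem_res1.1 (Finset.mem_coe.1 hl))
  · exact fun a _ b _ hab => Ud_lit_inj hab

theorem card_res_le (G : Fam) : (res n G).card ≤ G.card := by
  unfold res
  exact Finset.card_image_le.trans (Finset.card_filter_le _ _)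

end H40.SP
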