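import Pool.Agent.H40.SP.Ub
import Pool.Agent.H40.SP.Ud

/-!
# Row Uf: sparsification

PROOF. `inv_padF`: all clauses of `padF K F` have exactly `K` literals (`card_pad`), so `Anti` is
`anti_of_card` and the degree bounds are `degInv_of_card` (both in `Pool.Agent.H83.E14`,
file `Pool/Agent/H14/Init.lean`), `Over (n + K)` is `pad_subset`, `degk` is `Or.inl P.top`.
`not_dead_padF`: a unit clause has `1 ≠ K` literals.
`sparse_of_spK`: `𝒞 = padF K F`. `exists_leaves P (inv_padF ..) (not_dead_padF ..)` gives `𝒢`. Take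
`𝒢.image (res n)`. Number: `P.pot 0 (n + K) 𝒞 = P.κ + (0 + γ) * (n + K) - wgt P.W.a 𝒞 ≤ P.κ + γ (n + K)`
(`wgt ≥ 0` since `P.W.a_nonneg`). Widths `width_res`, numbers `card_res_le`. Semantics:
`Sat F a ↔ satBy (ext a) (padF K F) ↔ ∃ G ∈ 𝒢, satBy (ext a) G ↔ ∃ G ∈ 𝒢, Sat (res n G) a`.
-/

set_option autoImplicit false

namespace H40.SP

open Pool.Agent.H14.ETH

variable {n K : ℕ} {γ : ℝ}

theorem Uf_card {F : Fml (Fin n)} (hF : Width K F) : ∀ C ∈ padF K F, C.card = K := by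
  intro C hC
  unfold padF at hC
  rw [Finset.mem_image] at hC
  obtain ⟨D, hD, rfl⟩ := hC
  exact card_pad (hF D hD)

theorem inv_padF (P : SpK K γ) (hK : 2 ≤ K) {F : Fml (Fin n)} (hF : Width K F) :
    P.W.Inv (n + K) (padF K F) := by
  have hc := Uf_card hF
  refine ⟨?_, anti_of_card hc, fun C hC => ⟨by rw [hc C hC]; omega, (hc C hC).le⟩, degInv_of_card hc _,
    Or.inl P.top⟩
  intro C hC
  unfold padF at hC
  rw [Finset.mem_image] at hC
  obtain ⟨D, hD, rfl⟩ := hC
  exact pad_subset D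

theorem not_dead_padF (hK : 2 ≤ K) {F : Fml (Fin n)} (hF : Width K F) : ¬ Dead (padF K F) := by
  rintro ⟨x, b, h1, _⟩
  have := Uf_card hF _ h1
  rw [Finset.card_singleton] at this
  omega

theorem sparse_of_spK (P : SpK K γ) (hK : 2 ≤ K) {F : Fml (Fin n)} (hF : Width K F) :
    Sparse F K ((2 : ℝ) ^ (P.κ + γ * (n + K))) (P.Kc * (n + K)) := by
  classical
  obtain ⟨𝒢, hcard, hprop, hsat⟩ := exists_leaves P (inv_padF P hK hF) (not_dead_padF hK hF)
  refine ⟨𝒢.image (res n), ?_, ?_, ?_⟩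
  · have h1 : ((𝒢.image (res n)).card : ℝ) ≤ (𝒢.card : ℝ) := by exact_mod_cast Finset.card_image_le
    refine h1.trans (hcard.trans ?_)
    apply Real.rpow_le_rpow_of_exponent_le (by norm_num)
    unfold SpK.pot
    have h2 : 0 ≤ wgt P.W.a (padF K F) := Finset.sum_nonneg fun C _ => P.W.a_nonneg _
    push_cast
    linarith
  · intro G hG
    rw [Finset.mem_image] at hG
    obtain ⟨G', hG', rfl⟩ := hG
    obtain ⟨h1, h2⟩ := hprop G' hG'
    refine ⟨width_res h1, ?_⟩
    have h3 := (card_res_le (n := n) G').trans h2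
    exact_mod_cast h3
  · intro a
    rw [← satBy_padF (k := K), hsat (ext a)]
    constructor
    · rintro ⟨G, hG, h⟩
      exact ⟨res n G, Finset.mem_image_of_mem _ hG, (sat_res G a).2 h⟩
    · rintro ⟨G', hG', h⟩
      rw [Finset.mem_image] at hG'
      obtain ⟨G, hG, rfl⟩ := hG'
      exact ⟨G, hG, (sat_res G a).1 h⟩

end H40.SP
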