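import Pool.Agent.H40.SP.Ui
import Pool.Agent.H40.SP.Uf

/-!
# Row Uj: the upper bound

PROOF. `m`, `P` from `exists_spK_eps`, `γ = 2 / m ≤ ε / 2`. `n₀ = ⌈2 P.κ / ε⌉₊ + k`. For `n ≥ n₀` and `F` of width `k`,
`sparse_of_spK P hk hF : Sparse F k (2 ^ (κ + γ (n + k))) (Kc (n + k))`, and `Sparse.mono` (also in this row: increase the
two bounds):
* `κ + γ (n + k) ≤ κ + (ε / 2)(n + k) ≤ ε n`, because `κ + ε k / 2 ≤ ε n / 2`, i.e. `2 κ / ε + k ≤ n`.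
* `Kc (n + k) ≤ 2 Kc n` (`k ≤ n`), and `2 ≤ 2 ^ (k - 1)`, so
  `2 Kc ≤ (4400 k^2 log (2 k / ε) / ε) ^ (k - 1) ≤ (5000 k^2 log (2 k / ε) / ε) ^ (k - 1)` (`log (2 k / ε) ≥ 0`).
-/

/-!
Row Uj: the upper bound.
-/

set_option autoImplicit false

namespace H40.SP

theorem Sparse.mono {V : Type} {F : Fml V} {w : ℕ} {m L m' L' : ℝ} (h : Sparse F w m L)
    (hm : m ≤ m') (hL : L ≤ L') : Sparse F w m' L' := by
  obtain ⟨𝒢, h1, h2, h3⟩ := h
  exact ⟨𝒢, h1.trans hm, fun G hG => ⟨(h2 G hG).1, (h2 G hG).2.trans hL⟩, h3⟩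

theorem upper {k : ℕ} {ε : ℝ} (hk : 2 ≤ k) (hε : 0 < ε) (hε1 : ε ≤ 1) :
    ∃ n₀ : ℕ, ∀ n ≥ n₀, ∀ F : Fml (Fin n), Width k F →
      Sparse F k ((2 : ℝ) ^ (ε * n)) ((5000 * k ^ 2 * Real.log (2 * k / ε) / ε) ^ (k - 1) * n) := by
  obtain ⟨m, hγ, P, hP⟩ := exists_spK_eps hk hε hε1
  have hκ : 0 ≤ P.κ := P.η_pos.le.trans P.η_le_κ
  refine ⟨⌈2 * P.κ / ε⌉₊ + k, fun n hn F hF => ?_⟩
  have hn1 : 2 * P.κ / ε + k ≤ n := by
    have h1 := Nat.le_ceil (2 * P.κ / ε)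
    have h2 : ((⌈2 * P.κ / ε⌉₊ + k : ℕ) : ℝ) ≤ n := by exact_mod_cast hn
    push_cast at h2
    linarith
  have hn2 : 2 * P.κ + ε * k ≤ ε * n := by
    have h3 := mul_le_mul_of_nonneg_left hn1 hε.le
    have h4 : ε * (2 * P.κ / ε) = 2 * P.κ := by field_simp
    rw [mul_add, h4] at h3
    exact h3
  have hkn : (k : ℝ) ≤ n := by
    have h5 : 0 ≤ 2 * P.κ / ε := by positivity
    linarith
  have hn0 : (0 : ℝ) ≤ n := Nat.cast_nonneg n
  have hk0 : (0 : ℝ) ≤ k := Nat.cast_nonneg k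
  refine (sparse_of_spK P hk hF).mono ?_ ?_
  · apply Real.rpow_le_rpow_of_exponent_le one_le_two
    have h6 : 2 / (m : ℝ) * (n + k) ≤ ε / 2 * (n + k) :=
      mul_le_mul_of_nonneg_right hγ (by positivity)
    nlinarith
  · have hk2 : (2 : ℝ) ≤ k := by exact_mod_cast hk
    have hL : 0 ≤ Real.log (2 * k / ε) := by
      apply Real.log_nonneg
      rw [le_div_iff₀ hε]
      linarith
    generalize Real.log (2 * k / ε) = L at hL hP ⊢
    have h7 : 0 ≤ 2200 * (k : ℝ) ^ 2 * L / ε := by positivity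
    have h8 : (2 : ℝ) ≤ 2 ^ (k - 1) := by
      calc (2 : ℝ) = 2 ^ 1 := (pow_one _).symm
        _ ≤ 2 ^ (k - 1) := pow_le_pow_right₀ one_le_two (by omega)
    calc (P.Kc : ℝ) * (n + k) ≤ (2200 * (k : ℝ) ^ 2 * L / ε) ^ (k - 1) * (2 * n) :=
          mul_le_mul hP (by linarith) (by positivity) (by positivity)
      _ = (2 * (2200 * (k : ℝ) ^ 2 * L / ε) ^ (k - 1)) * n := by ring
      _ ≤ (2 ^ (k - 1) * (2200 * (k : ℝ) ^ 2 * L / ε) ^ (k - 1)) * n := by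
          exact mul_le_mul_of_nonneg_right
            (mul_le_mul_of_nonneg_right h8 (by positivity)) hn0
      _ = (2 * (2200 * (k : ℝ) ^ 2 * L / ε)) ^ (k - 1) * n := by rw [mul_pow]
      _ ≤ (5000 * (k : ℝ) ^ 2 * L / ε) ^ (k - 1) * n := by
          refine mul_le_mul_of_nonneg_right (pow_le_pow_left₀ (by positivity) ?_ _) hn0
          have h9 : 0 ≤ (k : ℝ) ^ 2 * L / ε := by positivity
          have e1 : 2 * (2200 * (k : ℝ) ^ 2 * L / ε) = 4400 * ((k : ℝ) ^ 2 * L / ε) := by ring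
          have e2 : 5000 * (k : ℝ) ^ 2 * L / ε = 5000 * ((k : ℝ) ^ 2 * L / ε) := by ring
          rw [e1, e2]
          linarith

end H40.SP
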