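import Mathlib

/-!
# Row Lg: the product lemma (Mathlib only)

PROOF. `sum_update`: the map `(σ, ω) ↦ (Function.update σ t ω, σ t)` is an involution of
`(ι → Ω) × Ω`, so `∑ (σ, ω), f (update σ t ω) = ∑ (σ', ω'), f σ' = card Ω * ∑ σ, f σ`
(`Equiv.sum_comp` or `Finset.sum_nbij'`).
`prod_lemma`: induction on `T` (`Finset.induction_on`), the statement being generalised over nothing
else (the hypotheses for `insert t T` imply those for `T`). Step: let `t ∉ T`, put
`f σ = ∏ s ∈ T, h s σ`, so that the product over `insert t T` is `h t σ * f σ`, and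
`f (update σ t ω) = f σ` (`hind` with the roles `s := t`, `t := s`). If `Ω` is empty then `ι → Ω` is empty
(`t : ι`) and the sum is `0`. Otherwise
`card Ω * ∑ σ, h t σ * f σ = ∑ σ, ∑ ω, h t (update σ t ω) * f σ ≤ ∑ σ, card Ω * f σ`, and divide by
`card Ω > 0`; then use the induction hypothesis.
-/

set_option autoImplicit false

namespace H40.SP

theorem sum_update {ι Ω : Type} [Fintype ι] [DecidableEq ι] [Fintype Ω] (t : ι)
    (f : (ι → Ω) → ℝ) :
    ∑ σ : ι → Ω, ∑ ω : Ω, f (Function.update σ t ω) = (Fintype.card Ω : ℝ) * ∑ σ : ι → Ω, f σ := by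
  have h1 : ∑ p : (ι → Ω) × Ω, f (Function.update p.1 t p.2) = ∑ p : (ι → Ω) × Ω, f p.1 := by
    refine Finset.sum_nbij' (fun p => (Function.update p.1 t p.2, p.1 t))
      (fun p => (Function.update p.1 t p.2, p.1 t)) ?_ ?_ ?_ ?_ ?_
    · intro a _
      exact Finset.mem_univ _
    · intro a _
      exact Finset.mem_univ _
    · rintro ⟨σ, ω⟩ _
      simp
    · rintro ⟨σ, ω⟩ _
      simp
    · intro a _
      rfl
  rw [Fintype.sum_prod_type, Fintype.sum_prod_type] at h1
  rw [h1, Finset.mul_sum]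
  refine Finset.sum_congr rfl fun σ _ => ?_
  simp

theorem prod_lemma {ι Ω : Type} [Fintype ι] [DecidableEq ι] [Fintype Ω] (T : Finset ι)
    (h : ι → (ι → Ω) → ℝ) (h0 : ∀ t σ, 0 ≤ h t σ)
    (hind : ∀ s ∈ T, ∀ t ∈ T, s ≠ t → ∀ σ ω, h t (Function.update σ s ω) = h t σ)
    (hsum : ∀ t ∈ T, ∀ σ, ∑ ω : Ω, h t (Function.update σ t ω) ≤ (Fintype.card Ω : ℝ)) :
    ∑ σ : ι → Ω, ∏ t ∈ T, h t σ ≤ (Fintype.card (ι → Ω) : ℝ) := by
  induction T using Finset.induction_on with
  | empty => simp
  | insert t T ht ih =>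
    have ih' := ih (fun s hs t' ht' => hind s (Finset.mem_insert_of_mem hs) t'
      (Finset.mem_insert_of_mem ht')) (fun s hs => hsum s (Finset.mem_insert_of_mem hs))
    rcases isEmpty_or_nonempty Ω with hΩ | hΩ
    · have h3 : IsEmpty (ι → Ω) := ⟨fun σ => hΩ.false (σ t)⟩
      rw [Finset.univ_eq_empty, Finset.sum_empty]
      positivity
    · have hc : (0 : ℝ) < Fintype.card Ω := by exact_mod_cast Fintype.card_pos
      refine le_trans ?_ ih'
      refine le_of_mul_le_mul_left ?_ hc
      rw [← sum_update t, Finset.mul_sum]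
      refine Finset.sum_le_sum fun σ _ => ?_
      have e : ∀ ω, ∏ s ∈ insert t T, h s (Function.update σ t ω) =
          h t (Function.update σ t ω) * ∏ s ∈ T, h s σ := by
        intro ω
        rw [Finset.prod_insert ht]
        congr 1
        refine Finset.prod_congr rfl fun s hs => ?_
        refine hind t (Finset.mem_insert_self t T) s (Finset.mem_insert_of_mem hs) ?_ σ ω
        rintro rfl
        exact ht hs
      simp only [e]
      rw [← Finset.sum_mul]
      exact mul_le_mul_of_nonneg_right (hsum t (Finset.mem_insert_self t T) σ)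
        (Finset.prod_nonneg fun s _ => h0 s σ)

end H40.SP
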