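import Mathlib

/-!
# Row Lh: Jensen for the logarithm (Mathlib only)

PROOF. `sum_log_le`: by concavity of `log` on `Set.Ioi 0` (`strictConcaveOn_log_Ioi.concaveOn`,
`ConcaveOn.le_map_sum` with weights `1 / card A`), `(∑ log W)/card ≤ log ((∑ W)/card) ≤ log (X/card)`
(`Real.log_le_log`, `0 < (∑ W)/card`). (Or: `log y ≤ log c + (y - c)/c` for `c = (∑ W) / card`,
from `Real.log_le_sub_one_of_pos`, summed over `A`.)
`mul_log_two_le`: concavity of `log` between `1` and `2`, or `2 ^ y ≤ 1 + y` for `0 ≤ y ≤ 1`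
(`Real.rpow_one_add_le_one_add_mul_self` : `(1 + s)^p ≤ 1 + p * s` for `-1 ≤ s`, `0 ≤ p ≤ 1`, with `s = 1`),
then take logarithms.
-/

set_option autoImplicit false

namespace H40.SP

theorem sum_log_le {α : Type} (A : Finset α) (hA : A.Nonempty) (W : α → ℝ)
    (hW : ∀ a ∈ A, 0 < W a) {X : ℝ} (hX : ∑ a ∈ A, W a ≤ X) :
    ∑ a ∈ A, Real.log (W a) ≤ A.card * Real.log (X / A.card) := by
  have hcard : (0 : ℝ) < A.card := by
    exact_mod_cast Finset.card_pos.2 hA
  have hS : 0 < ∑ a ∈ A, W a := Finset.sum_pos hW hA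
  have hX0 : 0 < X := lt_of_lt_of_le hS hX
  have hc : 0 < X / A.card := div_pos hX0 hcard
  have h1 : ∀ a ∈ A, Real.log (W a) ≤ Real.log (X / A.card) + (W a / (X / A.card) - 1) := by
    intro a ha
    have h2 : 0 < W a / (X / A.card) := div_pos (hW a ha) hc
    have h3 := Real.log_le_sub_one_of_pos h2
    rw [Real.log_div (hW a ha).ne' hc.ne'] at h3
    linarith
  have h4 := Finset.sum_le_sum h1
  rw [Finset.sum_add_distrib, Finset.sum_const, Finset.sum_sub_distrib, Finset.sum_const,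
    ← Finset.sum_div, nsmul_eq_mul, nsmul_eq_mul, mul_one] at h4
  have h5 : (∑ a ∈ A, W a) / (X / A.card) ≤ A.card := by
    rw [div_le_iff₀ hc]
    have h6 : (A.card : ℝ) * (X / A.card) = X := by
      field_simp
    rw [h6]
    exact hX
  linarith

theorem mul_log_two_le {y : ℝ} (h0 : 0 ≤ y) (h1 : y ≤ 1) :
    y * Real.log 2 ≤ Real.log (1 + y) := by
  have h2 := rpow_one_add_le_one_add_mul_self (s := 1) (by norm_num) h0 h1
  rw [mul_one] at h2
  have h3 : (1 + 1 : ℝ) = 2 := by norm_num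
  rw [h3] at h2
  have h4 : (0 : ℝ) < 2 ^ y := Real.rpow_pos_of_pos (by norm_num) y
  have h5 := Real.log_le_log h4 h2
  rw [Real.log_rpow (by norm_num)] at h5
  exact h5

end H40.SP
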