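import Mathlib

/-!
# The sparsification lemma: definitions

CNF formulas as finite sets of clauses, sparsification, the hard formulas and their almost violated
assignments (states).
-/

set_option autoImplicit false

namespace H40.SP

/-- A CNF formula over the set `V` of variables: a finite set of clauses, each clause being a finite
set of literals `(v, b)` (the variable `v` for `b = true`, its negation for `b = false`). -/
abbrev Fml (V : Type) : Type := Finset (Finset (V × Bool))

/-- The assignment `a` satisfies `F`. -/
def Sat {V : Type} (F : Fml V) (a : V → Bool) : Prop := ∀ C ∈ F, ∃ l ∈ C, a l.1 = l.2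

/-- All clauses of `F` have at most `w` literals. -/
def Width {V : Type} (w : ℕ) (F : Fml V) : Prop := ∀ C ∈ F, C.card ≤ w

/-- `F` is an OR of at most `m` CNFs of width at most `w`, each of them with at most `L` clauses. -/
def Sparse {V : Type} (F : Fml V) (w : ℕ) (m L : ℝ) : Prop :=
  ∃ 𝒢 : Finset (Fml V), (𝒢.card : ℝ) ≤ m ∧ (∀ G ∈ 𝒢, Width w G ∧ (G.card : ℝ) ≤ L) ∧
    ∀ a : V → Bool, Sat F a ↔ ∃ G ∈ 𝒢, Sat G a

/-! ### The hard formulas -/

/-- States of a block: a part `j < k` and a transversal `u`, which picks one of the `b` variables in
each of the `k` parts. -/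
abbrev Blk (k b : ℕ) : Type := Fin k × (Fin k → Fin b)

/-- States: a state for each of the `B` blocks. -/
abbrev St (B k b : ℕ) : Type := Fin B → Blk k b

variable {V : Type} {B k b : ℕ}

/-- The clause which forbids the transversal `u` of block `t`. -/
def hcl [DecidableEq V] (x : Fin B → Fin k → Fin b → V) (t : Fin B) (u : Fin k → Fin b) :
    Finset (V × Bool) :=
  Finset.univ.image (fun q => (x t q (u q), false))

/-- The hard formula: no block contains a transversal all of whose variables are true. -/
def hard [DecidableEq V] (x : Fin B → Fin k → Fin b → V) : Fml V :=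
  Finset.univ.image (fun p : Fin B × (Fin k → Fin b) => hcl x p.1 p.2)

/-- The variables are different. -/
def Inj (x : Fin B → Fin k → Fin b → V) : Prop :=
  ∀ t q i t' q' i', x t q i = x t' q' i' → t = t' ∧ q = q' ∧ i = i'

open Classical in
/-- The assignment of a state: in block `t`, with state `(j, u)`, the true variables are `u q` in
the parts `q ≠ j`; all other variables are false. -/
noncomputable def asg (x : Fin B → Fin k → Fin b → V) (σ : St B k b) (v : V) : Bool :=
  decide (∃ t q, q ≠ (σ t).1 ∧ v = x t q ((σ t).2 q))

/-- The missing variable of block `t`. -/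
def mis (x : Fin B → Fin k → Fin b → V) (σ : St B k b) (t : Fin B) : V := x t (σ t).1 ((σ t).2 (σ t).1)

open Classical in
/-- The assignment of a state after making the missing variable of block `t` true. -/
noncomputable def flip (x : Fin B → Fin k → Fin b → V) (σ : St B k b) (t : Fin B) : V → Bool :=
  Function.update (asg x σ) (mis x σ t) true

/-- The clause `C` is violated by `a`. -/
def Viol (C : Finset (V × Bool)) (a : V → Bool) : Prop := ∀ l ∈ C, a l.1 ≠ l.2

/-- The clause `C` touches block `t`. -/
def Touch (x : Fin B → Fin k → Fin b → V) (C : Finset (V × Bool)) (t : Fin B) : Prop :=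
  ∃ l ∈ C, ∃ q i, l.1 = x t q i

/-- Block `t` is honest: some clause violated after the flip contains all the negated variables of the
transversal. -/
def Honest (x : Fin B → Fin k → Fin b → V) (G : Fml V) (σ : St B k b) (t : Fin B) : Prop :=
  ∃ C ∈ G, Viol C (flip x σ t) ∧ ∀ q, (x t q ((σ t).2 q), false) ∈ C

open Classical in
/-- The states whose assignment satisfies `G`. -/
noncomputable def good (x : Fin B → Fin k → Fin b → V) (G : Fml V) : Finset (St B k b) :=
  Finset.univ.filter (fun σ => Sat G (asg x σ))

open Classical in
/-- The states `ω` of block `t` such that all clauses of `G` which touch no block of `T` other than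
`t` are satisfied when block `t` is replaced by `ω`. -/
noncomputable def loc (x : Fin B → Fin k → Fin b → V) (G : Fml V) (T : Finset (Fin B))
    (σ : St B k b) (t : Fin B) : Finset (Blk k b) :=
  Finset.univ.filter (fun ω => ∀ C ∈ G, (∀ s ∈ T, s ≠ t → ¬ Touch x C s) →
    ∃ l ∈ C, asg x (Function.update σ t ω) l.1 = l.2)

/-- For a set `S` of states of a block: the number of neighbours of `ω` outside `S`. -/
def nb (S : Finset (Blk k b)) (ω : Blk k b) : ℕ :=
  (Finset.univ.filter (fun p : Fin k => p ≠ ω.1 ∧ (p, ω.2) ∉ S)).card

/-- The transversals which are served by a clause of `G`. -/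
def Srv (x : Fin B → Fin k → Fin b → V) (C : Finset (V × Bool)) (t : Fin B) (u : Fin k → Fin b) :
    Prop :=
  (∀ q, (x t q (u q), false) ∈ C) ∧ (∀ q i, (x t q i, false) ∈ C → i = u q) ∧
    ∀ s, s ≠ t → ∃ q, ∀ i, (x s q i, false) ∉ C

open Classical in
/-- The set `P` of the pairs `(t, u)` served by some clause of `G`. -/
noncomputable def srv (x : Fin B → Fin k → Fin b → V) (G : Fml V) :
    Finset (Fin B × (Fin k → Fin b)) :=
  Finset.univ.filter (fun p => ∃ C ∈ G, Srv x C p.1 p.2)

end H40.SP
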