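import Pool.Agent.H40.SP.Lq
import Pool.Agent.H40.SP.Uj
import Pool.Agent.H40.SP.Se

/-!
# Row Fin: the theorem

PROOF. `C = 5000`: `upper`, `lower` (monotone: `1024 ≤ 5000`, `Sparse.mono`), `exp_bound`.
-/

set_option autoImplicit false

namespace H40.SP

open Pool.Agent.H14.ETH

theorem main : ∃ C : ℝ, 0 < C ∧
    (∀ (k : ℕ) (ε : ℝ), 2 ≤ k → 0 < ε → ε ≤ 1 → ∃ n₀ : ℕ, ∀ n ≥ n₀, ∀ F : Fml (Fin n), Width k F →
      Sparse F k ((2 : ℝ) ^ (ε * n)) ((C * k ^ 2 * Real.log (2 * k / ε) / ε) ^ (k - 1) * n)) ∧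
    (∀ (k w : ℕ) (ε : ℝ), 2 ≤ k → k ≤ w → 0 < ε → C * w * k ^ 2 * ε ≤ 1 →
      ∃ n₀ : ℕ, ∀ n ≥ n₀, ∃ F : Fml (Fin n), Width k F ∧
        ¬ Sparse F w ((2 : ℝ) ^ (ε * n)) ((1 / (C * w * k ^ 2 * ε)) ^ (k - 1) * n)) ∧
    (∀ k : ℕ, 3 ≤ k → 0 < satExp k →
      (satExp k / (C * k ^ 2 * Real.log (2 * k / satExp k))) ^ k ≤ satExp 3) := by
  refine ⟨5000, by norm_num, fun k ε hk hε hε1 => upper hk hε hε1, ?_, fun k hk hs => exp_bound hk hs⟩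
  intro k w ε hk hkw hε h
  have hkR : (2 : ℝ) ≤ k := by exact_mod_cast hk
  have hwR : (2 : ℝ) ≤ w := by exact_mod_cast (hk.trans hkw)
  have hp : (0 : ℝ) < w * k ^ 2 * ε := by positivity
  have e1 : (1024 : ℝ) * w * k ^ 2 * ε = 1024 * (w * k ^ 2 * ε) := by ring
  have e2 : (5000 : ℝ) * w * k ^ 2 * ε = 5000 * (w * k ^ 2 * ε) := by ring
  obtain ⟨n₀, hn₀⟩ := lower hk hkw hε (by rw [e2] at h; rw [e1]; linarith)
  refine ⟨n₀, fun n hn => ?_⟩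
  obtain ⟨F, hF, hS⟩ := hn₀ n hn
  refine ⟨F, hF, fun hS' => hS (hS'.mono le_rfl ?_)⟩
  refine mul_le_mul_of_nonneg_right (pow_le_pow_left₀ (by positivity) ?_ _) (Nat.cast_nonneg n)
  rw [e1, e2]
  exact one_div_le_one_div_of_le (by positivity) (by linarith)

end H40.SP
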