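import Pool.Agent.H40.SP.Fin
import Pool.Agent.H4.SL.Hc

/-!
# The theorem with the sharp lower bound
-/

set_option autoImplicit false

namespace H40.SP

open Pool.Agent.H14.ETH

theorem mainS : ∃ C : ℝ, 0 < C ∧
    (∀ (k : ℕ) (ε : ℝ), 2 ≤ k → 0 < ε → ε ≤ 1 → ∃ n₀ : ℕ, ∀ n ≥ n₀, ∀ F : Fml (Fin n), Width k F →
      Sparse F k ((2 : ℝ) ^ (ε * n)) ((C * k ^ 2 * Real.log (2 * k / ε) / ε) ^ (k - 1) * n)) ∧
    (∀ k w : ℕ, 2 ≤ k → k ≤ w → ∃ ε₀ : ℝ, 0 < ε₀ ∧ ∀ ε : ℝ, 0 < ε → ε ≤ ε₀ →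
      ∃ n₀ : ℕ, ∀ n ≥ n₀, ∃ F : Fml (Fin n), Width k F ∧
        ¬ Sparse F w ((2 : ℝ) ^ (ε * n)) ((Real.log (1 / ε) / (C * w * k ^ 2 * ε)) ^ (k - 1) * n)) ∧
    (∀ (k w : ℕ) (ε : ℝ), 2 ≤ k → k ≤ w → 0 < ε → C * w * k ^ 2 * ε ≤ 1 →
      ∃ n₀ : ℕ, ∀ n ≥ n₀, ∃ F : Fml (Fin n), Width k F ∧
        ¬ Sparse F w ((2 : ℝ) ^ (ε * n)) ((1 / (C * w * k ^ 2 * ε)) ^ (k - 1) * n)) ∧
    (∀ k : ℕ, 3 ≤ k → 0 < satExp k →
      (satExp k / (C * k ^ 2 * Real.log (2 * k / satExp k))) ^ k ≤ satExp 3) := by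
  obtain ⟨C1, hC1, hU, hL, hS⟩ := main
  obtain ⟨C2, hC2, hL'⟩ := H4.SL.lowerS
  have hC : 0 < max C1 C2 := lt_max_of_lt_left hC1
  refine ⟨max C1 C2, hC, ?_, ?_, ?_, ?_⟩
  · intro k ε hk hε hε1
    obtain ⟨n₀, h⟩ := hU k ε hk hε hε1
    refine ⟨n₀, fun n hn F hF => (h n hn F hF).mono le_rfl ?_⟩
    have hkR : (2 : ℝ) ≤ k := by exact_mod_cast hk
    have hlog : 0 ≤ Real.log (2 * k / ε) := by
      apply Real.log_nonneg
      rw [le_div_iff₀ hε]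
      linarith
    refine mul_le_mul_of_nonneg_right (pow_le_pow_left₀ (by positivity) ?_ _) (Nat.cast_nonneg n)
    refine div_le_div_of_nonneg_right ?_ hε.le
    exact mul_le_mul_of_nonneg_right (mul_le_mul_of_nonneg_right (le_max_left _ _) (by positivity)) hlog
  · intro k w hk hkw
    obtain ⟨ε₀, hε₀, h⟩ := hL' k w hk hkw
    refine ⟨min ε₀ 1, lt_min hε₀ one_pos, fun ε hε hε' => ?_⟩
    obtain ⟨n₀, h'⟩ := h ε hε (hε'.trans (min_le_left _ _))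
    refine ⟨n₀, fun n hn => ?_⟩
    obtain ⟨F, hF, hns⟩ := h' n hn
    refine ⟨F, hF, fun hsp => hns (hsp.mono le_rfl ?_)⟩
    have hkR : (2 : ℝ) ≤ k := by exact_mod_cast hk
    have hwR : (2 : ℝ) ≤ w := by exact_mod_cast hk.trans hkw
    have hlog : 0 ≤ Real.log (1 / ε) := by
      apply Real.log_nonneg
      rw [le_div_iff₀ hε]
      have := hε'.trans (min_le_right _ _)
      linarith
    refine mul_le_mul_of_nonneg_right (pow_le_pow_left₀ (by positivity) ?_ _) (Nat.cast_nonneg n)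
    refine div_le_div_of_nonneg_left hlog (by positivity) ?_
    have : 0 ≤ (w : ℝ) * k ^ 2 * ε := by positivity
    have h2 := mul_le_mul_of_nonneg_right (le_max_right C1 C2) this
    calc C2 * w * k ^ 2 * ε = C2 * (w * k ^ 2 * ε) := by ring
      _ ≤ max C1 C2 * (w * k ^ 2 * ε) := h2
      _ = _ := by ring
  · intro k w ε hk hkw hε h
    have hkR : (2 : ℝ) ≤ k := by exact_mod_cast hk
    have hwR : (2 : ℝ) ≤ w := by exact_mod_cast hk.trans hkw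
    have h0 : 0 < (w : ℝ) * k ^ 2 * ε := by positivity
    have h2 := mul_le_mul_of_nonneg_right (le_max_left C1 C2) h0.le
    have e1 : C1 * w * k ^ 2 * ε = C1 * (w * k ^ 2 * ε) := by ring
    have e2 : max C1 C2 * w * k ^ 2 * ε = max C1 C2 * (w * k ^ 2 * ε) := by ring
    obtain ⟨n₀, h'⟩ := hL k w ε hk hkw hε (by rw [e1]; rw [e2] at h; linarith)
    refine ⟨n₀, fun n hn => ?_⟩
    obtain ⟨F, hF, hns⟩ := h' n hn
    refine ⟨F, hF, fun hsp => hns (hsp.mono le_rfl ?_)⟩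
    refine mul_le_mul_of_nonneg_right (pow_le_pow_left₀ (by positivity) ?_ _) (Nat.cast_nonneg n)
    rw [e1, e2]
    exact one_div_le_one_div_of_le (by positivity) h2
  · intro k hk hs
    refine le_trans ?_ (hS k hk hs)
    have hkR : (3 : ℝ) ≤ k := by exact_mod_cast hk
    have hs1 : satExp k ≤ 1 := Pool.Agent.H83.B13.satExp_le_one k
    have hlog : 0 < Real.log (2 * k / satExp k) := by
      apply Real.log_pos
      rw [lt_div_iff₀ hs]
      linarith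
    refine pow_le_pow_left₀ (by positivity) ?_ _
    refine div_le_div_of_nonneg_left hs.le (by positivity) ?_
    exact mul_le_mul_of_nonneg_right (mul_le_mul_of_nonneg_right (le_max_left _ _) (by positivity)) hlog.le

end H40.SP
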