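import Pool.Agent.H40.SP.Defs

/-!
# Row La: the assignment of a state

PROOF. `asg_var`: unfold `asg`, `decide_eq_true_iff`. `x t q i = x t' q' ((σ t').2 q')` gives `t = t'`,
`q = q'`, `i = (σ t).2 q` by `hx`; conversely take `t, q`.
`flip_var`: `flip = Function.update (asg x σ) (mis x σ t) true`, `mis x σ t = x t (σ t).1 ((σ t).2 (σ t).1)`.
If `x s q i = mis x σ t` then `s = t, q = (σ t).1, i = (σ t).2 (σ t).1` and the value is `true`;
otherwise the value is `asg x σ (x s q i)` (`Function.update_of_ne`) and we use `asg_var`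
(note that the second alternative on the right implies `x s q i = mis x σ t`).
`asg_congr`: if `∃ t q, q ≠ (σ t).1 ∧ v = x t q ((σ t).2 q)` then `σ t = σ' t` by `h t q _`, so the same
`t, q` work for `σ'`; symmetric in the other direction (`h t q _` is again applied to the pair
found).
`asg_eq_false`: the negation of `asg_var` with `q = (σ t).1`.
-/

set_option autoImplicit false

namespace H40.SP

variable {V : Type} {B k b : ℕ} {x : Fin B → Fin k → Fin b → V}

theorem asg_var (hx : Inj x) (σ : St B k b) (t : Fin B) (q : Fin k) (i : Fin b) :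
    asg x σ (x t q i) = true ↔ q ≠ (σ t).1 ∧ i = (σ t).2 q := by
  classical
  unfold asg
  rw [decide_eq_true_iff]
  constructor
  · rintro ⟨t', q', hq, he⟩
    obtain ⟨rfl, rfl, rfl⟩ := hx _ _ _ _ _ _ he
    exact ⟨hq, rfl⟩
  · rintro ⟨hq, hi⟩
    exact ⟨t, q, hq, by rw [hi]⟩

theorem asg_eq_false (hx : Inj x) (σ : St B k b) (t : Fin B) (i : Fin b) :
    asg x σ (x t (σ t).1 i) = false := by
  rw [← Bool.not_eq_true, asg_var hx]
  rintro ⟨h, _⟩
  exact h rfl

theorem flip_var (hx : Inj x) (σ : St B k b) (t s : Fin B) (q : Fin k) (i : Fin b) :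
    flip x σ t (x s q i) = true ↔
      (q ≠ (σ s).1 ∧ i = (σ s).2 q) ∨ (s = t ∧ q = (σ t).1 ∧ i = (σ t).2 (σ t).1) := by
  classical
  unfold flip
  by_cases h : x s q i = mis x σ t
  · have h1 := hx _ _ _ _ _ _ h
    rw [h, Function.update_self]
    simp only [true_iff]
    exact Or.inr h1
  · rw [Function.update_of_ne h, asg_var hx]
    constructor
    · intro h1
      exact Or.inl h1
    · rintro (h1 | ⟨rfl, rfl, rfl⟩)
      · exact h1
      · exact absurd rfl h

theorem asg_congr (σ σ' : St B k b) (v : V) (h : ∀ t q i, v = x t q i → σ t = σ' t) :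
    asg x σ v = asg x σ' v := by
  classical
  unfold asg
  rw [decide_eq_decide]
  constructor
  · rintro ⟨t, q, hq, he⟩
    have h1 := h t q _ he
    exact ⟨t, q, by rw [← h1]; exact hq, by rw [← h1]; exact he⟩
  · rintro ⟨t, q, hq, he⟩
    have h1 := h t q _ he
    exact ⟨t, q, by rw [h1]; exact hq, by rw [h1]; exact he⟩

end H40.SP
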