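import Pool.Agent.H40.SP.La

/-!
# Row Lb: the hard formula

PROOF. `width_hard`: a clause of `hard x` is `hcl x t u`, an image of `univ : Finset (Fin k)`, so
`Finset.card_image_le` gives `≤ k`.
`sat_hard`: the clause `hcl x t u` contains `(x t q (u q), false)` with `q = (σ t).1`, and
`asg x σ (x t q _) = false` (`asg_eq_false`).
`not_sat_flip`: the clause `hcl x t (σ t).2` is in `hard x`; a literal of it is `(x t q ((σ t).2 q), false)`;
`flip x σ t (x t q ((σ t).2 q)) = true` by `flip_var` (if `q ≠ (σ t).1` the left alternative, if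
`q = (σ t).1` the right one).
-/

/-!
Row Lb.
-/

set_option autoImplicit false

namespace H40.SP

variable {V : Type} [DecidableEq V] {B k b : ℕ} {x : Fin B → Fin k → Fin b → V}

theorem width_hard (x : Fin B → Fin k → Fin b → V) : Width k (hard x) := by
  intro C hC
  obtain ⟨p, -, rfl⟩ := Finset.mem_image.mp hC
  exact (Finset.card_image_le).trans (by rw [Finset.card_univ, Fintype.card_fin])

theorem sat_hard (hx : Inj x) (σ : St B k b) : Sat (hard x) (asg x σ) := by
  intro C hC
  obtain ⟨p, -, rfl⟩ := Finset.mem_image.mp hC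
  refine ⟨(x p.1 (σ p.1).1 (p.2 (σ p.1).1), false), ?_, ?_⟩
  · exact Finset.mem_image.mpr ⟨(σ p.1).1, Finset.mem_univ _, rfl⟩
  · exact asg_eq_false hx σ p.1 _

theorem not_sat_flip (hx : Inj x) (σ : St B k b) (t : Fin B) : ¬ Sat (hard x) (flip x σ t) := by
  intro hs
  obtain ⟨l, hl, hlv⟩ := hs (hcl x t (σ t).2)
    (Finset.mem_image.mpr ⟨(t, (σ t).2), Finset.mem_univ _, rfl⟩)
  obtain ⟨q, -, rfl⟩ := Finset.mem_image.mp hl
  have h1 : flip x σ t (x t q ((σ t).2 q)) = true := by
    rw [flip_var hx]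
    by_cases h : q = (σ t).1
    · right
      exact ⟨rfl, h, by rw [h]⟩
    · left
      exact ⟨h, rfl⟩
  have h2 : flip x σ t (x t q ((σ t).2 q)) = false := hlv
  rw [h1] at h2
  exact absurd h2 (by simp)

end H40.SP
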