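import Pool.Agent.H40.SP.Lb

/-!
# Row Lc: critical clauses

`G` implies `hard x`, `σ` is a state whose assignment satisfies `G`.
PROOF. `exists_crit`: `flip x σ t` violates `hard x` (`not_sat_flip`), so it does not satisfy `G`
(`hG`); push the negation of `Sat G (flip x σ t)` through the quantifiers.
`crit_mem`: `Sat G (asg x σ)` gives a literal `l ∈ C` with `asg x σ l.1 = l.2`. If `l.1 ≠ mis x σ t` then
`flip x σ t l.1 = asg x σ l.1 = l.2`, contradicting `Viol`. So `l.1 = mis x σ t`, and
`flip x σ t l.1 = true ≠ l.2`, so `l.2 = false`.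
-/

set_option autoImplicit false

namespace H40.SP

variable {V : Type} [DecidableEq V] {B k b : ℕ} {x : Fin B → Fin k → Fin b → V} {G : Fml V}

theorem exists_crit (hx : Inj x) (hG : ∀ a, Sat G a → Sat (hard x) a) (σ : St B k b) (t : Fin B) :
    ∃ C ∈ G, Viol C (flip x σ t) := by
  have h1 : ¬ Sat G (flip x σ t) := fun h => not_sat_flip hx σ t (hG _ h)
  unfold Sat at h1
  push Not at h1
  obtain ⟨C, hC, h2⟩ := h1
  exact ⟨C, hC, fun l hl => h2 l hl⟩

theorem crit_mem {σ : St B k b} (hσ : σ ∈ good x G) {t : Fin B} {C : Finset (V × Bool)}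
    (hC : C ∈ G) (hv : Viol C (flip x σ t)) : (mis x σ t, false) ∈ C := by
  classical
  have hs : Sat G (asg x σ) := by
    unfold good at hσ
    exact (Finset.mem_filter.1 hσ).2
  obtain ⟨l, hl, hl2⟩ := hs C hC
  have h1 := hv l hl
  have hm : l.1 = mis x σ t := by
    by_contra hne
    apply h1
    have h5 : flip x σ t l.1 = asg x σ l.1 := by
      unfold flip
      exact @Function.update_of_ne _ _ (fun a b => Classical.propDecidable (a = b)) _ _ hne _ _
    rw [h5, hl2]
  have h2 : flip x σ t l.1 = true := by
    unfold flip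
    rw [hm]
    exact @Function.update_self _ _ (fun a b => Classical.propDecidable (a = b)) _ _ _
  rw [h2] at h1
  have h3 : l.2 = false := by
    cases h : l.2
    · rfl
    · exact absurd h.symm h1
  have h4 : l = (mis x σ t, false) := Prod.ext hm h3
  rw [← h4]
  exact hl

end H40.SP
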