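import Pool.Agent.H40.SP.La

/-!
# Row Ld: the neighbour of a state at a non-honest block violates the clause

PROOF. Put `u = (σ t).2`, `j = (σ t).1`, `σ' = Function.update σ t (p, u)`. The assignments `flip x σ t` and
`asg x σ'` differ at most in the variable `v0 = x t p (u p)`:
let `v ≠ v0`. `asg x σ' v = true` iff `∃ s q, q ≠ (σ' s).1 ∧ v = x s q ((σ' s).2 q)`. For `s ≠ t` the state is
`σ s`. For `s = t`: `q ≠ p` and `v = x t q (u q)`; for `v ≠ v0` the condition `q ≠ p` is automatic. So
`asg x σ' v = true` iff (`∃ s q`, `s ≠ t`, `q ≠ (σ s).1`, `v = x s q ((σ s).2 q)`) or (`∃ q`, `v = x t q (u q)`),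
and this is also the condition for `flip x σ t v = true` (`q = j`: `v = mis x σ t`; `q ≠ j`: `asg x σ v = true`).
Moreover `flip x σ t v0 = true` (`p ≠ j`).
Now let `l ∈ C`. If `l.1 = v0`: `l.2 ≠ false` by `hp`, so `l.2 = true = flip x σ t l.1`, contradiction
to `hv`. So `l.1 ≠ v0` and `asg x σ' l.1 = flip x σ t l.1 ≠ l.2`.
-/

set_option autoImplicit false

namespace H40.SP

variable {V : Type} {B k b : ℕ} {x : Fin B → Fin k → Fin b → V}

theorem viol_neighbour (hx : Inj x) {C : Finset (V × Bool)} {σ : St B k b} {t : Fin B} {p : Fin k}
    (hv : Viol C (flip x σ t)) (hp : (x t p ((σ t).2 p), false) ∉ C) (hpj : p ≠ (σ t).1) :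
    Viol C (asg x (Function.update σ t (p, (σ t).2))) := by
  classical
  intro l hl
  have hv1 := hv l hl
  by_cases h0 : l.1 = x t p ((σ t).2 p)
  · exfalso
    have hl2 : l.2 = true := by
      rcases h : l.2 with _ | _
      · exfalso
        apply hp
        rw [← h0, ← h]
        exact hl
      · rfl
    apply hv1
    rw [hl2, h0]
    exact (flip_var hx σ t t p ((σ t).2 p)).2 (Or.inl ⟨hpj, rfl⟩)
  · have heq : asg x (Function.update σ t (p, (σ t).2)) l.1 = flip x σ t l.1 := by
      rw [Bool.eq_iff_iff]
      have e1 : asg x (Function.update σ t (p, (σ t).2)) l.1 = true ↔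
          ∃ s q, q ≠ (Function.update σ t (p, (σ t).2) s).1 ∧
            l.1 = x s q ((Function.update σ t (p, (σ t).2) s).2 q) := by
        unfold asg
        exact decide_eq_true_iff
      have e2 : asg x σ l.1 = true ↔ ∃ s q, q ≠ (σ s).1 ∧ l.1 = x s q ((σ s).2 q) := by
        unfold asg
        exact decide_eq_true_iff
      have e3 : flip x σ t l.1 = true ↔ l.1 = mis x σ t ∨ asg x σ l.1 = true := by
        unfold flip
        by_cases hm : l.1 = mis x σ t
        · rw [hm, Function.update_self]
          exact ⟨fun _ => Or.inl rfl, fun _ => rfl⟩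
        · rw [Function.update_of_ne hm]
          exact ⟨fun h => Or.inr h, fun h => h.resolve_left hm⟩
      rw [e1, e3, e2]
      constructor
      · rintro ⟨s, q, h1, h2⟩
        by_cases hs : s = t
        · subst hs
          rw [Function.update_self] at h1 h2
          by_cases hq : q = (σ s).1
          · left
            rw [h2, hq]
            rfl
          · right
            exact ⟨s, q, hq, h2⟩
        · rw [Function.update_of_ne hs] at h1 h2
          exact Or.inr ⟨s, q, h1, h2⟩
      · rintro (h1 | ⟨s, q, h1, h2⟩)
        · refine ⟨t, (σ t).1, ?_, ?_⟩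
          · rw [Function.update_self]
            exact fun h => hpj h.symm
          · rw [Function.update_self]
            exact h1
        · by_cases hs : s = t
          · subst hs
            refine ⟨s, q, ?_, ?_⟩
            · rw [Function.update_self]
              intro hq
              have hq' : q = p := hq
              apply h0
              rw [h2, hq']
            · rw [Function.update_self]
              exact h2
          · refine ⟨s, q, ?_, ?_⟩
            · rw [Function.update_of_ne hs]
              exact h1
            · rw [Function.update_of_ne hs]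
              exact h2
    rw [heq]
    exact hv1

end H40.SP
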