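import Pool.Agent.H40.SP.La

/-!
# Row Le: local sets

PROOF. `mem_loc`: `Function.update σ t (σ t) = σ` and `Sat G (asg x σ)`.
`loc_update`: both sides are filters of `univ`; compare the predicates. For a clause `C` which
touches no block of `T` except possibly `t`, `C` does not touch `s`, so for `l ∈ C`
`asg x (update (update σ s ω) t ω') l.1 = asg x (update σ t ω') l.1` by `asg_congr`: if
`l.1 = x t' q i` then `t' ≠ s` (`C` touches `t'`), and the two states agree at `t'` (cases `t' = t`,
`t' ≠ t`).
`loc_update_self`: `Function.update_idem`.
`card_touch_le`: the map choosing for a touched block a literal of `C` over it is injective, since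
the variable determines the block (`hx`). E.g. `Finset.card_le_card_of_injOn` with
`f t = if h : Touch x C t then h.choose else default`; or: the set of touched blocks is contained in
the biUnion over `l ∈ C` of the blocks of `l.1`, each of which has at most one element.
-/

set_option autoImplicit false

namespace H40.SP

variable {V : Type} {B k b : ℕ} {x : Fin B → Fin k → Fin b → V} {G : Fml V}

theorem mem_loc {σ : St B k b} (hσ : σ ∈ good x G) (T : Finset (Fin B)) (t : Fin B) :
    σ t ∈ loc x G T σ t := by
  classical
  have h1 : Sat G (asg x σ) := (Finset.mem_filter.1 hσ).2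
  unfold loc
  rw [Finset.mem_filter]
  refine ⟨Finset.mem_univ _, fun C hC _ => ?_⟩
  rw [Function.update_eq_self]
  exact h1 C hC

theorem loc_update (T : Finset (Fin B)) {s t : Fin B} (hs : s ∈ T) (hst : s ≠ t) (ω : Blk k b)
    (σ : St B k b) : loc x G T (Function.update σ s ω) t = loc x G T σ t := by
  classical
  unfold loc
  apply Finset.filter_congr
  intro ω' _
  have key : ∀ C : Finset (V × Bool), (∀ r ∈ T, r ≠ t → ¬ Touch x C r) → ∀ l ∈ C,
      asg x (Function.update (Function.update σ s ω) t ω') l.1 = asg x (Function.update σ t ω') l.1 := by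
    intro C hC l hl
    apply asg_congr
    intro t' q i hv
    by_cases h1 : t' = t
    · subst h1
      rw [Function.update_self, Function.update_self]
    · rw [Function.update_of_ne h1, Function.update_of_ne h1]
      have h2 : t' ≠ s := by
        rintro rfl
        exact hC t' hs hst ⟨l, hl, q, i, hv⟩
      rw [Function.update_of_ne h2]
  constructor
  · intro h C hC hT
    obtain ⟨l, hl, he⟩ := h C hC hT
    exact ⟨l, hl, by rw [← key C hT l hl]; exact he⟩
  · intro h C hC hT
    obtain ⟨l, hl, he⟩ := h C hC hT
    exact ⟨l, hl, by rw [key C hT l hl]; exact he⟩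

theorem loc_update_self (T : Finset (Fin B)) (t : Fin B) (ω : Blk k b) (σ : St B k b) :
    loc x G T (Function.update σ t ω) t = loc x G T σ t := by
  classical
  unfold loc
  simp only [Function.update_idem]

open Classical in
theorem card_touch_le (hx : Inj x) (C : Finset (V × Bool)) :
    (Finset.univ.filter (fun t : Fin B => Touch x C t)).card ≤ C.card := by
  have h1 : Finset.univ.filter (fun t : Fin B => Touch x C t) ⊆
      C.biUnion (fun l => Finset.univ.filter (fun t : Fin B => ∃ q i, l.1 = x t q i)) := by
    intro t ht
    obtain ⟨l, hl, q, i, he⟩ := (Finset.mem_filter.1 ht).2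
    rw [Finset.mem_biUnion]
    exact ⟨l, hl, Finset.mem_filter.2 ⟨Finset.mem_univ _, q, i, he⟩⟩
  refine (Finset.card_le_card h1).trans ?_
  refine (Finset.card_biUnion_le_card_mul _ _ 1 ?_).trans (by rw [mul_one])
  intro l _
  rw [Finset.card_le_one]
  intro t ht t' ht'
  obtain ⟨q, i, h2⟩ := (Finset.mem_filter.1 ht).2
  obtain ⟨q', i', h3⟩ := (Finset.mem_filter.1 ht').2
  rw [h2] at h3
  exact (hx _ _ _ _ _ _ h3).1

end H40.SP
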