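import Pool.Agent.H40.SP.Defs

/-!
# Row Lf: the sum over a block (Mathlib + Defs only)

PROOF. `nb_le`: the set is contained in `univ.erase ω.1`, which has `k - 1` elements.
`sum_nb`: `∑ ω, nb S ω` counts the triples `(j, u, p)` with `p ≠ j`, `(p, u) ∉ S`. Exchange the roles of `j`
and `p`: for every `(p, u) ∉ S` there are `k - 1` values of `j`. Formally:
`∑ (j,u), ∑ p, [p ≠ j ∧ (p,u) ∉ S] = ∑ u, ∑ j, ∑ p, .. = ∑ u, ∑ p, ∑ j, [p ≠ j ∧ (p,u) ∉ S]
= ∑ u, ∑ p, [(p,u) ∉ S] (k - 1) = (k - 1) |Sᶜ|` (`Finset.card_filter`, `Fintype.sum_prod_type`,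
`Finset.sum_comm`).
`sum_blk`: `∑ ω ∈ S, (1 + nb S ω / (k - 1)) ≤ |S| + (∑ ω, nb S ω) / (k - 1) = |S| + |Sᶜ| = card (Blk k b)`.
-/

set_option autoImplicit false

namespace H40.SP

variable {k b : ℕ}

theorem nb_le (S : Finset (Blk k b)) (ω : Blk k b) : nb S ω ≤ k - 1 := by
  unfold nb
  have h1 : (Finset.univ.filter (fun p : Fin k => p ≠ ω.1 ∧ (p, ω.2) ∉ S)) ⊆
      Finset.univ.erase ω.1 := by
    intro p hp
    rw [Finset.mem_filter] at hp
    exact Finset.mem_erase.2 ⟨hp.2.1, Finset.mem_univ _⟩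
  refine (Finset.card_le_card h1).trans ?_
  rw [Finset.card_erase_of_mem (Finset.mem_univ _), Finset.card_univ, Fintype.card_fin]

theorem Lf_ne (p : Fin k) : ∑ j : Fin k, (if p ≠ j then 1 else 0) = k - 1 := by
  rw [← Finset.card_filter]
  have h1 : Finset.univ.filter (fun j : Fin k => p ≠ j) = Finset.univ.erase p := by
    ext j
    simp only [Finset.mem_filter, Finset.mem_univ, true_and, Finset.mem_erase, and_true]
    exact ne_comm
  rw [h1, Finset.card_erase_of_mem (Finset.mem_univ _), Finset.card_univ, Fintype.card_fin]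

theorem sum_nb (S : Finset (Blk k b)) :
    ∑ ω : Blk k b, nb S ω = (k - 1) * (Finset.univ \ S).card := by
  have h1 : ∀ ω : Blk k b, nb S ω =
      ∑ p : Fin k, (if p ≠ ω.1 ∧ (p, ω.2) ∉ S then 1 else 0) := fun ω => by
    unfold nb
    rw [Finset.card_filter]
  simp only [h1]
  rw [Fintype.sum_prod_type, Finset.sum_comm]
  have h2 : ∀ u : Fin k → Fin b, ∑ j : Fin k, ∑ p : Fin k, (if p ≠ j ∧ (p, u) ∉ S then 1 else 0) =
      (k - 1) * ∑ p : Fin k, (if (p, u) ∉ S then 1 else 0) := by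
    intro u
    rw [Finset.sum_comm, Finset.mul_sum]
    refine Finset.sum_congr rfl fun p _ => ?_
    by_cases hp : (p, u) ∉ S
    · simp only [hp, not_false_eq_true, and_true, if_true, mul_one]
      exact Lf_ne p
    · simp only [hp, and_false, if_false, Finset.sum_const_zero, mul_zero]
  simp only [h2]
  rw [← Finset.mul_sum]
  congr 1
  have h3 : Finset.univ \ S = Finset.univ.filter (fun ω : Blk k b => ω ∉ S) := by
    ext ω
    simp
  rw [h3, Finset.card_filter, Fintype.sum_prod_type, Finset.sum_comm]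

theorem sum_blk (hk : 2 ≤ k) (S : Finset (Blk k b)) :
    ∑ ω ∈ S, (1 + (nb S ω : ℝ) / ((k : ℝ) - 1)) ≤ (Fintype.card (Blk k b) : ℝ) := by
  have hk1 : (0 : ℝ) < (k : ℝ) - 1 := by
    have : (2 : ℝ) ≤ k := by exact_mod_cast hk
    linarith
  have h1 : ∑ ω ∈ S, (nb S ω : ℝ) / ((k : ℝ) - 1) ≤ ((Finset.univ \ S).card : ℝ) := by
    rw [← Finset.sum_div, div_le_iff₀ hk1]
    have h2 : ∑ ω ∈ S, (nb S ω : ℝ) ≤ ∑ ω : Blk k b, (nb S ω : ℝ) :=
      Finset.sum_le_sum_of_subset_of_nonneg (Finset.subset_univ S) fun ω _ _ => Nat.cast_nonneg _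
    refine h2.trans (le_of_eq ?_)
    have h3 := congrArg (fun n : ℕ => (n : ℝ)) (sum_nb S)
    simp only [Nat.cast_sum, Nat.cast_mul] at h3
    rw [h3, Nat.cast_sub (by omega), Nat.cast_one, mul_comm]
  have h4 : (S.card : ℝ) + ((Finset.univ \ S).card : ℝ) = (Fintype.card (Blk k b) : ℝ) := by
    have h5 : (Finset.univ \ S).card + S.card = (Finset.univ : Finset (Blk k b)).card :=
      Finset.card_sdiff_add_card_eq_card (Finset.subset_univ S)
    rw [← Finset.card_univ, ← h5]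
    push_cast
    ring
  rw [Finset.sum_add_distrib, Finset.sum_const, nsmul_eq_mul, mul_one, ← h4]
  linarith

end H40.SP
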