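import Pool.Agent.H40.SP.Le
import Pool.Agent.H40.SP.Lf
import Pool.Agent.H40.SP.Lg
import Pool.Agent.H40.SP.Lh

/-!
# Row Li: few neighbours outside the local sets

PROOF. Put `h t σ = if σ t ∈ loc x G T σ t then 1 + (nb (loc x G T σ t) (σ t) : ℝ) / (k - 1) else 0`.
(1) `prod_lemma` (row Lg) with `ι = Fin B`, `Ω = Blk k b`, this `h` and `T`: `h0` clear (`k ≥ 2`);
`hind`: `loc_update` (with `s ∈ T`, `s ≠ t`) and `Function.update_of_ne` (`(update σ s ω) t = σ t`); `hsum`: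
`(update σ t ω) t = ω`, `loc_update_self`, so the sum over `ω` is the sum over
`ω ∈ loc x G T σ t` (`Finset.sum_ite_mem` / `Finset.sum_filter`) in `sum_blk`.
So `∑ σ, ∏ t ∈ T, h t σ ≤ card (St B k b)`.
(2) For `σ ∈ A := good x G`: `σ t ∈ loc x G T σ t` (`mem_loc`), so
`W σ := ∏ t ∈ T, (1 + nb (loc x G T σ t) (σ t) / (k - 1)) = ∏ t ∈ T, h t σ`, positive, and
`∑ σ ∈ A, W σ ≤ card (St B k b)` (all terms of the full sum are nonnegative).
(3) `sum_log_le` (row Lh): `∑ σ ∈ A, log (W σ) ≤ card A * log (card St / card A)`. Finally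
`log (W σ) = ∑ t ∈ T, log (1 + nb / (k - 1)) ≥ ∑ t ∈ T, nb / (k - 1) * log 2` (`Real.log_prod`, `mul_log_two_le`,
`nb ≤ k - 1` by `nb_le`). Multiply by `k - 1 > 0`.
-/

set_option autoImplicit false

namespace H40.SP

variable {V : Type} {B k b : ℕ} {x : Fin B → Fin k → Fin b → V} {G : Fml V}

theorem sum_nb_le (hk : 2 ≤ k) (T : Finset (Fin B)) (hA : (good x G).Nonempty) :
    ∑ σ ∈ good x G, ∑ t ∈ T, (nb (loc x G T σ t) (σ t) : ℝ) * Real.log 2 ≤
      ((k : ℝ) - 1) * ((good x G).card *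
        Real.log ((Fintype.card (St B k b) : ℝ) / (good x G).card)) := by
  classical
  have hk1 : (0 : ℝ) < (k : ℝ) - 1 := by
    have : (2 : ℝ) ≤ (k : ℝ) := by exact_mod_cast hk
    linarith
  obtain ⟨h, hh⟩ : ∃ h : Fin B → (Fin B → Blk k b) → ℝ, h = fun t σ =>
      if σ t ∈ loc x G T σ t then 1 + (nb (loc x G T σ t) (σ t) : ℝ) / ((k : ℝ) - 1) else 0 :=
    ⟨_, rfl⟩
  have hpos : ∀ (σ : St B k b) (t : Fin B),
      0 < 1 + (nb (loc x G T σ t) (σ t) : ℝ) / ((k : ℝ) - 1) := by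
    intro σ t
    have : 0 ≤ (nb (loc x G T σ t) (σ t) : ℝ) / ((k : ℝ) - 1) :=
      div_nonneg (Nat.cast_nonneg _) hk1.le
    linarith
  have h0 : ∀ t σ, 0 ≤ h t σ := by
    intro t σ
    rw [hh]
    dsimp only
    split_ifs
    · exact (hpos σ t).le
    · exact le_rfl
  have hind : ∀ s ∈ T, ∀ t ∈ T, s ≠ t → ∀ σ ω, h t (Function.update σ s ω) = h t σ := by
    intro s hs t _ hst σ ω
    rw [hh]
    dsimp only
    rw [loc_update T hs hst ω σ, Function.update_of_ne hst.symm]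
  have hsum : ∀ t ∈ T, ∀ σ, ∑ ω : Blk k b, h t (Function.update σ t ω) ≤
      (Fintype.card (Blk k b) : ℝ) := by
    intro t _ σ
    refine le_trans (le_of_eq ?_) (sum_blk hk (loc x G T σ t))
    have e1 : ∀ ω : Blk k b, h t (Function.update σ t ω) =
        if ω ∈ loc x G T σ t then 1 + (nb (loc x G T σ t) ω : ℝ) / ((k : ℝ) - 1) else 0 := by
      intro ω
      rw [hh]
      dsimp only
      rw [loc_update_self T t ω σ, Function.update_self]
    rw [Finset.sum_congr rfl fun ω _ => e1 ω, ← Finset.sum_filter, Finset.filter_mem_eq_inter,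
      Finset.univ_inter]
  have key := prod_lemma T h h0 hind hsum
  have hX : ∑ σ ∈ good x G, ∏ t ∈ T, (1 + (nb (loc x G T σ t) (σ t) : ℝ) / ((k : ℝ) - 1)) ≤
      (Fintype.card (St B k b) : ℝ) := by
    refine le_trans ?_ key
    have e2 : ∀ σ ∈ good x G, ∏ t ∈ T, (1 + (nb (loc x G T σ t) (σ t) : ℝ) / ((k : ℝ) - 1)) =
        ∏ t ∈ T, h t σ := by
      intro σ hσ
      refine Finset.prod_congr rfl fun t _ => ?_
      rw [hh]
      dsimp only
      rw [if_pos (mem_loc hσ T t)]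
    rw [Finset.sum_congr rfl e2]
    exact Finset.sum_le_sum_of_subset_of_nonneg (Finset.subset_univ _)
      (fun σ _ _ => Finset.prod_nonneg fun t _ => h0 t σ)
  have h3 := sum_log_le (good x G) hA
    (fun σ => ∏ t ∈ T, (1 + (nb (loc x G T σ t) (σ t) : ℝ) / ((k : ℝ) - 1)))
    (fun σ _ => Finset.prod_pos fun t _ => hpos σ t) hX
  have h4 : ∀ σ ∈ good x G, ∑ t ∈ T, (nb (loc x G T σ t) (σ t) : ℝ) * Real.log 2 ≤
      ((k : ℝ) - 1) * Real.log (∏ t ∈ T, (1 + (nb (loc x G T σ t) (σ t) : ℝ) / ((k : ℝ) - 1))) := by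
    intro σ _
    rw [Real.log_prod (fun t _ => (hpos σ t).ne'), Finset.mul_sum]
    refine Finset.sum_le_sum fun t _ => ?_
    have hnb : (nb (loc x G T σ t) (σ t) : ℝ) ≤ (k : ℝ) - 1 := by
      have h5 : (nb (loc x G T σ t) (σ t) : ℝ) ≤ ((k - 1 : ℕ) : ℝ) := by
        exact_mod_cast nb_le (loc x G T σ t) (σ t)
      rw [Nat.cast_sub (by omega), Nat.cast_one] at h5
      exact h5
    have h6 := mul_log_two_le (div_nonneg (Nat.cast_nonneg (nb (loc x G T σ t) (σ t))) hk1.le)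
      ((div_le_one hk1).2 hnb)
    have h7 := mul_le_mul_of_nonneg_left h6 hk1.le
    rw [← mul_assoc, mul_div_cancel₀ _ hk1.ne'] at h7
    exact h7
  refine (Finset.sum_le_sum h4).trans ?_
  rw [← Finset.mul_sum]
  exact mul_le_mul_of_nonneg_left h3 hk1.le

end H40.SP
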