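import Mathlib

/-!
# Row Lj: counting functions (Mathlib only)

PROOF. The functions `g : Fin B → Fin w` with `g t = 0` and `g s ≠ 0` for `s ∈ S` form the
`Fintype.piFinset` of the sets `A t = {0}`, `A s = univ \ {0}` (`s ∈ S`), `A r = univ` otherwise, so their
number is `∏ r, card (A r) = 1 * (w - 1) ^ S.card * w ^ (B - 1 - S.card)` (`Fintype.card_piFinset`; split the
product over `univ` into `{t}`, `S` and the rest, `Finset.prod_ite`). Multiply by `3 w`:
`3 w (w - 1)^c w^(B-1-c) ≥ w^B` with `c = S.card ≤ w - 1` iff `3 (w - 1)^c ≥ w^c`.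
`pow_ge`: for `w = 1` we have `c = 0`. For `w ≥ 2`: `(w / (w - 1))^c ≤ (1 + 1/(w - 1))^(w - 1) ≤ exp 1 < 3`
(`Real.add_one_le_exp`, `Real.exp_one_lt_d9`), i.e. `w^c ≤ 3 (w - 1)^c`.
-/

set_option autoImplicit false

namespace H40.SP

theorem pow_ge {w c : ℕ} (hw : 1 ≤ w) (hc : c ≤ w - 1) :
    (w : ℝ) ^ c ≤ 3 * ((w : ℝ) - 1) ^ c := by
  rcases Nat.eq_zero_or_pos c with h0 | h0
  · rw [h0, pow_zero, pow_zero]
    norm_num
  have hv : (c : ℝ) ≤ (w : ℝ) - 1 := by
    have h1 : c + 1 ≤ w := by omega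
    have h2 : ((c + 1 : ℕ) : ℝ) ≤ w := by exact_mod_cast h1
    push_cast at h2
    linarith
  have hc1 : (1 : ℝ) ≤ c := by exact_mod_cast h0
  obtain ⟨v, hv'⟩ : ∃ v : ℝ, v = (w : ℝ) - 1 := ⟨_, rfl⟩
  rw [← hv'] at hv ⊢
  have hvpos : 0 < v := by linarith
  have hw' : (w : ℝ) = v * (1 + 1 / v) := by
    rw [mul_add, mul_one, mul_one_div, div_self hvpos.ne']
    linarith
  have h1 : (1 + 1 / v) ^ c ≤ 3 := by
    have h2 : 1 + 1 / v ≤ Real.exp (1 / v) := by
      have := Real.add_one_le_exp (1 / v)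
      linarith
    calc (1 + 1 / v) ^ c ≤ (Real.exp (1 / v)) ^ c := pow_le_pow_left₀ (by positivity) h2 c
      _ = Real.exp (c * (1 / v)) := by rw [← Real.exp_nat_mul]
      _ ≤ Real.exp 1 := by
        apply Real.exp_le_exp.mpr
        rw [mul_one_div, div_le_one hvpos]
        exact hv
      _ ≤ 3 := by linarith [Real.exp_one_lt_d9]
  rw [hw', mul_pow]
  calc v ^ c * (1 + 1 / v) ^ c ≤ v ^ c * 3 := mul_le_mul_of_nonneg_left h1 (by positivity)
    _ = 3 * v ^ c := mul_comm _ _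

open Classical in
theorem card_fun_ge {B w : ℕ} (hw : 1 ≤ w) (t : Fin B) (S : Finset (Fin B)) (ht : t ∉ S)
    (hS : S.card ≤ w - 1) :
    (w : ℝ) ^ B ≤ 3 * w * ((Finset.univ.filter (fun g : Fin B → Fin w =>
      (g t : ℕ) = 0 ∧ ∀ s ∈ S, (g s : ℕ) ≠ 0)).card : ℝ) := by
  obtain ⟨z0, hz0⟩ : ∃ z0 : Fin w, (z0 : ℕ) = 0 := ⟨⟨0, by omega⟩, rfl⟩
  have hz : ∀ z : Fin w, (z : ℕ) = 0 ↔ z = z0 := by
    intro z
    rw [← hz0]
    exact Fin.val_inj
  let A : Fin B → Finset (Fin w) := fun r => if r = t then {z0} else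
    if r ∈ S then Finset.univ.erase z0 else Finset.univ
  have hAt : A t = {z0} := if_pos rfl
  have hne : ∀ r ∈ S, r ≠ t := by
    intro r hr h
    rw [h] at hr
    exact ht hr
  have hAS : ∀ r ∈ S, A r = Finset.univ.erase z0 := by
    intro r hr
    change (if r = t then {z0} else if r ∈ S then Finset.univ.erase z0 else Finset.univ) = _
    rw [if_neg (hne r hr), if_pos hr]
  have hAo : ∀ r, r ≠ t → r ∉ S → A r = Finset.univ := by
    intro r h1 h2
    change (if r = t then {z0} else if r ∈ S then Finset.univ.erase z0 else Finset.univ) = _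
    rw [if_neg h1, if_neg h2]
  have hA : (Finset.univ.filter (fun g : Fin B → Fin w =>
      (g t : ℕ) = 0 ∧ ∀ s ∈ S, (g s : ℕ) ≠ 0)) = Fintype.piFinset A := by
    ext g
    rw [Fintype.mem_piFinset, Finset.mem_filter]
    constructor
    · rintro ⟨-, h1, h2⟩ r
      by_cases hr : r = t
      · rw [hr, hAt, Finset.mem_singleton]
        exact (hz _).1 h1
      · by_cases hrS : r ∈ S
        · rw [hAS r hrS]
          exact Finset.mem_erase.2 ⟨fun h => h2 r hrS ((hz _).2 h), Finset.mem_univ _⟩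
        · rw [hAo r hr hrS]
          exact Finset.mem_univ _
    · intro h
      refine ⟨Finset.mem_univ _, ?_, ?_⟩
      · have h1 := h t
        rw [hAt, Finset.mem_singleton] at h1
        exact (hz _).2 h1
      · intro s hs h0
        have h1 := h s
        rw [hAS s hs] at h1
        exact (Finset.mem_erase.1 h1).1 ((hz _).1 h0)
  have hw1 : (((w - 1 : ℕ) : ℕ) : ℝ) = (w : ℝ) - 1 := by
    rw [Nat.cast_sub hw, Nat.cast_one]
  have hsub : S ⊆ Finset.univ.erase t := fun r hr =>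
    Finset.mem_erase.2 ⟨hne r hr, Finset.mem_univ _⟩
  obtain ⟨e, he⟩ : ∃ e, e = ((Finset.univ.erase t) \ S).card := ⟨_, rfl⟩
  have hB : B = 1 + S.card + e := by
    have h1 := Finset.card_sdiff_add_card_eq_card hsub
    have h2 := Finset.card_erase_add_one (Finset.mem_univ t)
    rw [Finset.card_univ, Fintype.card_fin] at h2
    omega
  have hprod : (Fintype.piFinset A).card = (w - 1) ^ S.card * w ^ e := by
    rw [Fintype.card_piFinset, ← Finset.mul_prod_erase Finset.univ (fun r => (A r).card)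
      (Finset.mem_univ t), ← Finset.prod_sdiff hsub]
    have h1 : ∏ r ∈ (Finset.univ.erase t) \ S, (A r).card = w ^ e := by
      rw [he]
      refine Finset.prod_eq_pow_card ?_
      intro r hr
      obtain ⟨h2, h3⟩ := Finset.mem_sdiff.1 hr
      rw [hAo r (Finset.mem_erase.1 h2).1 h3, Finset.card_univ, Fintype.card_fin]
    have h4 : ∏ r ∈ S, (A r).card = (w - 1) ^ S.card := by
      refine Finset.prod_eq_pow_card ?_
      intro r hr
      rw [hAS r hr, Finset.card_erase_of_mem (Finset.mem_univ _), Finset.card_univ,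
        Fintype.card_fin]
    rw [h1, h4, hAt, Finset.card_singleton, one_mul, mul_comm]
  rw [hA, hprod]
  push_cast
  rw [hw1]
  have h5 := pow_ge hw hS
  have hw0 : (0 : ℝ) ≤ w := Nat.cast_nonneg _
  calc (w : ℝ) ^ B = w * w ^ e * w ^ S.card := by
        conv_lhs => rw [hB]
        rw [pow_add, pow_add, pow_one]
        ring
    _ ≤ w * w ^ e * (3 * ((w : ℝ) - 1) ^ S.card) :=
        mul_le_mul_of_nonneg_left h5 (by positivity)
    _ = 3 * w * (((w : ℝ) - 1) ^ S.card * w ^ e) := by ring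

end H40.SP
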