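import Pool.Agent.H40.SP.Lc
import Pool.Agent.H40.SP.Ld
import Pool.Agent.H40.SP.Li
import Pool.Agent.H40.SP.Lj

/-!
# Row Lk: few blocks are not honest

PROOF. `nb_pos`: let `σ ∈ good x G`, `t` not honest. `exists_crit` gives `C ∈ G` with
`Viol C (flip x σ t)`; as `t` is not honest there is `p` with `(x t p ((σ t).2 p), false) ∉ C`, and `p ≠ (σ t).1`
because `(mis x σ t, false) ∈ C` (`crit_mem`). If `C` touches no block of `T` other than `t`, then
`(p, (σ t).2) ∉ loc x G T σ t`: otherwise some `l ∈ C` would have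
`asg x (update σ t (p, (σ t).2)) l.1 = l.2`, contradicting `viol_neighbour`. So `1 ≤ nb (loc x G T σ t) (σ t)`.
`sum_nonhonest_le`: for `g : Fin B → Fin w` put `T g = univ.filter (fun t => (g t : ℕ) = 0)`. Let `A = good x G`,
`Lg = log (card St / card A)`. By `sum_nb_le` for every `T g`, summed over the `w ^ B` functions `g`:
`∑ g, ∑ σ ∈ A, ∑ t ∈ T g, nb (loc x G (T g) σ t) (σ t) * log 2 ≤ w^B * ((k-1) * (card A * Lg))`.
On the other side, for `σ ∈ A` and `t` not honest with the clause `C` of `nb_pos`, the set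
`S` = blocks `s ≠ t` touched by `C` has at most `w - 1` elements (`card_touch_le`, `C.card ≤ w`, and `t` itself is
touched since `(mis x σ t, false) ∈ C`), and for every `g` with `g t = 0`, `g s ≠ 0` (`s ∈ S`) the term
`nb (loc x G (T g) σ t) (σ t)` is `≥ 1`; there are `≥ w^B / (3 w)` such `g` (`card_fun_ge`). Exchanging the sums,
`∑ g, ∑ σ ∈ A, ∑ t ∈ T g, nb ≥ ∑ σ ∈ A, ∑ t not honest, w^B / (3 w)`. Divide by `w^B / (3 w) > 0`.
-/

set_option autoImplicit false

namespace H40.SP

variable {V : Type} [DecidableEq V] {B k b : ℕ} {x : Fin B → Fin k → Fin b → V} {G : Fml V}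

theorem nb_pos (hx : Inj x) (hG : ∀ a, Sat G a → Sat (hard x) a) {σ : St B k b}
    (hσ : σ ∈ good x G) {t : Fin B} (ht : ¬ Honest x G σ t) :
    ∃ C ∈ G, Touch x C t ∧ ∀ T : Finset (Fin B), (∀ s ∈ T, s ≠ t → ¬ Touch x C s) →
      1 ≤ nb (loc x G T σ t) (σ t) := by
  obtain ⟨C, hC, hv⟩ := exists_crit hx hG σ t
  have hm := crit_mem hσ hC hv
  refine ⟨C, hC, ⟨_, hm, (σ t).1, (σ t).2 (σ t).1, rfl⟩, ?_⟩
  intro T hT
  have hp : ∃ p, (x t p ((σ t).2 p), false) ∉ C := by
    by_contra hcon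
    push Not at hcon
    exact ht ⟨C, hC, hv, hcon⟩
  obtain ⟨p, hp⟩ := hp
  have hpj : p ≠ (σ t).1 := by
    intro h
    apply hp
    rw [h]
    exact hm
  have hvn := viol_neighbour hx hv hp hpj
  unfold nb
  refine Finset.card_pos.2 ⟨p, ?_⟩
  rw [Finset.mem_filter]
  refine ⟨Finset.mem_univ _, hpj, ?_⟩
  intro hmem
  simp only [loc, Finset.mem_filter] at hmem
  have hmem' := hmem.2
  obtain ⟨l, hl, hl2⟩ := hmem' C hC hT
  exact hvn l hl hl2

open Classical in
private lemma Lk_cnt (hx : Inj x) {w : ℕ} (hw1 : 1 ≤ w) (hw : Width w G)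
    (hG : ∀ a, Sat G a → Sat (hard x) a) {σ : St B k b} (hσ : σ ∈ good x G) {t : Fin B}
    (ht : ¬ Honest x G σ t) :
    (w : ℝ) ^ B ≤ 3 * w * ∑ g : Fin B → Fin w, (if (g t : ℕ) = 0 then
      (nb (loc x G (Finset.univ.filter (fun s => (g s : ℕ) = 0)) σ t) (σ t) : ℝ) else 0) := by
  obtain ⟨C, hC, htouch, hnb⟩ := nb_pos hx hG hσ ht
  set S : Finset (Fin B) := Finset.univ.filter (fun s => s ≠ t ∧ Touch x C s) with hS
  have htS : t ∉ S := by
    rw [hS, Finset.mem_filter]
    rintro ⟨-, h, -⟩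
    exact h rfl
  have hcard : S.card ≤ w - 1 := by
    have h1 : insert t S ⊆ Finset.univ.filter (fun s : Fin B => Touch x C s) := by
      intro s hs
      rw [Finset.mem_insert] at hs
      rw [Finset.mem_filter]
      rcases hs with rfl | hs
      · exact ⟨Finset.mem_univ _, htouch⟩
      · rw [hS, Finset.mem_filter] at hs
        exact ⟨Finset.mem_univ _, hs.2.2⟩
    have h2 := Finset.card_le_card h1
    rw [Finset.card_insert_of_notMem htS] at h2
    have h3 := card_touch_le hx C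
    have h4 := hw C hC
    omega
  refine (card_fun_ge hw1 t S htS hcard).trans ?_
  refine mul_le_mul_of_nonneg_left ?_ (by positivity)
  rw [Finset.card_filter]
  push_cast
  refine Finset.sum_le_sum fun g _ => ?_
  split_ifs with h1 h2 h2
  · have h3 : 1 ≤ nb (loc x G (Finset.univ.filter (fun s => (g s : ℕ) = 0)) σ t) (σ t) := by
      refine hnb _ ?_
      intro s hs hst hT
      rw [Finset.mem_filter] at hs
      exact h1.2 s (by rw [hS, Finset.mem_filter]; exact ⟨Finset.mem_univ _, hst, hT⟩) hs.2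
    exact_mod_cast h3
  · exact absurd h1.1 h2
  · exact Nat.cast_nonneg _
  · exact le_refl _

open Classical in
theorem sum_nonhonest_le (hx : Inj x) (hk : 2 ≤ k) {w : ℕ} (hkw : k ≤ w) (hw : Width w G)
    (hG : ∀ a, Sat G a → Sat (hard x) a) (hA : (good x G).Nonempty) :
    ∑ σ ∈ good x G, ((Finset.univ.filter (fun t => ¬ Honest x G σ t)).card : ℝ) * Real.log 2 ≤
      3 * w * (((k : ℝ) - 1) * ((good x G).card *
        Real.log ((Fintype.card (St B k b) : ℝ) / (good x G).card))) := by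
  have hw1 : 1 ≤ w := by omega
  have hwR : (0 : ℝ) < w := by exact_mod_cast hw1
  have hwB : (0 : ℝ) < (w : ℝ) ^ B := pow_pos hwR B
  set U : ℝ := ((k : ℝ) - 1) * ((good x G).card *
        Real.log ((Fintype.card (St B k b) : ℝ) / (good x G).card)) with hU
  have hup : ∑ g : Fin B → Fin w, ∑ σ ∈ good x G,
      ∑ t ∈ Finset.univ.filter (fun s => (g s : ℕ) = 0),
        (nb (loc x G (Finset.univ.filter (fun s => (g s : ℕ) = 0)) σ t) (σ t) : ℝ) * Real.log 2
      ≤ (w : ℝ) ^ B * U := by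
    have h1 : ∀ g ∈ (Finset.univ : Finset (Fin B → Fin w)), ∑ σ ∈ good x G,
        ∑ t ∈ Finset.univ.filter (fun s => (g s : ℕ) = 0),
          (nb (loc x G (Finset.univ.filter (fun s => (g s : ℕ) = 0)) σ t) (σ t) : ℝ) * Real.log 2
        ≤ U := fun g _ => sum_nb_le hk (Finset.univ.filter (fun s => (g s : ℕ) = 0)) hA
    have h2 := Finset.sum_le_card_nsmul _ _ _ h1
    rw [nsmul_eq_mul, Finset.card_univ, Fintype.card_fun, Fintype.card_fin, Fintype.card_fin] at h2
    push_cast at h2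
    exact h2
  have hlow : ∀ σ ∈ good x G,
      (w : ℝ) ^ B * ((Finset.univ.filter (fun t => ¬ Honest x G σ t)).card : ℝ)
        ≤ 3 * w * ∑ g : Fin B → Fin w, ∑ t ∈ Finset.univ.filter (fun s => (g s : ℕ) = 0),
          (nb (loc x G (Finset.univ.filter (fun s => (g s : ℕ) = 0)) σ t) (σ t) : ℝ) := by
    intro σ hσ
    have h1 : ∀ t ∈ Finset.univ.filter (fun t => ¬ Honest x G σ t), (w : ℝ) ^ B ≤
        3 * w * ∑ g : Fin B → Fin w, (if (g t : ℕ) = 0 then
          (nb (loc x G (Finset.univ.filter (fun s => (g s : ℕ) = 0)) σ t) (σ t) : ℝ) else 0) :=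
      fun t ht => Lk_cnt hx hw1 hw hG hσ (Finset.mem_filter.1 ht).2
    have h2 := Finset.card_nsmul_le_sum _ _ _ h1
    rw [nsmul_eq_mul, mul_comm] at h2
    refine h2.trans ?_
    rw [← Finset.mul_sum]
    refine mul_le_mul_of_nonneg_left ?_ (by positivity)
    rw [Finset.sum_comm]
    refine Finset.sum_le_sum fun g _ => ?_
    rw [Finset.sum_filter (fun s => (g s : ℕ) = 0)]
    refine Finset.sum_le_sum_of_subset_of_nonneg (Finset.filter_subset _ _) fun t _ _ => ?_
    split_ifs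
    · exact Nat.cast_nonneg _
    · exact le_refl _
  have hlog : 0 ≤ Real.log 2 := Real.log_nonneg (by norm_num)
  refine le_of_mul_le_mul_left ?_ hwB
  calc (w : ℝ) ^ B * ∑ σ ∈ good x G,
        ((Finset.univ.filter (fun t => ¬ Honest x G σ t)).card : ℝ) * Real.log 2
      = ∑ σ ∈ good x G, ((w : ℝ) ^ B *
        ((Finset.univ.filter (fun t => ¬ Honest x G σ t)).card : ℝ)) * Real.log 2 := by
        rw [Finset.mul_sum]
        refine Finset.sum_congr rfl fun σ _ => ?_
        ring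
    _ ≤ ∑ σ ∈ good x G, (3 * w * ∑ g : Fin B → Fin w,
          ∑ t ∈ Finset.univ.filter (fun s => (g s : ℕ) = 0),
          (nb (loc x G (Finset.univ.filter (fun s => (g s : ℕ) = 0)) σ t) (σ t) : ℝ))
            * Real.log 2 :=
        Finset.sum_le_sum fun σ hσ => mul_le_mul_of_nonneg_right (hlow σ hσ) hlog
    _ = 3 * w * ∑ g : Fin B → Fin w, ∑ σ ∈ good x G,
      ∑ t ∈ Finset.univ.filter (fun s => (g s : ℕ) = 0),
        (nb (loc x G (Finset.univ.filter (fun s => (g s : ℕ) = 0)) σ t) (σ t) : ℝ)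
          * Real.log 2 := by
        rw [Finset.sum_comm (s := (Finset.univ : Finset (Fin B → Fin w))), Finset.mul_sum]
        refine Finset.sum_congr rfl fun σ _ => ?_
        rw [mul_assoc, Finset.sum_mul]
        congr 1
        refine Finset.sum_congr rfl fun g _ => ?_
        rw [Finset.sum_mul]
    _ ≤ 3 * w * ((w : ℝ) ^ B * U) := mul_le_mul_of_nonneg_left hup (by positivity)
    _ = (w : ℝ) ^ B * (3 * w * U) := by ring

end H40.SP
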