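import Pool.Agent.H40.SP.La

/-!
# Row Lm: honest blocks and served transversals

PROOF. `card_srv_le`: for `(t, u) ∈ srv x G` choose `C ∈ G` with `Srv x C t u`. The choice is injective: if `C`
serves `(t, u)` and `(t', u')` and `t ≠ t'`, then by the third condition for `(t, u)` with `s = t'` there is `q`
with `(x t' q i, false) ∉ C` for all `i`, contradicting the first condition for `(t', u')`
(`(x t' q (u' q), false) ∈ C`). So `t = t'`, and `u q = u' q` by the first condition for `u` and the second for
`u'` (`(x t q (u q), false) ∈ C → u q = u' q`). `Finset.card_le_card_of_injOn`.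
`srv_of_honest`: `C` from `Honest`. First condition: given. Second: if `(x t q i, false) ∈ C` then
`flip x σ t (x t q i) ≠ false` (`Viol`), so `= true`, and `flip_var` with `s = t` gives `i = (σ t).2 q` in both
cases. Third: for `s ≠ t` take `q = (σ s).1`: if `(x s q i, false) ∈ C` then `flip x σ t (x s q i) = true`, and
`flip_var` gives `q ≠ (σ s).1` or `s = t`, a contradiction.
-/

set_option autoImplicit false

namespace H40.SP

variable {V : Type} {B k b : ℕ} {x : Fin B → Fin k → Fin b → V} {G : Fml V}

theorem card_srv_le (x : Fin B → Fin k → Fin b → V) (G : Fml V) : (srv x G).card ≤ G.card := by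
  classical
  apply Finset.card_le_card_of_forall_subsingleton (fun p C => Srv x C p.1 p.2)
  · intro p hp
    exact (Finset.mem_filter.1 hp).2
  · intro C _ p hp p' hp'
    obtain ⟨t, u⟩ := p
    obtain ⟨t', u'⟩ := p'
    have h1 : Srv x C t u := hp.2
    have h2 : Srv x C t' u' := hp'.2
    have ht : t = t' := by
      by_contra hne
      obtain ⟨q, hq⟩ := h1.2.2 t' (fun h => hne h.symm)
      exact hq _ (h2.1 q)
    subst ht
    have hu : u = u' := by
      funext q
      exact h2.2.1 q (u q) (h1.1 q)
    rw [hu]

theorem srv_of_honest (hx : Inj x) {σ : St B k b} {t : Fin B} (h : Honest x G σ t) :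
    (t, (σ t).2) ∈ srv x G := by
  classical
  obtain ⟨C, hC, hv, hq⟩ := h
  have hflip : ∀ s q i, (x s q i, false) ∈ C → flip x σ t (x s q i) = true := by
    intro s q i hm
    have h1 := hv _ hm
    simpa using h1
  refine Finset.mem_filter.2 ⟨Finset.mem_univ _, C, hC, hq, ?_, ?_⟩
  · intro q i hm
    rcases (flip_var hx σ t t q i).1 (hflip t q i hm) with h1 | h1
    · exact h1.2
    · rw [h1.2.1]
      exact h1.2.2
  · intro s hs
    refine ⟨(σ s).1, fun i hm => ?_⟩
    rcases (flip_var hx σ t s _ i).1 (hflip s _ i hm) with h1 | h1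
    · exact h1.1 rfl
    · exact hs h1.1

end H40.SP
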