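import Pool.Agent.H40.SP.Lg
import Pool.Agent.H40.SP.Lh
import Pool.Agent.H40.SP.Defs

/-!
# Row Ln: few blocks meet a small set of transversals

PROOF. Put `P_t = {u : (t, u) ∈ P}`, so `∑ t, card P_t = card P`, and
`h t σ = (1 + if (t, (σ t).2) ∈ P then 1 else 0) / (1 + card P_t / b^k)`. Then `h t` depends only on `σ t`, and
`∑ ω, h t (update σ t ω) = card (Blk k b)`: indeed `card (Blk k b) = k b^k`, and
`∑ (j,u), (1 + [u ∈ P_t]) = k (b^k + card P_t)`. `prod_lemma` (row Lg, with `T = univ`) gives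
`∑ σ, ∏ t, (1 + [(t, (σ t).2) ∈ P]) ≤ card St * ∏ t, (1 + card P_t / b^k) ≤ card St * exp (card P / b^k)`
(`Real.add_one_le_exp`, `Real.exp_sum`). (Alternatively `Finset.prod_univ_sum` directly.)
With `W σ = ∏ t, (1 + [..])`, a positive real, `∑ σ ∈ A, W σ ≤ X := card St * exp (card P / b^k)`, and `sum_log_le`
(row Lh): `∑ σ ∈ A, log (W σ) ≤ card A * log (X / card A) = card A * (log (card St / card A) + card P / b^k)`
(`card St > 0`, `card A > 0`). Finally `log (W σ) = (number of t with (t, (σ t).2) ∈ P) * log 2`.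
-/

set_option autoImplicit false

namespace H40.SP

variable {B k b : ℕ}

open Classical in
/-- The factor of the block `t`. -/
noncomputable def lnw (P : Finset (Fin B × (Fin k → Fin b))) (t : Fin B) (ω : Blk k b) : ℝ :=
  if (t, ω.2) ∈ P then 2 else 1

open Classical in
/-- The members of `P` in the block `t`. -/
noncomputable def lnP (P : Finset (Fin B × (Fin k → Fin b))) (t : Fin B) :
    Finset (Fin k → Fin b) :=
  Finset.univ.filter (fun u => (t, u) ∈ P)

theorem lnw_pos (P : Finset (Fin B × (Fin k → Fin b))) (t : Fin B) (ω : Blk k b) :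
    0 < lnw P t ω := by
  unfold lnw
  split_ifs <;> norm_num

theorem sum_lnP (P : Finset (Fin B × (Fin k → Fin b))) :
    ∑ t, (lnP P t).card = P.card := by
  classical
  rw [Finset.card_eq_sum_card_fiberwise (f := Prod.fst) (t := Finset.univ)
    (fun p _ => Finset.mem_coe.2 (Finset.mem_univ _))]
  refine Finset.sum_congr rfl fun t _ => ?_
  refine Finset.card_bij (fun u _ => (t, u)) ?_ ?_ ?_
  · intro u hu
    simp only [lnP, Finset.mem_filter, Finset.mem_univ, true_and] at hu
    simp [hu]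
  · intro u _ v _ h
    exact (Prod.mk.inj h).2
  · intro p hp
    rw [Finset.mem_filter] at hp
    obtain ⟨h1, h2⟩ := hp
    refine ⟨p.2, ?_, ?_⟩
    · simp only [lnP, Finset.mem_filter, Finset.mem_univ, true_and]
      rw [← h2]
      exact h1
    · rw [← h2]

theorem sum_lnw (P : Finset (Fin B × (Fin k → Fin b))) (t : Fin B) :
    ∑ ω : Blk k b, lnw P t ω = (k : ℝ) * ((b : ℝ) ^ k + (lnP P t).card) := by
  classical
  rw [Fintype.sum_prod_type]
  have h1 : ∀ j : Fin k, ∑ u : Fin k → Fin b, lnw P t (j, u) =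
      (b : ℝ) ^ k + (lnP P t).card := by
    intro j
    have h2 : ∀ u : Fin k → Fin b, lnw P t (j, u) = 1 + if (t, u) ∈ P then 1 else 0 := by
      intro u
      unfold lnw
      by_cases h : (t, u) ∈ P
      · simp only [h, if_true]; norm_num
      · simp only [h, if_false]; norm_num
    rw [Finset.sum_congr rfl fun u _ => h2 u, Finset.sum_add_distrib]
    congr 1
    · simp
    · rw [Finset.sum_boole]
      rfl
  rw [Finset.sum_congr rfl fun j _ => h1 j, Finset.sum_const, Finset.card_univ,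
    Fintype.card_fin, nsmul_eq_mul]

theorem sum_prod_lnw_le (hk : 0 < k) (hb : 0 < b) (P : Finset (Fin B × (Fin k → Fin b))) :
    ∑ σ : St B k b, ∏ t, lnw P t (σ t) ≤
      (Fintype.card (St B k b) : ℝ) * Real.exp (P.card / (b : ℝ) ^ k) := by
  classical
  have hb0 : (0 : ℝ) < (b : ℝ) ^ k := by
    have : (0 : ℝ) < (b : ℝ) := by exact_mod_cast hb
    positivity
  have hk0 : (0 : ℝ) < (k : ℝ) := by exact_mod_cast hk
  have h1 : ∑ σ : St B k b, ∏ t, lnw P t (σ t) = ∏ t : Fin B, ∑ ω : Blk k b, lnw P t ω := by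
    rw [Finset.prod_univ_sum, Fintype.piFinset_univ]
  have h2 : (Fintype.card (St B k b) : ℝ) = ∏ _t : Fin B, ((k : ℝ) * (b : ℝ) ^ k) := by
    rw [Finset.prod_const, Finset.card_univ, Fintype.card_fin]
    simp
  have h3 : Real.exp (P.card / (b : ℝ) ^ k) =
      ∏ t : Fin B, Real.exp ((lnP P t).card / (b : ℝ) ^ k) := by
    rw [← Real.exp_sum, ← Finset.sum_div]
    congr 2
    exact_mod_cast (sum_lnP P).symm
  rw [h1, h2, h3, ← Finset.prod_mul_distrib]
  refine Finset.prod_le_prod (fun t _ => Finset.sum_nonneg fun ω _ => (lnw_pos P t ω).le)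
    fun t _ => ?_
  rw [sum_lnw]
  have h4 := Real.add_one_le_exp ((lnP P t).card / (b : ℝ) ^ k)
  have h5 : (k : ℝ) * ((b : ℝ) ^ k + (lnP P t).card) =
      (k : ℝ) * (b : ℝ) ^ k * ((lnP P t).card / (b : ℝ) ^ k + 1) := by
    field_simp
    ring
  rw [h5]
  exact mul_le_mul_of_nonneg_left h4 (by positivity)

open Classical in
theorem sum_srv_le (hk : 0 < k) (hb : 0 < b) (P : Finset (Fin B × (Fin k → Fin b)))
    (A : Finset (St B k b)) (hA : A.Nonempty) :
    ∑ σ ∈ A, ((Finset.univ.filter (fun t => (t, (σ t).2) ∈ P)).card : ℝ) * Real.log 2 ≤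
      A.card * (Real.log ((Fintype.card (St B k b) : ℝ) / A.card) + P.card / (b : ℝ) ^ k) := by
  have hX : ∑ σ ∈ A, ∏ t, lnw P t (σ t) ≤
      (Fintype.card (St B k b) : ℝ) * Real.exp (P.card / (b : ℝ) ^ k) := by
    refine le_trans ?_ (sum_prod_lnw_le hk hb P)
    exact Finset.sum_le_sum_of_subset_of_nonneg (Finset.subset_univ A)
      fun σ _ _ => Finset.prod_nonneg fun t _ => (lnw_pos P t (σ t)).le
  have h1 := sum_log_le A hA (fun σ => ∏ t, lnw P t (σ t))
    (fun σ _ => Finset.prod_pos fun t _ => lnw_pos P t (σ t)) hX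
  have hA0 : (0 : ℝ) < A.card := by exact_mod_cast hA.card_pos
  have hS0 : (0 : ℝ) < (Fintype.card (St B k b) : ℝ) := by
    obtain ⟨σ, _⟩ := hA
    exact_mod_cast Fintype.card_pos_iff.2 ⟨σ⟩
  have h2 : Real.log ((Fintype.card (St B k b) : ℝ) * Real.exp (P.card / (b : ℝ) ^ k) / A.card) =
      Real.log ((Fintype.card (St B k b) : ℝ) / A.card) + P.card / (b : ℝ) ^ k := by
    rw [mul_div_right_comm, Real.log_mul (by positivity) (Real.exp_pos _).ne', Real.log_exp]
  rw [h2] at h1
  refine le_trans (le_of_eq ?_) h1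
  refine Finset.sum_congr rfl fun σ _ => ?_
  rw [Real.log_prod (fun t _ => (lnw_pos P t (σ t)).ne')]
  have h3 : ∀ t : Fin B, Real.log (lnw P t (σ t)) =
      if (t, (σ t).2) ∈ P then Real.log 2 else 0 := by
    intro t
    unfold lnw
    by_cases h : (t, (σ t).2) ∈ P
    · simp only [h, if_true]
    · simp only [h, if_false, Real.log_one]
  rw [Finset.sum_congr rfl fun t _ => h3 t, ← Finset.sum_filter, Finset.sum_const, nsmul_eq_mul]

end H40.SP
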