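import Pool.Agent.H40.SP.Lk
import Pool.Agent.H40.SP.Lm
import Pool.Agent.H40.SP.Ln

/-!
# Row Lo: the core of the lower bound

PROOF. Put `A = good x G`, `a = card A > 0`, `Λ = log (card St / a) ≥ 0` (as `a ≤ card St`).
For every `σ`, `B = #{t not honest} + #{t honest}` (`Finset.filter_card_add_filter_neg_card_eq_card`), and
`#{t honest} ≤ #{t : (t, (σ t).2) ∈ srv x G}` (`srv_of_honest`). Summing over `A` and multiplying by `log 2`, with
`sum_nonhonest_le`, `sum_srv_le` (`P = srv x G`) and `card_srv_le`: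
`a B log 2 ≤ 3 w (k - 1) a Λ + a (Λ + |G| / b^k)`. Divide by `a`. From `hd`: `w k Λ ≤ B log 2 / 16`, so
`3 w (k - 1) Λ ≤ 3 w k Λ ≤ (3/16) B log 2`, and `Λ ≤ w k Λ / 4 ≤ B log 2 / 64` (`w k ≥ 4`). Hence
`|G| / b^k ≥ (1 - 3/16 - 1/64) B log 2 = (51/64) B log 2 ≥ B / 2`, since `log 2 > 0.69` (`Real.log_two_gt_d9`) and
`51/64 * 0.69 > 0.5`.
-/

set_option autoImplicit false

namespace H40.SP

variable {V : Type} [DecidableEq V] {B k b : ℕ} {x : Fin B → Fin k → Fin b → V} {G : Fml V}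

theorem core (hx : Inj x) (hk : 2 ≤ k) (hb : 1 ≤ b) {w : ℕ} (hkw : k ≤ w) (hw : Width w G)
    (hG : ∀ a, Sat G a → Sat (hard x) a) (hA : (good x G).Nonempty)
    (hd : 16 * (w * k * Real.log ((Fintype.card (St B k b) : ℝ) / (good x G).card)) ≤
      B * Real.log 2) : (b : ℝ) ^ k * B / 2 ≤ G.card := by
  classical
  have hbR : (0 : ℝ) < (b : ℝ) ^ k := by
    have : (0 : ℝ) < (b : ℝ) := by exact_mod_cast (by omega : 0 < b)
    positivity
  have ha : (0 : ℝ) < ((good x G).card : ℝ) := by exact_mod_cast Finset.card_pos.2 hA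
  have ha' : ((good x G).card : ℝ) ≤ (Fintype.card (St B k b) : ℝ) := by
    exact_mod_cast Finset.card_le_univ _
  obtain ⟨Λ, hΛ⟩ : ∃ Λ : ℝ, Λ = Real.log ((Fintype.card (St B k b) : ℝ) / (good x G).card) :=
    ⟨_, rfl⟩
  have hΛ0 : 0 ≤ Λ := by
    rw [hΛ]
    exact Real.log_nonneg ((one_le_div ha).2 ha')
  have h1 := sum_nonhonest_le hx hk hkw hw hG hA
  have h2 := sum_srv_le (by omega) (by omega) (srv x G) (good x G) hA
  have h3 : ((srv x G).card : ℝ) ≤ G.card := by exact_mod_cast card_srv_le x G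
  rw [← hΛ] at h1 h2 hd
  have hlog2 : 0.6931471803 < Real.log 2 := Real.log_two_gt_d9
  have hlog0 : 0 < Real.log 2 := by linarith
  have h4 : ∀ σ ∈ good x G, (B : ℝ) * Real.log 2 ≤
      ((Finset.univ.filter (fun t => ¬ Honest x G σ t)).card : ℝ) * Real.log 2 +
      ((Finset.univ.filter (fun t => (t, (σ t).2) ∈ srv x G)).card : ℝ) * Real.log 2 := by
    intro σ _
    rw [← add_mul]
    refine mul_le_mul_of_nonneg_right ?_ hlog0.le
    have e1 := Finset.card_filter_add_card_filter_not (s := (Finset.univ : Finset (Fin B)))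
      (fun t => Honest x G σ t)
    rw [Finset.card_univ, Fintype.card_fin] at e1
    have e2 : (Finset.univ.filter (fun t => Honest x G σ t)).card ≤
        (Finset.univ.filter (fun t => (t, (σ t).2) ∈ srv x G)).card := by
      refine Finset.card_le_card fun t ht => ?_
      rw [Finset.mem_filter] at ht ⊢
      exact ⟨ht.1, srv_of_honest hx ht.2⟩
    have e3 : B ≤ (Finset.univ.filter (fun t => ¬ Honest x G σ t)).card +
        (Finset.univ.filter (fun t => (t, (σ t).2) ∈ srv x G)).card := by omega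
    exact_mod_cast e3
  have h5 := Finset.sum_le_sum h4
  rw [Finset.sum_const, nsmul_eq_mul, Finset.sum_add_distrib] at h5
  have h6 : ((good x G).card : ℝ) * ((B : ℝ) * Real.log 2) ≤
      ((good x G).card : ℝ) * (3 * w * (((k : ℝ) - 1) * Λ) + (Λ + G.card / (b : ℝ) ^ k)) := by
    have h7 : ((srv x G).card : ℝ) / (b : ℝ) ^ k ≤ G.card / (b : ℝ) ^ k :=
      div_le_div_of_nonneg_right h3 hbR.le
    have h8 := mul_le_mul_of_nonneg_left h7 ha.le
    nlinarith [h5, h1, h2, h8]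
  have h9 := le_of_mul_le_mul_left h6 ha
  have hwR : (2 : ℝ) ≤ (w : ℝ) := by exact_mod_cast (by omega : 2 ≤ w)
  have hkR : (2 : ℝ) ≤ (k : ℝ) := by exact_mod_cast hk
  have hwk : (4 : ℝ) ≤ (w : ℝ) * k := by nlinarith
  have hwkΛ : 4 * Λ ≤ (w : ℝ) * k * Λ := mul_le_mul_of_nonneg_right hwk hΛ0
  have hwΛ : 0 ≤ (w : ℝ) * Λ := by positivity
  have h10 : 3 * (w : ℝ) * (((k : ℝ) - 1) * Λ) ≤ 3 * ((w : ℝ) * k * Λ) := by nlinarith
  have hB0 : (0 : ℝ) ≤ (B : ℝ) := Nat.cast_nonneg _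
  have h11 : (B : ℝ) * 0.6931471803 ≤ (B : ℝ) * Real.log 2 :=
    mul_le_mul_of_nonneg_left hlog2.le hB0
  have h12 : (B : ℝ) / 2 ≤ G.card / (b : ℝ) ^ k := by
    have h13 : (B : ℝ) * Real.log 2 ≤ 3 * ((w : ℝ) * k * Λ) + (Λ + G.card / (b : ℝ) ^ k) := by
      linarith
    have h14 : 16 * ((w : ℝ) * k * Λ) ≤ B * Real.log 2 := hd
    linarith
  rw [le_div_iff₀ hbR] at h12
  linarith

end H40.SP
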