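import Pool.Agent.H40.SP.Lo

/-!
# Row Lp: the hard formula is not sparse

PROOF. Let `𝒢` be as in `Sparse`. Every state `σ` has `Sat (hard x) (asg x σ)` (`sat_hard`), so `σ ∈ good x G` for some
`G ∈ 𝒢`. Hence `card St ≤ ∑ G ∈ 𝒢, card (good x G)` (`univ ⊆ 𝒢.biUnion (good x)`,
`Finset.card_biUnion_le`), and `card St > 0` (`0 < k`, `0 < b`; `Fintype.card_pos`). So there is `G ∈ 𝒢` with
`card St ≤ card 𝒢 * card (good x G)` (`Finset.exists_le_of_sum_le` or by contradiction), in particular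
`good x G` is nonempty, and `card St / card (good x G) ≤ card 𝒢 ≤ m ≤ 2 ^ (B / (16 w k))`, so
`16 w k log (card St / card (good x G)) ≤ B log 2` (`Real.log_le_log`, `Real.log_rpow`). `G` implies `hard x` (the
right to left part of the equivalence). `core` gives `b^k B / 2 ≤ G.card ≤ L`, contradiction.
-/

set_option autoImplicit false

namespace H40.SP

variable {V : Type} [DecidableEq V] {B k b : ℕ} {x : Fin B → Fin k → Fin b → V}

theorem not_sparse_hard (hx : Inj x) (hk : 2 ≤ k) (hb : 1 ≤ b) {w : ℕ} (hkw : k ≤ w) {m L : ℝ}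
    (hm : m ≤ (2 : ℝ) ^ ((B : ℝ) / (16 * (w * k)))) (hL : L < (b : ℝ) ^ k * B / 2) :
    ¬ Sparse (hard x) w m L := by
  rintro ⟨𝒢, hcard, hG, hiff⟩
  have hkne : NeZero k := ⟨by omega⟩
  have hbne : NeZero b := ⟨by omega⟩
  have hSt : 0 < Fintype.card (St B k b) := Fintype.card_pos
  have hcover : ∀ σ : St B k b, ∃ G ∈ 𝒢, σ ∈ good x G := by
    intro σ
    obtain ⟨G, hG1, hG2⟩ := (hiff (asg x σ)).1 (sat_hard hx σ)
    refine ⟨G, hG1, ?_⟩
    unfold good
    simp only [Finset.mem_filter, Finset.mem_univ, true_and]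
    exact hG2
  have h1 : Fintype.card (St B k b) ≤ ∑ G ∈ 𝒢, (good x G).card := by
    have h2 : (Finset.univ : Finset (St B k b)) ⊆ 𝒢.biUnion (good x) := by
      intro σ _
      obtain ⟨G, h3, h4⟩ := hcover σ
      exact Finset.mem_biUnion.2 ⟨G, h3, h4⟩
    exact (Finset.card_le_card h2).trans Finset.card_biUnion_le
  have h5 : ∃ G ∈ 𝒢, Fintype.card (St B k b) ≤ 𝒢.card * (good x G).card := by
    by_contra hcon
    push Not at hcon
    have hne : 𝒢.Nonempty := by
      obtain ⟨σ⟩ : Nonempty (St B k b) := Fintype.card_pos_iff.1 hSt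
      obtain ⟨G, h3, -⟩ := hcover σ
      exact ⟨G, h3⟩
    have h6 : ∑ G ∈ 𝒢, 𝒢.card * (good x G).card < ∑ _G ∈ 𝒢, Fintype.card (St B k b) :=
      Finset.sum_lt_sum_of_nonempty hne hcon
    rw [← Finset.mul_sum, Finset.sum_const, smul_eq_mul] at h6
    exact absurd (Nat.mul_le_mul_left 𝒢.card h1) (not_le.2 h6)
  obtain ⟨G, hG1, hG2⟩ := h5
  have hapos : 0 < (good x G).card := by
    rcases Nat.eq_zero_or_pos (good x G).card with h | h
    · rw [h, mul_zero] at hG2
      omega
    · exact h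
  have hk0 : (0 : ℝ) < k := by exact_mod_cast (by omega : 0 < k)
  have hw0 : (0 : ℝ) < w := by exact_mod_cast (by omega : 0 < w)
  have ha' : (0 : ℝ) < (good x G).card := by exact_mod_cast hapos
  have hSt' : (0 : ℝ) < Fintype.card (St B k b) := by exact_mod_cast hSt
  have hratio : (Fintype.card (St B k b) : ℝ) / (good x G).card ≤
      (2 : ℝ) ^ ((B : ℝ) / (16 * (w * k))) := by
    rw [div_le_iff₀ ha']
    calc (Fintype.card (St B k b) : ℝ) ≤ 𝒢.card * (good x G).card := by exact_mod_cast hG2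
      _ ≤ _ := mul_le_mul_of_nonneg_right (hcard.trans hm) ha'.le
  have hlog := Real.log_le_log (div_pos hSt' ha') hratio
  rw [Real.log_rpow (by norm_num)] at hlog
  have hd : 16 * (w * k * Real.log ((Fintype.card (St B k b) : ℝ) / (good x G).card)) ≤
      B * Real.log 2 := by
    calc 16 * (w * k * Real.log ((Fintype.card (St B k b) : ℝ) / (good x G).card)) ≤
        16 * (w * k * ((B : ℝ) / (16 * (w * k)) * Real.log 2)) := by gcongr
      _ = B * Real.log 2 := by field_simp
  have hcore := core hx hk hb hkw (hG G hG1).1 (fun a ha => (hiff a).2 ⟨G, hG1, ha⟩)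
    (Finset.card_pos.1 hapos) hd
  have h8 := (hG G hG1).2
  linarith

end H40.SP
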