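import Pool.Agent.H40.SP.Defs
import Pool.Agent.H14.EquivK

/-!
# From short clauses to 3-CNFs
-/

set_option autoImplicit false

namespace H40.SP

open Pool.Agent.H14.ETH

/-- Make a 3-CNF of a CNF with clauses of length at most `r + 3`: in each step the clauses of maximal
length are split. -/
def to3 : ℕ → Nd1 → Nd1
  | 0, N => N
  | r + 1, N => to3 r (toK (r + 3) N.1 N.2)

/-- The output at a leaf. -/
def outQ3 (r : ℕ) (N : Nd1) : List Sym :=
  if deadL N.2 then encodeCNF 0 [[]] else encodeCNF (to3 r N).1 (to3 r N).2

end H40.SP
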