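import Pool.Agent.H40.SP.SDefs

/-!
# Row Sa: the 3-CNF

PROOF. `length_toK`: `(dedupF F).length ≤ F.length` (by induction from the definition of `dedupF` in
`Pool/Agent/H14/LFam.lean`, if not there already), `List.length_map`, and `splitKL k n L` is a flatMap over
`List.range L.length` of the lists `splitK ..`, each of length `≤ 2` (`List.length_flatMap`, or induction).
`to3_spec`: induction on `r ≥ 1` (`Nat.le_induction`), generalising `n`, `L`.
`r = 1`: `to3 1 (n, L) = toK 3 n L`, use `toK_spec (k := 3)`; the first component is `n + L.length ≤ n + 2 * L.length`.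
`r → r + 1` (`r ≥ 1`): `to3 (r + 1) (n, L) = to3 r (toK (r + 3) n L)`. `toK_spec (k := r + 3)` (clauses of length
`≤ (r + 3) + 1`) gives `IsCNF (r + 3) n' L'` with `(n', L') = toK (r + 3) n L`, so the clauses of `L'` have length
`≤ r + 3` and variables `< n'`; apply the induction hypothesis to `(n', L')`. The first component:
`(to3 r (n', L')).1 + L'.length ≤ n' + 2 ^ r * L'.length`, `n' = n + L.length`, `L'.length ≤ 2 * L.length`
(`length_toK`), `1 ≤ 2 ^ r`, hence `(to3 r (n', L')).1 + L.length ≤ n + 2 * L.length + (2 ^ r - 1) * (2 * L.length)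
= n + 2 ^ (r + 1) * L.length`.
-/

set_option autoImplicit false

namespace H40.SP

open Pool.Agent.H14.ETH

theorem Sa_dedup (L : LFam) : ∀ acc : LFam,
    (L.foldl (fun acc C => if acc.any (fun D => setEq C D) then acc else C :: acc) acc).length ≤
      acc.length + L.length := by
  induction L with
  | nil =>
    intro acc
    exact Nat.le_refl _
  | cons C L ih =>
    intro acc
    rw [List.foldl_cons, List.length_cons]
    split
    · exact (ih acc).trans (by omega)
    · refine (ih (C :: acc)).trans ?_
      rw [List.length_cons]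
      omega

theorem Sa_split (k z : ℕ) (C : List Lit) : (splitK k z C).length ≤ 2 := by
  unfold splitK
  split
  · exact (by decide : 1 ≤ 2)
  · exact Nat.le_refl _

theorem length_toK (k n : ℕ) (L : LFam) : (toK k n L).2.length ≤ 2 * L.length := by
  have h1 : (toK k n L).2 = dedupF ((splitKL k n L).map dedupC) := rfl
  have h2 : (dedupF ((splitKL k n L).map dedupC)).length ≤ ((splitKL k n L).map dedupC).length := by
    have h3 := Sa_dedup ((splitKL k n L).map dedupC) []
    rw [List.length_nil, zero_add] at h3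
    exact h3
  have h4 : (splitKL k n L).length ≤ 2 * L.length := by
    unfold splitKL
    rw [List.length_flatMap]
    refine (List.sum_le_card_nsmul _ 2 ?_).trans ?_
    · intro m hm
      obtain ⟨i, -, rfl⟩ := List.mem_map.1 hm
      exact Sa_split _ _ _
    · rw [List.length_map, List.length_range, smul_eq_mul, mul_comm]
  rw [h1]
  refine h2.trans ?_
  rw [List.length_map]
  exact h4

theorem to3_spec {r : ℕ} (hr : 1 ≤ r) {n : ℕ} {L : LFam} (hlen : ∀ C ∈ L, C.length ≤ r + 3)
    (hvar : ∀ C ∈ L, ∀ l ∈ C, l.1 < n) : IsCNF 3 (to3 r (n, L)).1 (to3 r (n, L)).2 ∧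
      (Satisfiable (to3 r (n, L)).2 ↔ Satisfiable L) ∧
      (to3 r (n, L)).1 + L.length ≤ n + 2 ^ r * L.length := by
  induction r, hr using Nat.le_induction generalizing n L with
  | base =>
    have h1 : to3 1 (n, L) = toK 3 n L := rfl
    rw [h1]
    obtain ⟨h2, h3⟩ := toK_spec (k := 3) (n := n) (le_refl 3) hlen hvar
    refine ⟨h2, h3, ?_⟩
    have h4 : (toK 3 n L).1 = n + L.length := rfl
    rw [h4]
    omega
  | succ r hr ih =>
    have h1 : to3 (r + 1) (n, L) = to3 r (toK (r + 3) n L) := rfl
    rw [h1]
    obtain ⟨h2, h3⟩ := toK_spec (k := r + 3) (n := n) (L := L) (by omega)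
      (fun C hC => (hlen C hC).trans (by omega)) hvar
    have h4 : (toK (r + 3) n L).1 = n + L.length := rfl
    have h5 := length_toK (r + 3) n L
    obtain ⟨h6, h7, h8⟩ := ih (n := (toK (r + 3) n L).1) (L := (toK (r + 3) n L).2)
      (fun C hC => (h2.1 C hC).2.1) (fun C hC => (h2.1 C hC).2.2)
    refine ⟨h6, h7.trans h3, ?_⟩
    have h9 : ((toK (r + 3) n L).1, (toK (r + 3) n L).2) = toK (r + 3) n L := rfl
    rw [h9] at h8
    obtain ⟨q, hq⟩ : ∃ q, q + 1 = 2 ^ r := ⟨2 ^ r - 1, by
      have := Nat.one_le_two_pow (n := r)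
      omega⟩
    rw [h4, ← hq] at h8
    have h10 : 2 ^ (r + 1) = 2 * (q + 1) := by rw [pow_succ, hq, mul_comm]
    rw [h10]
    have h11 : (q + 1) * (toK (r + 3) n L).2.length =
        q * (toK (r + 3) n L).2.length + (toK (r + 3) n L).2.length := by ring
    have h12 : q * (toK (r + 3) n L).2.length ≤ q * (2 * L.length) := Nat.mul_le_mul_left q h5
    have h13 : 2 * (q + 1) * L.length = q * (2 * L.length) + 2 * L.length := by ring
    rw [h11] at h8
    rw [h13]
    omega

end H40.SP
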