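import Pool.Agent.H40.SP.SDefs

/-!
# Row Sb: polynomial time

PROOF. `pTo3`: induction on `r`. `r = 0`: `to3 0 N = N`, the identity (`Poly.id` or as in `pToK`, e.g.
`Poly.fst.pair Poly.snd` up to `.congr`). Step: `to3 (r + 1) = to3 r ∘ (fun N => toK (r + 3) N.1 N.2)`, `Poly.comp` of the
induction hypothesis with `pToK (r + 3) Poly.fst Poly.snd`.
`pOutQ3`: as `pOutQK` at the end of `Pool/Agent/H14/IpzK.lean`, with `pTo3 r` instead of `pToK`.
-/

set_option autoImplicit false

namespace Pool.Agent.H83.E14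

open Pool.Agent.H14 Pool.Agent.H14.ETH Pool.Agent.H14.XCmd Turing H40.SP

theorem pTo3 (r : ℕ) : Poly (to3 r) := by
  induction r with
  | zero => exact (Poly.fst.pair Poly.snd).congr fun N => rfl
  | succ r ih => exact (ih.comp (pToK (r + 3) Poly.fst Poly.snd)).congr fun N => rfl

theorem pOutQ3 (r : ℕ) : Poly (outQ3 r) := by
  refine (Poly.cond (c := fun N : Nd1 => deadL N.2) (f := fun _ : Nd1 => encodeCNF 0 [[]])
    (g := fun N : Nd1 => encodeCNF (to3 r N).1 (to3 r N).2)
    (pDeadL Poly.snd) (Poly.const _) ?_).congr fun N => ?_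
  · exact pEncodeCNF (Poly.fst' (pTo3 r)) (Poly.snd' (pTo3 r))
  · unfold outQ3
    cases deadL N.2 <;> rfl

end Pool.Agent.H83.E14
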