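import Pool.Agent.H40.SP.Sa

/-!
# Row Sc: the cost of a leaf

PROOF. Copy of `SpK.leaf_spec` (end of `Pool/Agent/H14/IpzK.lean`) with `outQ3 r` instead of `outQK k` and `K = r + 3`.
Dead case: the same. Otherwise `hlen : ∀ C ∈ L, C.length ≤ r + 3`, `hvar` as there (no `k + 1`), use `to3_spec hr hlen hvar`
(row Sa) instead of `toK_spec`. `hL : L.length ≤ P.Kc * n` as there. Finally the first component is
`≤ n + 2 ^ r * L.length ≤ n + 2 ^ r * (P.Kc * n) = (1 + 2 ^ r * P.Kc) * n`, times `ε`, and `P.κ_le_pot` with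
`B = ε * (1 + 2 ^ r * P.Kc)`.
-/

set_option autoImplicit false

namespace H40.SP

open Pool.Agent.H14.ETH

theorem leaf_spec3 {r : ℕ} (hr : 1 ≤ r) {γ : ℝ} (P : SpK (r + 3) γ) {ε : ℝ} (hε : 0 ≤ ε) {m : ℕ}
    {N : Nd1} (h : P.Pre m N) (hl : P.leafQ N = true) : ∃ (n' : ℕ) (G : LFam),
      outQ3 r N = encodeCNF n' G ∧ IsCNF 3 n' G ∧ (Satisfiable G ↔ Satisfiable N.2) ∧
      ε * n' ≤ P.potN (ε * (1 + 2 ^ r * P.Kc)) N := by
  classical
  obtain ⟨n, L⟩ := N
  obtain ⟨h1, h2⟩ := h
  simp only at h1 h2
  subst h1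
  by_cases hd : Dead (toF L)
  · refine ⟨0, [[]], ?_, ?_, ?_, ?_⟩
    · unfold outQ3
      simp only [(deadL_iff h2.linv).2 hd, if_true]
    · refine ⟨fun C hC => ?_, by simp⟩
      rw [List.mem_singleton] at hC
      subst hC
      simp
    · constructor
      · rintro ⟨v, hv⟩
        obtain ⟨l, hl, _⟩ := hv [] (by simp)
        simp at hl
      · intro hs
        exact absurd hs (not_satisfiable_of_dead hd)
    · unfold SpK.potN
      simp only [if_pos hd]
      simp
  · have hdL : deadL L = false := by rw [← Bool.not_eq_true, deadL_iff h2.linv]; exact hd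
    have hhits : hitsAll P.W.th (rulesList (r + 3)) L = [] := by
      unfold SpK.leafQ at hl
      simpa [hdL] using hl
    have hno : ∀ c p, 1 ≤ p → p < c → c ≤ r + 3 → NoHit P.W.th c p (toF L) :=
      fun c p a b c' => h2.noHit hhits a b c'
    have hlen : ∀ C ∈ L, C.length ≤ r + 3 := by
      intro C hC
      rw [← h2.linv.card_eq hC]
      exact (h2.inv.size _ (toF_mem hC)).2
    have hvar : ∀ C ∈ L, ∀ l ∈ C, l.1 < n := by
      intro C hC l hl
      exact mem_lits.1 (h2.inv.ov _ (toF_mem hC) (List.mem_toFinset.2 hl))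
    obtain ⟨r1, r2, r3⟩ := to3_spec hr hlen hvar
    refine ⟨_, _, ?_, r1, r2, ?_⟩
    · unfold outQ3
      simp only [hdL, Bool.false_eq_true, if_false]
    · unfold SpK.potN
      simp only [if_neg hd]
      have hκ := P.κ_le_pot (B := ε * (1 + 2 ^ r * P.Kc)) h2.inv hd
      have hκ0 := P.κ_nonneg
      have hcard : L.length = ∑ i ∈ Finset.range (r + 3 + 1), num (toF L) i := by
        have h1 := wgt_eq_sum (a := fun _ => 1) (𝒞 := toF L) (k := r + 3)
          (fun C hC => (h2.inv.size C hC).2)
        unfold wgt at h1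
        simp only [one_mul, Finset.sum_const, nsmul_eq_mul, mul_one] at h1
        rw [card_toF h2.linv] at h1
        exact_mod_cast h1
      have hL : L.length ≤ P.Kc * n := by
        rw [hcard]
        unfold SpK.Kc
        rw [Finset.sum_mul]
        refine Finset.sum_le_sum fun i hi => ?_
        rw [Finset.mem_range] at hi
        split_ifs with h1
        · rw [one_mul]
          have : i = 0 ∨ i = 1 := by omega
          rcases this with rfl | rfl
          · rw [P.num_zero h2.inv]; omega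
          · exact num_one_le h2.inv.ov hd
        · exact P.W.num_le_of_noHit h2.inv (c := i) (by omega)
            (hno i (i - 1) (by omega) (by omega) (by omega))
      have h3 : (to3 r (n, L)).1 ≤ n + 2 ^ r * (P.Kc * n) :=
        ((Nat.le_add_right _ _).trans r3).trans (Nat.add_le_add_left (Nat.mul_le_mul_left _ hL) _)
      have h4 : ((to3 r (n, L)).1 : ℝ) ≤ (1 + 2 ^ r * P.Kc) * n := by
        have h5 : ((to3 r (n, L)).1 : ℝ) ≤ n + 2 ^ r * (P.Kc * n) := by exact_mod_cast h3
        linarith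
      have h5 : ε * ((to3 r (n, L)).1 : ℝ) ≤ ε * (1 + 2 ^ r * P.Kc) * n := by
        rw [mul_assoc]
        exact mul_le_mul_of_nonneg_left h4 hε
      linarith

end H40.SP
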