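import Pool.Agent.H40.SP.Sb
import Pool.Agent.H40.SP.Sc

/-!
# Row Sd: `(r + 3)`-SAT from 3-SAT

PROOF. Copy of `succ_of_self` (end of `Pool/Agent/H14/SparseK.lean`) with `k + 1` replaced by `K = r + 3`,
`B = ε * (1 + 2 ^ r * P.Kc)`, `out := outQ3 r`, `pOutQ3 r` instead of `pOutQK k`, `h3 : SolvableIn 3 ε` instead of
`SolvableIn k ε`, and `leaf_spec3 hr P hε hN hl` (row Sc) instead of `P.leaf_spec hε hk rfl hN hl`. (All the other
ingredients, `rootK (r + 3)`, `rootK_pre (by omega) P hF`, `szBK`, `step_spec`, are for general `K`.)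
-/

set_option autoImplicit false

namespace Pool.Agent.H83.E14

open Pool.Agent.H14 Pool.Agent.H14.ETH Pool.Agent.H14.ETH.SpK Pool.Agent.H14.XCmd Turing H40.SP

theorem of_three {r : ℕ} (hr : 1 ≤ r) {γ ε : ℝ} (P : SpK (r + 3) γ) (hε : 0 ≤ ε)
    (h3 : SolvableIn 3 ε) {ρ' : ℝ} (hρ : ε * (1 + 2 ^ r * P.Kc) + γ < ρ') :
    SolvableIn (r + 3) ρ' := by
  classical
  obtain ⟨M, c, hM⟩ := h3
  have hη := P.η_pos
  have hγ := P.hγ
  set C : ℝ := max c 1 with hC
  have hC1 : 1 ≤ C := le_max_right _ _
  have hcC : c ≤ C := le_max_left _ _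
  set B : ℝ := ε * (1 + 2 ^ r * P.Kc) with hB
  have hB0 : 0 ≤ B := by positivity
  set K1 : ℕ := ⌈(P.κ + (B + γ) * (r + 3)) / P.η⌉₊ with hK1
  set K2 : ℕ := ⌈(B + γ) / P.η⌉₊ with hK2
  set D : ℝ := (2 : ℝ) ^ (P.κ + (B + γ) * (r + 3)) with hD
  have hD0 : 0 < D := by positivity
  refine solvableIn_of_eval (M := M) (isLeaf := P.leafQ) (childA := P.chA) (childB := P.chB)
    (out := (outQ3 r)) (init := (rootK (r + 3))) (pLeafQK P) (pChAK P) (pChBK P) (pOutQ3 r) (pRootK (r + 3))
    (C := max C 2 * D) (ρ := B + γ)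
    (q := fun n => (szBK (r + 3) (n + (r + 3)) + (K1 + K2 * n)) +
      (n + ((r + 3 + 1) * (2 * n + 1) ^ (r + 3)) * ((r + 3) * n + 1))) ?_ ?_ hρ
  · refine (((szBK_PB (r + 3)).comp (PB.id.add (PB.const (r + 3)))).add ((PB.const K1).add
      ((PB.const K2).mul PB.id))).add (PB.id.add ((PB.const (r + 3 + 1)).mul
        ((((PB.const 2).mul PB.id).add (PB.const 1)).pow (r + 3)) |>.mul
          (((PB.const (r + 3)).mul PB.id).add (PB.const 1))))
  · intro n F hF
    have hroot : (rootK (r + 3)) (encodeCNF n F) = (n + (r + 3), initF (r + 3) n F) := by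
      unfold rootK
      rw [parse_encodeCNF]
    have hpre := rootK_pre (by omega) P hF
    have key := eval_of_pot (M := M) (isLeaf := P.leafQ) (childA := P.chA) (childB := P.chB)
      (out := (outQ3 r)) (S := szBK (r + 3) (n + (r + 3))) (P.Pre (n + (r + 3))) (P.potN B)
      (fun N => decide (Satisfiable N.2)) (η := P.η) (C := C) hη
      (fun N hN => sz_nodeK_le hN) (fun N hN => P.potN_nonneg hB0 hN) ?_ ?_ (by linarith)
      _ hpre
    · obtain ⟨t, cc, d, he, ht, hcc, hd⟩ := key
      have hans : (decide (Satisfiable (initF (r + 3) n F))) = decide (Satisfiable F) :=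
        decide_eq_decide.2 (satisfiable_initF hF)
      have hpot : P.potN B (n + (r + 3), initF (r + 3) n F) ≤ P.κ + (B + γ) * (n + (r + 3)) := by
        unfold potN
        split_ifs with hdead
        · have := P.κ_nonneg
          have : 0 ≤ (B + γ) * (n + (r + 3)) := by positivity
          linarith
        · unfold pot
          have hw : 0 ≤ wgt P.W.a (toF (initF (r + 3) n F)) :=
            Finset.sum_nonneg fun X _ => P.W.a_nonneg _
          push_cast
          linarith
      have h2pot : (2 : ℝ) ^ P.potN B (n + (r + 3), initF (r + 3) n F) ≤ D * (2 : ℝ) ^ ((B + γ) * n) := by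
        rw [hD, ← Real.rpow_add (by norm_num)]
        refine Real.rpow_le_rpow_of_exponent_le (by norm_num) ?_
        linarith
      have hX : (0 : ℝ) ≤ D * (2 : ℝ) ^ ((B + γ) * n) := by positivity
      have hlen := length_encodeCNF_le hF
      refine ⟨t, cc, d, szBK (r + 3) (n + (r + 3)), ?_, ?_, ?_, ?_, ?_, ?_⟩
      · rw [hroot]
        have e : @decide (Satisfiable F) (Classical.propDecidable _) = decide (Satisfiable F) := by
          congr
        rw [e, ← hans]
        exact he
      · calc (t : ℝ) ≤ C * (2 : ℝ) ^ P.potN B (n + (r + 3), initF (r + 3) n F) := ht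
          _ ≤ C * (D * (2 : ℝ) ^ ((B + γ) * n)) := mul_le_mul_of_nonneg_left h2pot (by linarith)
          _ ≤ max C 2 * (D * (2 : ℝ) ^ ((B + γ) * n)) :=
            mul_le_mul_of_nonneg_right (le_max_left _ _) hX
          _ = _ := by ring
      · calc (cc : ℝ) ≤ 2 * (2 : ℝ) ^ P.potN B (n + (r + 3), initF (r + 3) n F) := by linarith
          _ ≤ 2 * (D * (2 : ℝ) ^ ((B + γ) * n)) := mul_le_mul_of_nonneg_left h2pot (by linarith)
          _ ≤ max C 2 * (D * (2 : ℝ) ^ ((B + γ) * n)) :=
            mul_le_mul_of_nonneg_right (le_max_right _ _) hX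
          _ = _ := by ring
      · have h1 : (d : ℝ) ≤ K1 + K2 * n := by
          have h2 : (d : ℝ) ≤ (P.κ + (B + γ) * (n + (r + 3))) / P.η :=
            hd.trans (div_le_div_of_nonneg_right hpot hη.le)
          have h3 : (P.κ + (B + γ) * (n + (r + 3))) / P.η =
              (P.κ + (B + γ) * (r + 3)) / P.η + (B + γ) / P.η * n := by
            field_simp
            ring
          have h4 := Nat.le_ceil ((P.κ + (B + γ) * (r + 3)) / P.η)
          have h5 := mul_le_mul_of_nonneg_right (Nat.le_ceil ((B + γ) / P.η))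
            (Nat.cast_nonneg (α := ℝ) n)
          rw [h3] at h2
          linarith
        have h6 : d ≤ K1 + K2 * n := by exact_mod_cast h1
        omega
      · omega
      · omega
    · intro N hN hl
      obtain ⟨n', G, h1, h2, h3, h4⟩ := leaf_spec3 hr P hε hN hl
      obtain ⟨t, ht, hans⟩ := hM n' G h2
      refine ⟨t, ?_, ?_⟩
      · rw [h1]
        have e : decide (Satisfiable N.2) = @decide (Satisfiable G) (Classical.propDecidable _) := by
          rw [decide_eq_decide]
          exact h3.symm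
        rw [e]
        exact hans
      · refine ht.trans ?_
        have h5 : (2 : ℝ) ^ (ε * n') ≤ (2 : ℝ) ^ P.potN B N :=
          Real.rpow_le_rpow_of_exponent_le (by norm_num) h4
        have h6 : (0 : ℝ) ≤ (2 : ℝ) ^ (ε * n') := by positivity
        calc c * (2 : ℝ) ^ (ε * n') ≤ C * (2 : ℝ) ^ (ε * n') := mul_le_mul_of_nonneg_right hcC h6
          _ ≤ _ := mul_le_mul_of_nonneg_left h5 (by linarith)
    · intro N hN hl
      obtain ⟨h1, h2, h3, x, y, h5⟩ := P.step_spec hB0 hN hl
      refine ⟨h1, h2, ?_, x, y, h5⟩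
      rw [← Bool.decide_or]
      exact decide_eq_decide.2 h3

end Pool.Agent.H83.E14
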