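import Pool.Agent.H40.SP.Defs
import Pool.Agent.H14.IpzK

/-!
# The upper bound: padding

A clause over `Fin n` with at most `k` literals is padded with dummy positive literals
`(n, true), (n + 1, true), …` (all false) to a clause with exactly `k` literals over `ℕ`.
-/

set_option autoImplicit false

namespace H40.SP

open Pool.Agent.H14.ETH

variable {n : ℕ}

/-- A literal over `Fin n` as a literal over `ℕ`. -/
def lit (l : Fin n × Bool) : Lit := ((l.1 : ℕ), l.2)

/-- The first `j` dummy literals. -/
def dum (n j : ℕ) : Finset Lit := (Finset.range j).image (fun i => (n + i, true))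

/-- The padded clause. -/
def pad (k : ℕ) (C : Finset (Fin n × Bool)) : Finset Lit := C.image lit ∪ dum n (k - C.card)

/-- The padded formula. -/
def padF (k : ℕ) (F : Fml (Fin n)) : Fam := F.image (pad k)

/-- The extension of an assignment, by `false`. -/
def ext (a : Fin n → Bool) (i : ℕ) : Bool := if h : i < n then a ⟨i, h⟩ else false

/-- The literals over `Fin n` of a clause over `ℕ`. -/
def res1 (n : ℕ) (C : Finset Lit) : Finset (Fin n × Bool) := Finset.univ.filter (fun l => lit l ∈ C)

open Classical in
/-- The clauses without negative dummies, without their positive dummies. -/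
noncomputable def res (n : ℕ) (G : Fam) : Fml (Fin n) :=
  (G.filter (fun C => ∀ l ∈ C, n ≤ l.1 → l.2 = true)).image (res1 n)

end H40.SP
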