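import Pool.Agent.H14.WS

/-!
# Row Ua: search for a hit

PROOF. Suppose the first alternative fails, i.e. `∃ c, ∃ p, 1 ≤ p ∧ p < c ∧ c ≤ K ∧ ¬ NoHit W.th c p 𝒞`.
Let `c` be the least such `c` (`Nat.find`, or well-founded induction, `classical`), and then `p` the least
`p` for this `c`. `¬ NoHit` gives `G` with `G.card = c - p` and `W.th p ≤ dg 𝒞 c G`; take `H = G`. `no1`:
for `c' < c` (so `c' ≤ K`) the negation of `NoHit` would contradict the minimality of `c`. `no2`: minimality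
of `p`.
`not_satBy_of_dead`: the two unit clauses would give `v x = b` and `v x = !b`.
-/

set_option autoImplicit false

namespace H40.SP

open Pool.Agent.H14.ETH

theorem exists_hit {K : ℕ} (W : WS K) (𝒞 : Fam) :
    (∀ c p, 1 ≤ p → p < c → c ≤ K → NoHit W.th c p 𝒞) ∨
      ∃ (c p : ℕ) (H : Finset Lit), W.Hit 𝒞 c p H := by
  classical
  by_cases h : ∀ c p, 1 ≤ p → p < c → c ≤ K → NoHit W.th c p 𝒞
  · exact Or.inl h
  · right
    push Not at h
    have h0 : ∃ c, ∃ p, 1 ≤ p ∧ p < c ∧ c ≤ K ∧ ¬ NoHit W.th c p 𝒞 := h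
    obtain ⟨p0, hp0⟩ := Nat.find_spec h0
    have hmin : ∀ c' < Nat.find h0, ¬ ∃ p, 1 ≤ p ∧ p < c' ∧ c' ≤ K ∧ ¬ NoHit W.th c' p 𝒞 :=
      fun c' hc' => Nat.find_min h0 hc'
    generalize Nat.find h0 = c at hp0 hmin
    have h1 : ∃ p, 1 ≤ p ∧ p < c ∧ c ≤ K ∧ ¬ NoHit W.th c p 𝒞 := ⟨p0, hp0⟩
    have hp := Nat.find_spec h1
    have hminp : ∀ p' < Nat.find h1, ¬ (1 ≤ p' ∧ p' < c ∧ c ≤ K ∧ ¬ NoHit W.th c p' 𝒞) :=
      fun p' hp' => Nat.find_min h1 hp'
    generalize Nat.find h1 = p at hp hminp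
    obtain ⟨hp1, hpc, hcK, hno⟩ := hp
    unfold NoHit at hno
    push Not at hno
    obtain ⟨G, hG, hle⟩ := hno
    refine ⟨c, p, G, ⟨hp1, hpc, hcK, hG, hle, ?_, ?_⟩⟩
    · intro c' p' h1' h2' h3'
      by_contra hcon
      exact hmin c' h3' ⟨p', h1', h2', by omega, hcon⟩
    · intro p' h1' h2'
      by_contra hcon
      exact hminp p' h2' ⟨h1', by omega, hcK, hcon⟩

/-- No assignment satisfies a family with two complementary unit clauses. -/
theorem not_satBy_of_dead {𝒞 : Fam} (h : Dead 𝒞) (v : ℕ → Bool) : ¬ satBy v 𝒞 := by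
  intro hs
  obtain ⟨x, b, h1, h2⟩ := h
  obtain ⟨l1, hl1, e1⟩ := hs _ h1
  obtain ⟨l2, hl2, e2⟩ := hs _ h2
  rw [Finset.mem_singleton] at hl1 hl2
  subst hl1 hl2
  simp only at e1 e2
  rw [e1] at e2
  cases b <;> simp at e2

end H40.SP
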