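import Pool.Agent.H14.IpzK

/-!
# Row Uc: the number of clauses at a leaf

PROOF. Copy of a part of `SpK.leaf_spec` in `Pool/Agent/H14/IpzK.lean`: `𝒞.card = ∑ i ∈ range (K + 1), num 𝒞 i`
by `wgt_eq_sum` with `a = 1`; then termwise: `num 𝒞 0 = 0` (`P.num_zero hI`), `num 𝒞 1 ≤ n` (`num_one_le hI.ov hd`),
`num 𝒞 i ≤ P.W.th (i - 1) * n` for `i ≥ 2` (`P.W.num_le_of_noHit hI`), and `Kc` is the sum of the coefficients.
-/

set_option autoImplicit false

namespace H40.SP

open Pool.Agent.H14.ETH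

theorem card_le_of_noHit {K : ℕ} {γ : ℝ} (P : SpK K γ) {n : ℕ} {𝒞 : Fam} (hI : P.W.Inv n 𝒞)
    (hd : ¬ Dead 𝒞) (h : ∀ c p, 1 ≤ p → p < c → c ≤ K → NoHit P.W.th c p 𝒞) :
    𝒞.card ≤ P.Kc * n := by
  have hcard : 𝒞.card = ∑ i ∈ Finset.range (K + 1), num 𝒞 i := by
    have h1 := wgt_eq_sum (a := fun _ => 1) (𝒞 := 𝒞) (k := K) (fun C hC => (hI.size C hC).2)
    unfold wgt at h1
    simp only [one_mul, Finset.sum_const, nsmul_eq_mul, mul_one] at h1
    exact_mod_cast h1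
  rw [hcard]
  unfold SpK.Kc
  rw [Finset.sum_mul]
  refine Finset.sum_le_sum fun i hi => ?_
  rw [Finset.mem_range] at hi
  split_ifs with h1
  · rw [one_mul]
    have : i = 0 ∨ i = 1 := by omega
    rcases this with rfl | rfl
    · rw [P.num_zero hI]
      omega
    · exact num_one_le hI.ov hd
  · exact P.W.num_le_of_noHit hI (c := i) (by omega)
      (h i (i - 1) (by omega) (by omega) (by omega))

end H40.SP
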