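import Pool.Agent.H40.SP.Ua
import Pool.Agent.H40.SP.Uc

/-!
# Row Ub: the leaves of the sparsification tree

PROOF. Prove by induction on `m : ℕ` the statement for all `𝒞` with `Inv`, `¬ Dead` and
`P.pot 0 n 𝒞 < m * P.η`. `m = 0`: impossible, since `P.κ_le_pot (B := 0)` gives `P.κ ≤ P.pot 0 n 𝒞` and
`0 < P.η ≤ P.κ`. Step: `exists_hit P.W 𝒞`.
* First alternative: `𝒢 = {𝒞}`; `1 ≤ 2 ^ pot` since `pot ≥ P.κ ≥ 0` (`Real.one_le_rpow`); sizes from `hI.size`,
  number of clauses from `card_le_of_noHit` (row Uc).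
* Second: `H` with `Hit`. Put `A = addAll {H} 𝒞`, `A' = addAll (petals 𝒞 c H) 𝒞`, `x = P.W.net (c - p)`,
  `y = P.W.th p * P.W.net p`. `P.W.stepA`, `P.W.stepB` give `Inv` and the growth of the weight, so that
  `pot A ≤ pot 𝒞 - x`, `pot A' ≤ pot 𝒞 - y` (unfold `pot`); `P.charge1`, `P.charge2` give `η ≤ x, η ≤ y`.
  Claim: for each child `X` with decrease `z ≥ η` there is `𝒢_X` with `card ≤ 2 ^ (pot 𝒞 - z)` and the
  properties for `X`: if `Dead X`, take `𝒢_X = ∅` (`not_satBy_of_dead`, row Ua); else the induction hypothesis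
  (`pot X ≤ pot 𝒞 - η < (m + 1) η - η`) and monotonicity of `2 ^ ·`.
  Take `𝒢 = 𝒢_A ∪ 𝒢_A'` (classical); `card ≤ 2 ^ (pot - x) + 2 ^ (pot - y) = 2 ^ pot * (2 ^ (-x) + 2 ^ (-y)) ≤ 2 ^ pot`
  by `P.W.kraft`; semantics: `satBy_branch c H`.
Finally choose `m` with `pot / η < m` (`exists_nat_gt`).
-/

set_option autoImplicit false

namespace H40.SP

open Pool.Agent.H14.ETH

theorem exists_leaves_aux {K : ℕ} {γ : ℝ} (P : SpK K γ) {n : ℕ} (m : ℕ) : ∀ {𝒞 : Fam}, P.W.Inv n 𝒞 →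
    ¬ Dead 𝒞 → P.pot 0 n 𝒞 < m * P.η →
    ∃ 𝒢 : Finset Fam, (𝒢.card : ℝ) ≤ (2 : ℝ) ^ (P.pot 0 n 𝒞) ∧
      (∀ G ∈ 𝒢, (∀ C ∈ G, C.card ≤ K) ∧ G.card ≤ P.Kc * n) ∧
      ∀ v, satBy v 𝒞 ↔ ∃ G ∈ 𝒢, satBy v G := by
  classical
  induction m with
  | zero =>
    intro 𝒞 hI hd hm
    exfalso
    have h1 := P.κ_le_pot (B := 0) hI hd
    have h2 := P.η_pos
    have h3 := P.η_le_κ
    rw [zero_mul] at h1
    rw [Nat.cast_zero, zero_mul] at hm
    linarith
  | succ m ih =>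
    intro 𝒞 hI hd hm
    have hκ := P.κ_le_pot (B := 0) hI hd
    rw [zero_mul, add_zero] at hκ
    have hη := P.η_pos
    have hηκ := P.η_le_κ
    rcases exists_hit P.W 𝒞 with hno | ⟨c, p, H, hH⟩
    · refine ⟨{𝒞}, ?_, ?_, ?_⟩
      · rw [Finset.card_singleton, Nat.cast_one]
        exact Real.one_le_rpow (by norm_num) (by linarith)
      · intro G hG
        rw [Finset.mem_singleton] at hG
        subst hG
        exact ⟨fun C hC => (hI.size C hC).2, card_le_of_noHit P hI hd hno⟩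
      · intro v
        constructor
        · intro h
          exact ⟨𝒞, Finset.mem_singleton_self _, h⟩
        · rintro ⟨G, hG, h⟩
          rw [Finset.mem_singleton] at hG
          subst hG
          exact h
    · have claim : ∀ (X : Fam) (z : ℝ), P.W.Inv n X → P.η ≤ z → wgt P.W.a 𝒞 + z ≤ wgt P.W.a X →
          ∃ 𝒢 : Finset Fam, (𝒢.card : ℝ) ≤ (2 : ℝ) ^ (P.pot 0 n 𝒞 - z) ∧
            (∀ G ∈ 𝒢, (∀ C ∈ G, C.card ≤ K) ∧ G.card ≤ P.Kc * n) ∧
            ∀ v, satBy v X ↔ ∃ G ∈ 𝒢, satBy v G := by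
        intro X z hX hz hw
        by_cases hdX : Dead X
        · refine ⟨∅, ?_, ?_, ?_⟩
          · rw [Finset.card_empty, Nat.cast_zero]
            exact Real.rpow_nonneg (by norm_num) _
          · intro G hG
            exact absurd hG (Finset.notMem_empty G)
          · intro v
            constructor
            · intro h
              exact absurd h (not_satBy_of_dead hdX v)
            · rintro ⟨G, hG, _⟩
              exact absurd hG (Finset.notMem_empty G)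
        · have hpot : P.pot 0 n X ≤ P.pot 0 n 𝒞 - z := by
            unfold SpK.pot
            linarith
          obtain ⟨𝒢, h1, h2, h3⟩ := ih hX hdX (by
            push_cast at hm
            linarith)
          exact ⟨𝒢, h1.trans (Real.rpow_le_rpow_of_exponent_le (by norm_num) hpot), h2, h3⟩
      have hp1 := hH.hp
      have hpc := hH.hpc
      have hck := hH.hck
      obtain ⟨iA, wA⟩ := P.W.stepA hI hH
      obtain ⟨iB, wB⟩ := P.W.stepB hI hH
      obtain ⟨k1, _⟩ := P.charge2 p hp1 (by omega)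
      obtain ⟨k3, _⟩ := P.charge1 (c - p) (by omega) (by omega)
      obtain ⟨𝒢A, a1, a2, a3⟩ := claim _ _ iA k3 wA
      obtain ⟨𝒢B, b1, b2, b3⟩ := claim _ _ iB k1 wB
      refine ⟨𝒢A ∪ 𝒢B, ?_, ?_, ?_⟩
      · have h1 : (((𝒢A ∪ 𝒢B).card : ℕ) : ℝ) ≤ (𝒢A.card : ℝ) + (𝒢B.card : ℝ) := by
          exact_mod_cast Finset.card_union_le _ _
        have h2 := P.W.kraft c p hp1 hpc hck
        have h3 : (2 : ℝ) ^ (P.pot 0 n 𝒞 - P.W.net (c - p)) =
            (2 : ℝ) ^ (P.pot 0 n 𝒞) * (2 : ℝ) ^ (-P.W.net (c - p)) := by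
          rw [← Real.rpow_add (by norm_num), sub_eq_add_neg]
        have h4 : (2 : ℝ) ^ (P.pot 0 n 𝒞 - P.W.th p * P.W.net p) =
            (2 : ℝ) ^ (P.pot 0 n 𝒞) * (2 : ℝ) ^ (-(P.W.th p * P.W.net p)) := by
          rw [← Real.rpow_add (by norm_num), sub_eq_add_neg]
        rw [h3] at a1
        rw [h4] at b1
        have h5 : (0 : ℝ) ≤ (2 : ℝ) ^ (P.pot 0 n 𝒞) := Real.rpow_nonneg (by norm_num) _
        have h6 := mul_le_mul_of_nonneg_left h2 h5
        rw [mul_add, mul_one] at h6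
        linarith
      · intro G hG
        rw [Finset.mem_union] at hG
        rcases hG with hG | hG
        · exact a2 G hG
        · exact b2 G hG
      · intro v
        rw [satBy_branch c H, a3 v, b3 v]
        constructor
        · rintro (⟨G, hG, h⟩ | ⟨G, hG, h⟩)
          · exact ⟨G, Finset.mem_union_left _ hG, h⟩
          · exact ⟨G, Finset.mem_union_right _ hG, h⟩
        · rintro ⟨G, hG, h⟩
          rw [Finset.mem_union] at hG
          rcases hG with hG | hG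
          · exact Or.inl ⟨G, hG, h⟩
          · exact Or.inr ⟨G, hG, h⟩

theorem exists_leaves {K : ℕ} {γ : ℝ} (P : SpK K γ) {n : ℕ} {𝒞 : Fam} (hI : P.W.Inv n 𝒞)
    (hd : ¬ Dead 𝒞) : ∃ 𝒢 : Finset Fam, (𝒢.card : ℝ) ≤ (2 : ℝ) ^ (P.pot 0 n 𝒞) ∧
      (∀ G ∈ 𝒢, (∀ C ∈ G, C.card ≤ K) ∧ G.card ≤ P.Kc * n) ∧
      ∀ v, satBy v 𝒞 ↔ ∃ G ∈ 𝒢, satBy v G := by
  obtain ⟨m, hm⟩ := exists_nat_gt (P.pot 0 n 𝒞 / P.η)
  rw [div_lt_iff₀ P.η_pos] at hm
  exact exists_leaves_aux P m hI hd hm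

end H40.SP
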