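import Mathlib

/-!
# Row Ug: the parameter `z` (Mathlib only)

PROOF. `exists_z`: let `c = Nat.clog 2 (K * m)`, `l = Nat.clog 2 m` (so `m ≤ 2 ^ l` by `Nat.le_pow_clog`, and `l ≤ c` by
`Nat.clog_mono_right`, `K m ≤ 2 ^ c`). Let `P z` be `8 * K * m * (z * (K - 2) + 2 + l) ≤ 2 ^ z`.
(1) `P (3 c + 8)`: `(3c+8)(K-2) + 2 + l ≤ (3c+8) K` (as `2 + l ≤ 2 (3 c + 8)`), `c ≤ K m` (`c < 2 ^ c`, and
`2^(c-1) < K m` (`Nat.pow_pred_clog_lt_self`), so `c ≤ 2^(c-1) ≤ K m` by `c - 1 < 2^(c-1)`), so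
`3 c + 8 ≤ 7 K m` (`K m ≥ 2`), and the left side is `≤ 8 K m * K * 7 K m = 56 K^3 m^2 ≤ 256 (K m)^3 ≤ 2 ^ (3c + 8)`.
(2) Let `z` be the least `z` with `P z` (`Nat.find`); `z ≤ 3 c + 8`; `z ≠ 0` since `P 0` would say
`8 K m (2 + l) ≤ 1`. So `¬ P (z - 1)`: `2 ^ (z - 1) < 8 K m ((z - 1)(K - 2) + 2 + l)`, hence
`2 ^ z ≤ 16 K m ((3c+7)(K-2) + 2 + c) ≤ 16 K m * K (3 c + 7) ≤ 64 K^2 m (c + 2)`.
`clog_le`: let `N ≥ 2`, `c = Nat.clog 2 N ≥ 1`; `2^(c-1) < N`, so `(c - 1) log 2 ≤ log N`, so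
`(c + 2) log 2 ≤ log N + 3 log 2 = log (8 N) ≤ 2 log (2 N)` since `8 N ≤ (2 N)^2`. As `log 2 > 0.69` we get
`64 (c + 2) ≤ (128 / 0.69) log (2 N) ≤ 200 log (2 N)`.
-/

set_option autoImplicit false

namespace H40.SP

theorem exists_z (K m : ℕ) (hK : 2 ≤ K) (hm : 1 ≤ m) : ∃ z l : ℕ, m ≤ 2 ^ l ∧
    8 * K * m * (z * (K - 2) + 2 + l) ≤ 2 ^ z ∧
      2 ^ z ≤ 64 * K ^ 2 * m * (Nat.clog 2 (K * m) + 2) := by
  obtain ⟨k, rfl⟩ : ∃ k, K = k + 2 := ⟨K - 2, by omega⟩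
  have e0 : k + 2 - 2 = k := by omega
  rw [e0]
  set N := (k + 2) * m with hN
  have hN2 : 2 ≤ N := by
    rw [hN]
    calc 2 = 2 * 1 := rfl
      _ ≤ (k + 2) * m := Nat.mul_le_mul (by omega) hm
  have hmN : m ≤ N := by
    rw [hN]
    calc m = 1 * m := (one_mul m).symm
      _ ≤ (k + 2) * m := Nat.mul_le_mul_right m (by omega)
  set c := Nat.clog 2 N with hc
  set l := Nat.clog 2 m with hl
  have hml : m ≤ 2 ^ l := Nat.le_pow_clog (by norm_num) m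
  have hNc : N ≤ 2 ^ c := Nat.le_pow_clog (by norm_num) N
  have hlc : l ≤ c := Nat.clog_mono_right 2 hmN
  have hcN : c ≤ N := Nat.clog_le_of_le_pow (Nat.lt_two_pow_self).le
  have hP : 8 * (k + 2) * m * ((3 * c + 8) * k + 2 + l) ≤ 2 ^ (3 * c + 8) := by
    have h1 : (3 * c + 8) * k + 2 + l ≤ (3 * c + 8) * (k + 2) := by
      have : (3 * c + 8) * (k + 2) = (3 * c + 8) * k + 2 * (3 * c + 8) := by ring
      omega
    have h2 : 3 * c + 8 ≤ 7 * N := by omega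
    have h3 : (k + 2) ≤ N := by
      rw [hN]
      calc k + 2 = (k + 2) * 1 := (mul_one _).symm
        _ ≤ (k + 2) * m := Nat.mul_le_mul_left _ hm
    calc 8 * (k + 2) * m * ((3 * c + 8) * k + 2 + l)
        ≤ 8 * (k + 2) * m * ((3 * c + 8) * (k + 2)) := Nat.mul_le_mul_left _ h1
      _ = 8 * N * ((3 * c + 8) * (k + 2)) := by rw [hN]; ring
      _ ≤ 8 * N * ((7 * N) * N) := Nat.mul_le_mul_left _ (Nat.mul_le_mul h2 h3)
      _ = 56 * N ^ 3 := by ring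
      _ ≤ 256 * N ^ 3 := Nat.mul_le_mul_right _ (by norm_num)
      _ ≤ 256 * (2 ^ c) ^ 3 := Nat.mul_le_mul_left _ (Nat.pow_le_pow_left hNc 3)
      _ = 2 ^ (3 * c + 8) := by rw [← pow_mul, mul_comm c 3, pow_add]; ring
  have hex : ∃ z, 8 * (k + 2) * m * (z * k + 2 + l) ≤ 2 ^ z := ⟨_, hP⟩
  have hspec := Nat.find_spec hex
  have hmin := Nat.find_min' hex hP
  set z := Nat.find hex with hz
  refine ⟨z, l, hml, hspec, ?_⟩
  have hz0 : z ≠ 0 := by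
    intro h0
    rw [h0] at hspec
    have h1 : 1 ≤ (k + 2) * m * (0 * k + 2 + l) :=
      Nat.one_le_iff_ne_zero.2 (Nat.mul_ne_zero (by omega) (by omega))
    have h2 : 8 * (k + 2) * m * (0 * k + 2 + l) = 8 * ((k + 2) * m * (0 * k + 2 + l)) := by ring
    rw [h2, pow_zero] at hspec
    omega
  obtain ⟨y, hy⟩ : ∃ y, z = y + 1 := ⟨z - 1, by omega⟩
  have hnot : ¬ (8 * (k + 2) * m * (y * k + 2 + l) ≤ 2 ^ y) :=
    Nat.find_min hex (by rw [← hz, hy]; exact Nat.lt_succ_self y)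
  rw [not_le] at hnot
  have hy1 : y ≤ 3 * c + 7 := by omega
  rw [hy]
  have h1 : y * k + 2 + l ≤ (3 * c + 7) * (k + 2) := by
    have h2 : y * k ≤ (3 * c + 7) * k := Nat.mul_le_mul_right k hy1
    have h3 : (3 * c + 7) * (k + 2) = (3 * c + 7) * k + 2 * (3 * c + 7) := by ring
    omega
  calc 2 ^ (y + 1) = 2 * 2 ^ y := by ring
    _ ≤ 2 * (8 * (k + 2) * m * (y * k + 2 + l)) := Nat.mul_le_mul_left _ hnot.le
    _ ≤ 2 * (8 * (k + 2) * m * ((3 * c + 7) * (k + 2))) :=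
      Nat.mul_le_mul_left _ (Nat.mul_le_mul_left _ h1)
    _ = 16 * (k + 2) ^ 2 * m * (3 * c + 7) := by ring
    _ ≤ 16 * (k + 2) ^ 2 * m * (4 * (c + 2)) := Nat.mul_le_mul_left _ (by omega)
    _ = 64 * (k + 2) ^ 2 * m * (c + 2) := by ring

theorem clog_le {N : ℕ} (hN : 2 ≤ N) : 64 * ((Nat.clog 2 N : ℝ) + 2) ≤ 200 * Real.log (2 * N) := by
  have hc1 : Nat.clog 2 N ≠ 0 := by
    have := Nat.clog_pos (b := 2) (by norm_num) hN
    omega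
  obtain ⟨d, hd⟩ : ∃ d, Nat.clog 2 N = d + 1 := ⟨Nat.clog 2 N - 1, by omega⟩
  have h1 : 2 ^ d < N := by
    have h2 := Nat.pow_pred_clog_lt_self (b := 2) (by norm_num) (x := N) (by omega)
    rw [hd] at h2
    exact h2
  have hNr : (2 : ℝ) ≤ N := by exact_mod_cast hN
  have h1r : ((2 : ℝ) ^ d) ≤ N := by exact_mod_cast h1.le
  have hl2 : (0.69 : ℝ) < Real.log 2 := by
    have := Real.log_two_gt_d9
    linarith
  have h3 : (d : ℝ) * Real.log 2 ≤ Real.log N := by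
    rw [← Real.log_pow]
    exact Real.log_le_log (by positivity) h1r
  have h4 : Real.log (2 * N) = Real.log 2 + Real.log N :=
    Real.log_mul (by norm_num) (by positivity)
  have h5 : Real.log 2 ≤ Real.log N := Real.log_le_log (by norm_num) hNr
  rw [hd, h4]
  push_cast
  have h6 : 64 * ((d : ℝ) + 1 + 2) * Real.log 2 ≤ 128 * (Real.log 2 + Real.log N) := by
    nlinarith
  have hd0 : (0 : ℝ) ≤ d := Nat.cast_nonneg d
  have h7 : 64 * ((d : ℝ) + 1 + 2) * 0.69 ≤ 64 * ((d : ℝ) + 1 + 2) * Real.log 2 :=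
    mul_le_mul_of_nonneg_left hl2.le (by positivity)
  nlinarith

end H40.SP
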